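import Pool.Agent.RelB.Targets
import Pool.Agent.RelS.MEAS

/-!
# Coins
-/

set_option autoImplicit false

namespace Pool.Agent.RelB

open MeasureTheory Set
open scoped ENNReal
open Pool.Agent.RelT (Par Fast)
open Pool.Agent.RelS (Idx Om bern bern_prob Dep mixP mixP_pos mixP_neg mixP_meas fd meas_of_dep
  bern_false bern_true)

section
variable (Φ : Par)

/-- Mixing two samples gives a sample. -/
theorem mixp (p : Set Idx) :
    MeasurePreserving (fun z : Om × Om => mixP p z.1 z.2) ((coin Φ).prod (coin Φ)) (coin Φ) := by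
  classical
  refine ⟨mixP_meas p, ?_⟩
  unfold coin
  refine Measure.eq_infinitePi _ fun s t ht => ?_
  rw [Measure.map_apply (mixP_meas p) (MeasurableSet.pi s.countable_toSet fun i _ => ht i)]
  have h1 : (fun z : Om × Om => mixP p z.1 z.2) ⁻¹' (Set.pi s t) =
      (Set.pi (s.filter fun i => i ∈ p : Finset Idx) t) ×ˢ
        (Set.pi (s.filter fun i => ¬ i ∈ p : Finset Idx) t) := by
    ext z
    simp only [Set.mem_preimage, Set.mem_pi, Set.mem_prod, Finset.coe_filter,
      Set.mem_ofPred_eq, Finset.mem_coe]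
    constructor
    · intro h
      refine ⟨fun i hi => ?_, fun i hi => ?_⟩
      · have := h i hi.1
        rwa [mixP_pos hi.2] at this
      · have := h i hi.1
        rwa [mixP_neg hi.2] at this
    · rintro ⟨h1, h2⟩ i hi
      by_cases hp : i ∈ p
      · rw [mixP_pos hp]; exact h1 i ⟨hi, hp⟩
      · rw [mixP_neg hp]; exact h2 i ⟨hi, hp⟩
  rw [h1, Measure.prod_prod, Measure.infinitePi_pi _ fun i _ => ht i,
    Measure.infinitePi_pi _ fun i _ => ht i]
  exact Finset.prod_filter_mul_prod_filter_not s (fun i => i ∈ p) fun i => cm Φ i (t i)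

/-- Functions of different coins are independent. -/
theorem indep {p : Set Idx} {F G : Om → ℝ≥0∞} (hF : Measurable F) (hG : Measurable G)
    (dF : Dep p F) (dG : Dep pᶜ G) :
    ∫⁻ ω, F ω * G ω ∂(coin Φ) = (∫⁻ ω, F ω ∂(coin Φ)) * ∫⁻ ω, G ω ∂(coin Φ) := by
  have h0 : ∫⁻ z : Om × Om, F (mixP p z.1 z.2) * G (mixP p z.1 z.2) ∂((coin Φ).prod (coin Φ)) =
      ∫⁻ ω, F ω * G ω ∂(coin Φ) := (mixp Φ p).lintegral_comp (hF.mul hG)
  rw [← h0]
  have h1 : ∀ z : Om × Om, F (mixP p z.1 z.2) * G (mixP p z.1 z.2) = F z.1 * G z.2 := by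
    intro z
    rw [dF (mixP p z.1 z.2) z.1 fun a ha => mixP_pos ha,
      dG (mixP p z.1 z.2) z.2 fun a ha => mixP_neg ha]
  simp only [h1]
  exact lintegral_prod_mul hF.aemeasurable hG.aemeasurable

/-- The probability of an event is the mean of its conditional probabilities. -/
theorem lint_mix {p : Set Idx} {S : Set Om} (hS : MeasurableSet S) {H : Om → ℝ≥0∞}
    (hH : Measurable H) (dH : Dep p H) :
    ∫⁻ ω in S, H ω ∂(coin Φ) =
      ∫⁻ ω, H ω * coin Φ {τ | mixP p ω τ ∈ S} ∂(coin Φ) := by
  rw [← lintegral_indicator hS, ← (mixp Φ p).lintegral_comp (hH.indicator hS),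
    lintegral_prod (fun z : Om × Om => S.indicator H (mixP p z.1 z.2))
      ((hH.indicator hS).comp (mixP_meas p)).aemeasurable]
  refine lintegral_congr fun ω => ?_
  have h1 : ∀ τ : Om, S.indicator H (mixP p ω τ) =
      H ω * (({τ | mixP p ω τ ∈ S} : Set Om).indicator 1 τ) := by
    intro τ
    by_cases h : mixP p ω τ ∈ S
    · rw [indicator_of_mem h, indicator_of_mem (show τ ∈ {τ | mixP p ω τ ∈ S} from h),
        dH (mixP p ω τ) ω fun a ha => mixP_pos ha]
      simp
    · rw [indicator_of_notMem h, indicator_of_notMem (show τ ∉ {τ | mixP p ω τ ∈ S} from h)]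
      simp
  have hm : MeasurableSet {τ | mixP p ω τ ∈ S} :=
    ((mixP_meas p).comp (measurable_const.prodMk measurable_id)) hS
  simp only [h1]
  rw [lintegral_const_mul _ (measurable_one.indicator hm), lintegral_indicator_one hm]

theorem coin_true (a : Idx) : coin Φ {ω | ω a = true} = ENNReal.ofReal (1 - sv Φ a) := by
  have h1 : {ω : Om | ω a = true} = Set.pi (({a} : Finset Idx) : Set Idx) fun _ => {true} := by
    ext ω
    simp
  rw [h1]
  unfold coin
  rw [Measure.infinitePi_pi _ fun i _ => measurableSet_singleton _]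
  simp only [Finset.prod_singleton]
  exact bern_true _

theorem coin_false (F : Finset Idx) :
    coin Φ {ω | ∀ a ∈ F, ω a = false} = ENNReal.ofReal (∏ a ∈ F, sv Φ a) := by
  have h1 : {ω : Om | ∀ a ∈ F, ω a = false} = Set.pi (F : Set Idx) fun _ => {false} := by
    ext ω
    simp [Set.mem_pi]
  rw [h1]
  unfold coin
  rw [Measure.infinitePi_pi _ fun i _ => measurableSet_singleton _,
    ENNReal.ofReal_prod_of_nonneg fun a _ => (sv_pos Φ a).le]
  refine Finset.prod_congr rfl fun a _ => ?_
  exact bern_false _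

/-- The law of finitely many coins. -/
theorem coin_map {D : Type} [Fintype D] (ι : D → Idx) (hι : Function.Injective ι) :
    (coin Φ).map (fun ω d => ω (ι d)) = Measure.pi fun d => bern (sv Φ (ι d)) := by
  classical
  have : ∀ d, IsProbabilityMeasure (bern (sv Φ (ι d))) := fun d =>
    bern_prob (sv_pos Φ _).le (sv_le_one Φ _)
  refine (Measure.pi_eq fun s hs => ?_).symm
  have hm : Measurable fun (ω : Om) (d : D) => ω (ι d) :=
    measurable_pi_lambda _ fun d => measurable_pi_apply _
  rw [Measure.map_apply hm (MeasurableSet.univ_pi hs)]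
  let T : Idx → Set Bool := fun a => ⋂ (d : D) (_ : ι d = a), s d
  have hT : ∀ d, T (ι d) = s d := by
    intro d
    ext b
    simp only [T, Set.mem_iInter]
    constructor
    · intro h
      exact h d rfl
    · intro h d' hd'
      rw [hι hd']
      exact h
  have h1 : (fun (ω : Om) (d : D) => ω (ι d)) ⁻¹' (Set.univ.pi s) =
      Set.pi ((Finset.univ.image ι : Finset Idx) : Set Idx) T := by
    ext ω
    simp only [Set.mem_preimage, Set.mem_pi, Finset.coe_image, Finset.coe_univ, Set.image_univ,
      Set.mem_range, forall_exists_index, forall_apply_eq_imp_iff, Set.mem_univ, true_imp_iff]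
    refine forall_congr' fun d => ?_
    rw [hT]
  rw [h1]
  unfold coin
  rw [Measure.infinitePi_pi _ fun i _ => MeasurableSet.of_discrete,
    Finset.prod_image fun a _ b _ h => hι h]
  refine Finset.prod_congr rfl fun d _ => ?_
  rw [hT]
  rfl

end

end Pool.Agent.RelB
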