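import Pool.Agent.RelB.Targets2
import Pool.Agent.RelB.MEAS
import Pool.Agent.RelB.DENT

/-!
# Locality and certificates of acceptance
-/

set_option autoImplicit false

namespace Pool.Agent.RelB

open MeasureTheory Set
open scoped ENNReal
open Pool.Agent.RelT (Par Fast)
open Pool.Agent.RelM (Lang Instr Cfg run Halts pair triple str pre hq wq sq0 sq1 Asks code qb)
open Pool.Agent.RelO (lev st)
open Pool.Agent.RelS (Z Rl orcV orc acc Idx Om Dep mixP gf PF Low Cert Upw orcV_imp Rl_congr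
  lev_lt_sq1 oloc mixP_pos mixP_neg wt PF_def up_diff low_not_upw PF_nonneg PF_le_one bern_true
  bern_false)
open Pool.Agent.RelM.HFIX_ (qb_bound)

/-- The lengths of the words asked. -/
theorem ask_len {O : Lang} {v : List Instr × ℕ × ℕ} {x y q : List Bool} {s : ℕ}
    (hy : y.length ≤ (x.length + 2) ^ v.2.1) (hs : s < (x.length + 2) ^ v.2.2)
    (hq : Asks O v.1 (pair x y) s q) : q.length ≤ qb v x.length := by
  have h1 := Pool.Agent.RelM.len _ _ _ _ _ hq
  have h2 : (pair x y).length = 2 * x.length + 1 + y.length := by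
    simp [pair, List.length_flatMap]
    ring
  have h3 := qb_bound v x.length
  omega

/-- Acceptance depends only on short words. -/
theorem acc_loc {O O' : Lang} {v : List Instr × ℕ × ℕ} {x : List Bool}
    (h : ∀ q : List Bool, q.length ≤ qb v x.length → O q = O' q) (ha : acc O v x) :
    acc O' v x := by
  obtain ⟨y, hy, hr⟩ := ha
  refine ⟨y, hy, ?_⟩
  rw [Pool.Agent.RelM.loc O O' v.1 (pair x y) ((x.length + 2) ^ v.2.2)
    (fun s hs q hq => h q (ask_len hy hs hq)) _ le_rfl]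
  exact hr

theorem acc_congr {O O' : Lang} {v : List Instr × ℕ × ℕ} {x : List Bool}
    (h : ∀ q : List Bool, q.length ≤ qb v x.length → O q = O' q) : acc O v x ↔ acc O' v x :=
  ⟨acc_loc h, acc_loc fun q hq => (h q hq).symm⟩

/-- The parity of the number of accepting machines depends only on short words. -/
theorem xacc_congr {O O' : Lang} {vs : ML} {x : List Bool}
    (h : ∀ q : List Bool, q.length ≤ qbs vs x.length → O q = O' q) :
    xacc O vs x ↔ xacc O' vs x := by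
  induction vs with
  | nil => exact Iff.rfl
  | cons v vs ih =>
    have h1 : acc O v x ↔ acc O' v x := acc_congr fun q hq => h q (hq.trans (le_max_left _ _))
    have h2 := ih fun q hq => h q (hq.trans (le_max_right _ _))
    show Xor (acc O v x) (xacc O vs x) ↔ Xor (acc O' v x) (xacc O' vs x)
    unfold Xor
    rw [h1, h2]

/-- The words of stage `j` are short. -/
theorem str_len_le {n t : ℕ} (h : t < 2 ^ n) : (str t).length ≤ n := by
  rw [Pool.Agent.RelM.strlen]
  have h1 : t + 1 < 2 ^ (n + 1) := by rw [pow_succ]; omega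
  have h2 := Nat.log_lt_of_lt_pow (b := 2) (by omega) h1
  omega

theorem qb_mono (v : List Instr × ℕ × ℕ) {n n' : ℕ} (h : n ≤ n') : qb v n ≤ qb v n' := by
  unfold qb
  exact Nat.pow_le_pow_left (by omega) _

theorem qbs_mono (vs : ML) {n n' : ℕ} (h : n ≤ n') : qbs vs n ≤ qbs vs n' := by
  induction vs with
  | nil => exact le_rfl
  | cons v vs ih => exact max_le_max (qb_mono v h) ih

theorem qb_le_qbs {v : List Instr × ℕ × ℕ} {vs : ML} (h : v ∈ vs) (n : ℕ) :
    qb v n ≤ qbs vs n := by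
  induction vs with
  | nil => exact absurd h (List.not_mem_nil)
  | cons u vs ih =>
    rcases List.mem_cons.1 h with rfl | h
    · exact le_max_left _ _
    · exact (ih h).trans (le_max_right _ _)

theorem jj_le {Φ : Par} {m j : ℕ} (h : m < nn Φ j) : jj Φ m ≤ j := by
  by_contra h1
  have := (jjspec Φ m).2 j (by omega)
  omega

theorem Wd_lt {Φ : Par} {j t : ℕ} (h : t ∈ Wd Φ j) : t < 2 ^ (nn Φ j + j) :=
  (Finset.mem_Ico.1 h).2

theorem qb_small {Φ : Par} {j t : ℕ} (h : t ∈ Wd Φ j) :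
    qbs (mcs j) (str t).length < nn Φ (j + 1) ∧ qbs (mcs j) (str t).length < 2 ^ nn Φ j ∧
    2 * (qbs (mcs j) (str t).length : ℝ) * Φ.B ≤ md j * 2 ^ nn Φ j := by
  have h1 := qbs_mono (mcs j) (str_len_le (Wd_lt h))
  have h2 := nnq Φ j (nn Φ j) le_rfl
  have h3 := nnmd Φ j (nn Φ j) le_rfl
  refine ⟨h1.trans_lt (nnnext Φ j), by omega, le_trans ?_ h3⟩
  have h4 : (qbs (mcs j) (str t).length : ℝ) ≤ qbs (mcs j) (nn Φ j + j) := by exact_mod_cast h1
  gcongr

theorem accl : T_ACC := by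
  intro Φ j t h h' ω ω' ht ho hK hh hw
  obtain ⟨q1, q2, -⟩ := qb_small ht
  unfold ans oh orc
  refine xacc_congr fun q hq => ?_
  refine oloc _ _ _ _ _ (qbs (mcs j) (str t).length) ?_ ?_ q hq
  · intro κ x y h1 h2
    have h4 : jj Φ (lev κ x) ≤ j + 1 := jj_le (by omega)
    unfold zz
    rw [← ho _ h4]
    exact hw _ ⟨by show lev κ x < _; omega, h2, hK _ h4⟩
  · intro u hu
    refine bloc Φ _ _ u fun j' hj' => hh j' ?_
    by_contra h5
    have h6 : 2 ^ nn Φ j ≤ 2 ^ nn Φ j' :=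
      Nat.pow_le_pow_right (by norm_num) ((nnmono Φ).monotone (by omega))
    omega

/-! ## The new coins -/

/-- The coins with costs from `a` to `b`, without the option. -/
abbrev DD (a b : ℕ) : Type :=
  {d : ℕ × List Bool × List Bool // a ≤ lev d.1 d.2.1 ∧ lev d.1 d.2.1 < b ∧
    d.2.2.length = lev d.1 d.2.1}

instance (a b : ℕ) : Finite (DD a b) := by
  have h1 : (Set.Iic b ×ˢ ({x : List Bool | x.length ≤ b} ×ˢ
      {y : List Bool | y.length ≤ b}) : Set (ℕ × List Bool × List Bool)).Finite :=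
    (Set.finite_Iic _).prod ((List.finite_length_le Bool _).prod (List.finite_length_le Bool _))
  refine (h1.subset ?_).to_subtype
  rintro ⟨κ, x, y⟩ ⟨-, h3, h4⟩
  have h3' : lev κ x < b := h3
  have h4' : y.length = lev κ x := h4
  obtain ⟨h5, h6⟩ := Pool.Agent.RelO.levfin κ x b h3'.le
  refine ⟨h5, h6, ?_⟩
  show y.length ≤ b
  omega

noncomputable instance (a b : ℕ) : Fintype (DD a b) := Fintype.ofFinite _

open Classical in
/-- The world with the keys `z` of costs from `a` to `b` and the keys of costs less than `a` of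
the world `z0`. -/
noncomputable def WW (a b : ℕ) (z0 : Z) (z : DD a b → Bool) : Z := fun κ x y =>
  if lev κ x < a then z0 κ x y
  else if h : a ≤ lev κ x ∧ lev κ x < b ∧ y.length = lev κ x then z ⟨(κ, x, y), h⟩ else false

lemma WW_lt {a b : ℕ} {z0 : Z} {z : DD a b → Bool} {κ : ℕ} {x y : List Bool}
    (h : lev κ x < a) : WW a b z0 z κ x y = z0 κ x y := by
  unfold WW
  rw [if_pos h]

lemma WW_mid {a b : ℕ} {z0 : Z} {z : DD a b → Bool} (d : DD a b) :
    WW a b z0 z d.1.1 d.1.2.1 d.1.2.2 = z d := by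
  unfold WW
  rw [if_neg (not_lt.2 d.2.1), dif_pos d.2]

/-- The words asked determine the answers. -/
theorem orc_eq {a b : ℕ} {G : Lang} {z0 : Z} {z z' : DD a b → Bool} {q : List Bool}
    (hq : q.length < 2 ^ a) (h : ∀ d : DD a b, q = wq d.1.1 d.1.2.1 d.1.2.2 → z' d = z d)
    (hT : orc G (WW a b z0 z) q = true) : orc G (WW a b z0 z') q = true := by
  unfold orc at hT ⊢
  refine orcV_imp ?_ ?_ ?_ hT
  · intro κ x y _ h2 h3 h4
    refine ⟨trivial, ?_⟩
    unfold WW at h4 ⊢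
    by_cases h5 : lev κ x < a
    · rw [if_pos h5] at h4 ⊢
      exact h4
    · rw [if_neg h5] at h4 ⊢
      by_cases h6 : a ≤ lev κ x ∧ lev κ x < b ∧ y.length = lev κ x
      · rw [dif_pos h6] at h4 ⊢
        rw [h ⟨(κ, x, y), h6⟩ h3]
        exact h4
      · rw [dif_neg h6] at h4
        exact absurd h4 (by decide)
  · intro κ x m _ h2 h3 h4
    refine ⟨trivial, ?_⟩
    have h5 := lev_lt_sq1 h3
    rw [← h2] at h5
    have h6 : lev κ x < a := by
      have h7 : 2 ^ lev κ x < 2 ^ a := h5.trans_lt hq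
      exact (Nat.pow_lt_pow_iff_right (by norm_num)).1 h7
    rw [← h4]
    refine Rl_congr fun y _ => ?_
    rw [WW_lt h6, WW_lt h6]
  · intro u _ h4
    exact h4

/-- Acceptance in the world with new keys. -/
def gg (a b : ℕ) (G : Lang) (z0 : Z) (v : List Instr × ℕ × ℕ) (x : List Bool)
    (z : DD a b → Bool) : Prop := acc (orc G (WW a b z0 z)) v x

/-- Acceptance has certificates. -/
theorem cert (a b : ℕ) (G : Lang) (z0 : Z) (v : List Instr × ℕ × ℕ) (x : List Bool)
    (h : qb v x.length < 2 ^ a) : Cert (gg a b G z0 v x) (qb v x.length) := by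
  classical
  intro z hz
  obtain ⟨y, hy, hr⟩ := hz
  refine ⟨Finset.univ.filter fun d => ∃ s < (x.length + 2) ^ v.2.2,
      Asks (orc G (WW a b z0 z)) v.1 (pair x y) s (wq d.1.1 d.1.2.1 d.1.2.2), ?_, ?_⟩
  · have h2 : ∀ d ∈ (Finset.univ.filter fun d : DD a b => ∃ s < (x.length + 2) ^ v.2.2,
        Asks (orc G (WW a b z0 z)) v.1 (pair x y) s (wq d.1.1 d.1.2.1 d.1.2.2)),
        ∃ s ∈ Finset.range ((x.length + 2) ^ v.2.2),
        Asks (orc G (WW a b z0 z)) v.1 (pair x y) s (wq d.1.1 d.1.2.1 d.1.2.2) := by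
      intro d hd
      obtain ⟨s, h3, h4⟩ := (Finset.mem_filter.1 hd).2
      exact ⟨s, Finset.mem_range.2 h3, h4⟩
    have h5 := Finset.card_le_card_of_forall_subsingleton
      (fun (d : DD a b) (s : ℕ) =>
        Asks (orc G (WW a b z0 z)) v.1 (pair x y) s (wq d.1.1 d.1.2.1 d.1.2.2)) h2 ?_
    · rw [Finset.card_range] at h5
      have := qb_bound v x.length
      omega
    · intro s _ d1 hd1 d2 hd2
      have h6 := Pool.Agent.RelM.one _ _ _ _ _ _ hd1.2 hd2.2
      obtain ⟨e1, e2, e3⟩ := Pool.Agent.RelM.wq_inj h6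
      exact Subtype.ext (Prod.ext e1 (Prod.ext e2 e3))
  · intro z' hC
    refine ⟨y, hy, ?_⟩
    rw [Pool.Agent.RelM.loc (orc G (WW a b z0 z)) (orc G (WW a b z0 z')) v.1
      (pair x y) ((x.length + 2) ^ v.2.2) (fun s hs q hq => ?_) _ le_rfl]
    · exact hr
    · have hl := ask_len hy hs hq
      have hd : ∀ d : DD a b, q = wq d.1.1 d.1.2.1 d.1.2.2 → z' d = z d := by
        intro d hd
        refine hC d ?_
        rw [Finset.mem_filter]
        exact ⟨Finset.mem_univ _, s, hs, by rw [← hd]; exact hq⟩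
      rw [Bool.eq_iff_iff]
      exact ⟨orc_eq (by omega) hd, orc_eq (by omega) fun d h => (hd d h).symm⟩

/-! ## The mean entropy of an answer -/

/-- The coins of the option `i`. -/
def iot (a b i : ℕ) (d : DD a b) : Idx := (d.1.1, d.1.2.1, d.1.2.2, i)

theorem iot_inj (a b i : ℕ) : Function.Injective (iot a b i) := by
  rintro ⟨⟨κ, x, y⟩, hd⟩ ⟨⟨κ', x', y'⟩, hd'⟩ h
  simp only [iot, Prod.mk.injEq] at h
  obtain ⟨h1, h2, h3, -⟩ := h
  subst h1; subst h2; subst h3
  rfl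

/-- Acceptance of the word number `t` at stage `j` as a function of the new coins. -/
def ga (Φ : Par) (j : ℕ) (h : Hist) (ω : Om) (t : ℕ)
    (z : DD (nn Φ j) (nn Φ (j + 1)) → Bool) : Prop :=
  xacc (orc (bitsOf Φ h.2) (WW (nn Φ j) (nn Φ (j + 1)) (zz Φ h.1 ω) z)) (mcs j) (str t)

theorem ans_iff {Φ : Par} {j : ℕ} {h : Hist} (hK : ∀ i, i ≤ j → h.1 i < Φ.K) {ω τ : Om}
    {t i : ℕ} (ht : t ∈ Wd Φ j) :
    ans Φ j (seto h j i) (mixP (Old Φ j) ω τ) t ↔
      ga Φ j h ω t fun d => τ (iot (nn Φ j) (nn Φ (j + 1)) i d) := by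
  unfold ans ga oh orc
  refine xacc_congr fun q hq => ?_
  refine oloc _ _ _ _ _ (qbs (mcs j) (str t).length) ?_ (fun u _ => rfl) q hq
  intro κ x y h1 h2
  have h3 := (qb_small ht).1
  by_cases h4 : lev κ x < nn Φ j
  · rw [WW_lt h4]
    unfold zz seto
    simp only
    have h5 := jj_le h4
    rw [Function.update_of_ne (by omega)]
    exact mixP_pos ⟨h4, h2, hK _ h5⟩
  · have hd : nn Φ j ≤ lev κ x ∧ lev κ x < nn Φ (j + 1) ∧ y.length = lev κ x :=
      ⟨by omega, by omega, h2⟩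
    have h5 := WW_mid (z0 := zz Φ h.1 ω)
      (z := fun d => τ (iot (nn Φ j) (nn Φ (j + 1)) i d)) ⟨(κ, x, y), hd⟩
    rw [h5]
    unfold zz seto
    simp only
    rw [jj_eq hd.1 hd.2.1, Function.update_self]
    exact mixP_neg fun h6 => h4 h6.1

/-- Product measures and sums of weights. -/
theorem pi_real {D : Type} [Fintype D] {q : D → ℝ} (h0 : ∀ d, 0 ≤ q d) (h1 : ∀ d, q d ≤ 1)
    (A : Set (D → Bool)) : (Measure.pi fun d => Pool.Agent.RelS.bern (q d)).real A = PF q A := by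
  classical
  have i1 : ∀ d, IsProbabilityMeasure (Pool.Agent.RelS.bern (q d)) := fun d =>
    Pool.Agent.RelS.bern_prob (h0 d) (h1 d)
  have h2 : A = ⋃ V ∈ (Finset.univ.filter fun V => V ∈ A), {V} := by
    ext V
    simp
  have h3 : (Measure.pi fun d => Pool.Agent.RelS.bern (q d)).real A =
      ∑ V ∈ (Finset.univ.filter fun V => V ∈ A),
        (Measure.pi fun d => Pool.Agent.RelS.bern (q d)).real {V} := by
    conv_lhs => rw [h2]
    refine measureReal_biUnion_finset ?_ fun V _ => MeasurableSet.of_discrete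
    intro V _ V' _ hne
    exact Set.disjoint_singleton.2 hne
  rw [h3, PF_def, Finset.sum_filter]
  refine Finset.sum_congr rfl fun V _ => ?_
  by_cases hV : V ∈ A
  · rw [if_pos hV, if_pos hV, Measure.real, Measure.pi_singleton, ENNReal.toReal_prod]
    unfold wt
    refine Finset.prod_congr rfl fun d _ => ?_
    cases hd : V d
    · rw [bern_false, ENNReal.toReal_ofReal (h0 d)]
      simp
    · rw [bern_true, ENNReal.toReal_ofReal (by linarith [h1 d])]
      simp
  · rw [if_neg hV, if_neg hV]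

theorem pa_eq {Φ : Par} {j : ℕ} {h : Hist} (hK : ∀ i, i ≤ j → h.1 i < Φ.K) {ω : Om}
    {t i : ℕ} (ht : t ∈ Wd Φ j) :
    pa Φ j h ω t i =
      PF (fun d => sv Φ (iot (nn Φ j) (nn Φ (j + 1)) i d)) {z | ga Φ j h ω t z} := by
  rw [← pi_real (fun d => (sv_pos Φ _).le) (fun d => sv_le_one Φ _)]
  unfold pa
  simp only [ans_iff hK ht]
  have h1 := coin_map Φ (iot (nn Φ j) (nn Φ (j + 1)) i) (iot_inj _ _ i)
  rw [← h1, Measure.real, Measure.real, Measure.map_apply
    (measurable_pi_lambda _ fun d => measurable_pi_apply _) MeasurableSet.of_discrete]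
  rfl

/-- The probability of a new coin to be `true`. -/
theorem sv_eps {Φ : Par} {j i : ℕ} (hi : i < Φ.K) (d : DD (nn Φ j) (nn Φ (j + 1))) :
    1 - sv Φ (iot (nn Φ j) (nn Φ (j + 1)) i d) ≤ Φ.B / 2 ^ nn Φ j := by
  have h1 : ex Φ (iot (nn Φ j) (nn Φ (j + 1)) i d) ≤ Φ.B / 2 ^ nn Φ j := by
    unfold ex iot ml
    simp only
    have h2 := Φ.bd i d.1.1 (ix d.1.2.1 % Φ.dm d.1.1) hi
    have h4 : (2 : ℝ) ^ nn Φ j ≤ 2 ^ lev d.1.1 d.1.2.1 :=
      pow_le_pow_right₀ (by norm_num) d.2.1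
    gcongr
  refine le_trans ?_ h1
  unfold sv
  generalize ex Φ (iot (nn Φ j) (nn Φ (j + 1)) i d) = e
  have h6 := Real.add_one_le_exp (-e)
  linarith

/-- The probability of the symmetric difference of two events. -/
theorem PF_xor {D : Type} [Fintype D] {q : D → ℝ} (h0 : ∀ d, 0 ≤ q d) (h1 : ∀ d, q d ≤ 1)
    (hENT : T_ENT) (A B : (D → Bool) → Prop) :
    Real.binEntropy (PF q {z | Xor (A z) (B z)}) ≤
      Real.binEntropy (PF q {z | A z}) + Real.binEntropy (PF q {z | B z}) := by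
  have i1 : ∀ d, IsProbabilityMeasure (Pool.Agent.RelS.bern (q d)) := fun d =>
    Pool.Agent.RelS.bern_prob (h0 d) (h1 d)
  rw [← pi_real h0 h1, ← pi_real h0 h1, ← pi_real h0 h1]
  have i2 : IsProbabilityMeasure (Measure.pi fun d => Pool.Agent.RelS.bern (q d)) := inferInstance
  obtain ⟨μ, hμ⟩ : ∃ μ : Measure (D → Bool), μ = Measure.pi fun d => Pool.Agent.RelS.bern (q d) :=
    ⟨_, rfl⟩
  rw [← hμ] at i2 ⊢
  have hc : ∀ S : Set (D → Bool), μ.real Sᶜ = 1 - μ.real S := fun S =>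
    probReal_compl_eq_one_sub MeasurableSet.of_discrete
  have mono : ∀ S S' : Set (D → Bool), S ⊆ S' → μ.real S ≤ μ.real S' := fun S S' h =>
    measureReal_mono h
  have un : ∀ S S' : Set (D → Bool), μ.real (S ∪ S') ≤ μ.real S + μ.real S' := fun S S' =>
    measureReal_union_le _ _
  refine hENT _ _ _ measureReal_nonneg measureReal_nonneg measureReal_nonneg measureReal_le_one
    measureReal_le_one measureReal_le_one ?_ ?_ ?_ ?_
  · refine (mono _ _ ?_).trans (un _ _)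
    rintro z (⟨h, -⟩ | ⟨h, -⟩)
    · exact Or.inl h
    · exact Or.inr h
  · refine (mono _ _ ?_).trans (un _ _)
    intro z h
    by_cases h' : B z
    · exact Or.inl h'
    · exact Or.inr (Or.inl ⟨h, h'⟩)
  · refine (mono _ _ ?_).trans (un _ _)
    intro z h
    by_cases h' : A z
    · exact Or.inl h'
    · exact Or.inr (Or.inr ⟨h, h'⟩)
  · have h2 := (mono {z | Xor (A z) (B z)} ({z | A z}ᶜ ∪ {z | B z}ᶜ) (by
      rintro z (⟨-, h⟩ | ⟨-, h⟩)
      · exact Or.inr h
      · exact Or.inl h)).trans (un _ _)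
    rw [hc, hc] at h2
    linarith

/-- The mean entropy of the answer of one machine. -/
theorem uni_one (Φ : Par) (j t : ℕ) (h : Hist) (ω : Om) (ht : t ∈ Wd Φ j)
    {v : List Instr × ℕ × ℕ} (hv : v ∈ mcs j) :
    ∑ i ∈ Finset.range Φ.K, Φ.pv i * Real.binEntropy
      (PF (fun d => sv Φ (iot (nn Φ j) (nn Φ (j + 1)) i d))
        {z | gg (nn Φ j) (nn Φ (j + 1)) (bitsOf Φ h.2) (zz Φ h.1 ω) v (str t) z}) ≤
      Φ.a * Real.log 2 + 1 / (((j : ℝ) + 1) * (((mcs j).length : ℝ) + 1)) := by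
  obtain ⟨g, hg⟩ : ∃ g : (DD (nn Φ j) (nn Φ (j + 1)) → Bool) → Prop,
    g = gg (nn Φ j) (nn Φ (j + 1)) (bitsOf Φ h.2) (zz Φ h.1 ω) v (str t) := ⟨_, rfl⟩
  obtain ⟨A, hA⟩ : ∃ A : Set (DD (nn Φ j) (nn Φ (j + 1)) → Bool),
    A = {z | ¬ Upw g z} := ⟨_, rfl⟩
  obtain ⟨e, he⟩ : ∃ e : DD (nn Φ j) (nn Φ (j + 1)) → ℝ,
      ∀ d, e d = ml Φ d.1.1 d.1.2.1 / 2 ^ lev d.1.1 d.1.2.1 := ⟨_, fun _ => rfl⟩
  have he0 : ∀ d, 0 ≤ e d := by
    intro d
    rw [he]
    unfold ml
    have := Φ.mul0 d.1.1 (ix d.1.2.1 % Φ.dm d.1.1)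
    positivity
  have hsv : ∀ i, (fun d => sv Φ (iot (nn Φ j) (nn Φ (j + 1)) i d)) =
      fun d => Real.exp (-(Φ.lam i * e d)) := by
    intro i
    funext d
    unfold sv ex iot
    simp only
    rw [he, mul_div_assoc]
  have hcov := Φ.cov (DD (nn Φ j) (nn Φ (j + 1))) inferInstance e A he0 (by
    rw [hA]
    exact low_not_upw _)
  obtain ⟨-, q2, q3⟩ := qb_small ht
  have hq := qb_le_qbs hv (str t).length
  have hC : Cert g (qb v (str t).length) := by
    rw [hg]
    exact cert (nn Φ j) (nn Φ (j + 1)) (bitsOf Φ h.2) (zz Φ h.1 ω) v (str t)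
      (hq.trans_lt q2)
  have q3' : 2 * (qb v (str t).length : ℝ) * Φ.B ≤ md j * 2 ^ nn Φ j := by
    refine le_trans ?_ q3
    have : (qb v (str t).length : ℝ) ≤ qbs (mcs j) (str t).length := by exact_mod_cast hq
    gcongr
  have hB : (Φ.B : ℝ) / 2 ^ nn Φ j ≤ 1 / 2 := by
    have h1 := nnb Φ j
    have h2 : Φ.B < 2 ^ Φ.B := Nat.lt_two_pow_self
    have h3 : 2 ^ (Φ.B + 1) ≤ 2 ^ nn Φ j := Nat.pow_le_pow_right (by norm_num) (by omega)
    have h4 : 2 * Φ.B ≤ 2 ^ nn Φ j := by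
      rw [pow_succ] at h3
      omega
    have h5 : 2 * (Φ.B : ℝ) ≤ 2 ^ nn Φ j := by exact_mod_cast h4
    rw [div_le_iff₀ (by positivity)]
    linarith
  obtain ⟨η, hη⟩ : ∃ η : ℝ, η = 1 / (((j : ℝ) + 1) * (((mcs j).length : ℝ) + 1)) := ⟨_, rfl⟩
  have hH : ∀ i ∈ Finset.range Φ.K, Φ.pv i * Real.binEntropy
      (PF (fun d => sv Φ (iot (nn Φ j) (nn Φ (j + 1)) i d)) {z | g z}) ≤
      Φ.pv i * Real.binEntropy (PF (fun d => Real.exp (-(Φ.lam i * e d))) A) +
        Φ.pv i * η := by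
    intro i hi
    rw [Finset.mem_range] at hi
    have hd := up_diff (q := fun d => sv Φ (iot (nn Φ j) (nn Φ (j + 1)) i d))
      (fun d => by linarith [sv_eps hi d]) (fun d => sv_le_one Φ _) (fun d => sv_eps hi d)
      (by positivity) hC
    have hp0 := PF_nonneg (q := fun d => sv Φ (iot (nn Φ j) (nn Φ (j + 1)) i d))
      (fun d => (sv_pos Φ _).le) (fun d => sv_le_one Φ _) {z | g z}
    have hp1 := PF_le_one (q := fun d => sv Φ (iot (nn Φ j) (nn Φ (j + 1)) i d))
      (fun d => (sv_pos Φ _).le) (fun d => sv_le_one Φ _) {z | g z}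
    have hq0 := PF_nonneg (q := fun d => sv Φ (iot (nn Φ j) (nn Φ (j + 1)) i d))
      (fun d => (sv_pos Φ _).le) (fun d => sv_le_one Φ _) A
    have hq1 := PF_le_one (q := fun d => sv Φ (iot (nn Φ j) (nn Φ (j + 1)) i d))
      (fun d => (sv_pos Φ _).le) (fun d => sv_le_one Φ _) A
    have hd' : |PF (fun d => sv Φ (iot (nn Φ j) (nn Φ (j + 1)) i d)) {z | g z} -
        (1 - PF (fun d => sv Φ (iot (nn Φ j) (nn Φ (j + 1)) i d)) A)| ≤ md j := by
      rw [hA]
      refine hd.trans ?_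
      rw [← mul_div_assoc, div_le_iff₀ (by positivity)]
      exact q3'
    have h2 := md_spec j ⟨hp0, hp1⟩ ⟨by linarith, by linarith⟩ hd'
    rw [Real.binEntropy_one_sub, ← hη] at h2
    rw [← mul_add, ← hsv]
    refine mul_le_mul_of_nonneg_left ?_ (Φ.pv0 i)
    linarith [(abs_le.1 h2).2]
  rw [← hη]
  calc ∑ i ∈ Finset.range Φ.K, Φ.pv i * Real.binEntropy
        (PF (fun d => sv Φ (iot (nn Φ j) (nn Φ (j + 1)) i d))
          {z | gg (nn Φ j) (nn Φ (j + 1)) (bitsOf Φ h.2) (zz Φ h.1 ω) v (str t) z})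
      ≤ ∑ i ∈ Finset.range Φ.K,
        (Φ.pv i * Real.binEntropy (PF (fun d => Real.exp (-(Φ.lam i * e d))) A) +
          Φ.pv i * η) := by
        rw [hg] at hH
        exact Finset.sum_le_sum hH
    _ = ∑ i ∈ Finset.range Φ.K,
        Φ.pv i * Real.binEntropy (PF (fun d => Real.exp (-(Φ.lam i * e d))) A) + η := by
        rw [Finset.sum_add_distrib, ← Finset.sum_mul, Φ.pv1, one_mul]
    _ ≤ _ := by linarith

/-- The mean entropy of the answer of a list of machines. -/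
theorem uni_list (hENT : T_ENT) (Φ : Par) (j t : ℕ) (h : Hist) (ω : Om) (ht : t ∈ Wd Φ j)
    (vs : ML) (hv : ∀ v ∈ vs, v ∈ mcs j) :
    ∑ i ∈ Finset.range Φ.K, Φ.pv i * Real.binEntropy
      (PF (fun d => sv Φ (iot (nn Φ j) (nn Φ (j + 1)) i d))
        {z | xacc (orc (bitsOf Φ h.2) (WW (nn Φ j) (nn Φ (j + 1)) (zz Φ h.1 ω) z)) vs
          (str t)}) ≤
      vs.length *
        (Φ.a * Real.log 2 + 1 / (((j : ℝ) + 1) * (((mcs j).length : ℝ) + 1))) := by
  induction vs with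
  | nil =>
    have h1 : ∀ i, PF (fun d => sv Φ (iot (nn Φ j) (nn Φ (j + 1)) i d))
        {z | xacc (orc (bitsOf Φ h.2) (WW (nn Φ j) (nn Φ (j + 1)) (zz Φ h.1 ω) z)) []
          (str t)} = 0 := by
      intro i
      classical
      rw [PF_def]
      refine Finset.sum_eq_zero fun V _ => ?_
      rw [if_neg]
      exact fun h => h
    simp only [h1, Real.binEntropy_zero, mul_zero, Finset.sum_const_zero, List.length_nil,
      Nat.cast_zero, zero_mul, le_refl]
  | cons v vs ih =>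
    have ih' := ih fun u hu => hv u (List.mem_cons_of_mem _ hu)
    have h1 := uni_one Φ j t h ω ht (hv v List.mem_cons_self)
    have h2 : ∀ i ∈ Finset.range Φ.K, Φ.pv i * Real.binEntropy
        (PF (fun d => sv Φ (iot (nn Φ j) (nn Φ (j + 1)) i d))
          {z | xacc (orc (bitsOf Φ h.2) (WW (nn Φ j) (nn Φ (j + 1)) (zz Φ h.1 ω) z)) (v :: vs)
            (str t)}) ≤
        Φ.pv i * Real.binEntropy
          (PF (fun d => sv Φ (iot (nn Φ j) (nn Φ (j + 1)) i d))
            {z | gg (nn Φ j) (nn Φ (j + 1)) (bitsOf Φ h.2) (zz Φ h.1 ω) v (str t) z}) +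
        Φ.pv i * Real.binEntropy
          (PF (fun d => sv Φ (iot (nn Φ j) (nn Φ (j + 1)) i d))
            {z | xacc (orc (bitsOf Φ h.2) (WW (nn Φ j) (nn Φ (j + 1)) (zz Φ h.1 ω) z)) vs
              (str t)}) := by
      intro i _
      rw [← mul_add]
      refine mul_le_mul_of_nonneg_left ?_ (Φ.pv0 i)
      exact PF_xor (fun d => (sv_pos Φ _).le) (fun d => sv_le_one Φ _) hENT _ _
    refine (Finset.sum_le_sum h2).trans ?_
    rw [Finset.sum_add_distrib, List.length_cons]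
    push_cast
    linarith

theorem uni_of (hENT : T_ENT) : T_UNI := by
  intro Φ j t h ω ht hK
  have h1 := uni_list hENT Φ j t h ω ht (mcs j) fun v hv => hv
  have h2 : ∀ i, pa Φ j h ω t i = PF (fun d => sv Φ (iot (nn Φ j) (nn Φ (j + 1)) i d))
      {z | xacc (orc (bitsOf Φ h.2) (WW (nn Φ j) (nn Φ (j + 1)) (zz Φ h.1 ω) z)) (mcs j)
        (str t)} := fun i => pa_eq hK ht
  simp only [h2]
  refine h1.trans ?_
  have h3 : ((mcs j).length : ℝ) * (1 / (((j : ℝ) + 1) * (((mcs j).length : ℝ) + 1))) ≤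
      1 / ((j : ℝ) + 1) := by
    have a1 : (0 : ℝ) < (j : ℝ) + 1 := by positivity
    have a2 : (0 : ℝ) < ((mcs j).length : ℝ) + 1 := by positivity
    rw [mul_one_div, div_le_div_iff₀ (by positivity) a1]
    nlinarith
  linarith

end Pool.Agent.RelB
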