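import Pool.Agent.RelT.Targets

/-!
# Oracles relative to which the Boolean hierarchy over `NP` has given null levels

The oracle is the one of `Pool.Agent.RelT.Core`, with one change: stage `j` treats a finite list of
nondeterministic machines, and the answer of the stage on a word is the parity of the number of the
machines of the list which accept the word.
-/

set_option autoImplicit false

namespace Pool.Agent.RelB

open MeasureTheory Set
open scoped ENNReal
open Pool.Agent.RelM (Lang Instr Cfg step run Halts Decides E1 E2 NP pair triple binVal outVal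
  Approx IsDensity str pre IsNullCover Null1 Null2 wq sq0 sq1 Asks hq code qb)
open Pool.Agent.RelO (lev IsGale IsGaleCover GaleNull1 GaleNull2 st)
open Pool.Agent.RelS (Z Rl orcV orc acc Idx Om bern bern_prob Dep mixP gf PF Low)
open Pool.Agent.RelT (Par)

/-! ## Lists of machines -/

/-- Lists of nondeterministic machines. -/
abbrev ML : Type := List (List Instr × ℕ × ℕ)

/-- An enumeration of the lists of machines. -/
noncomputable def lcode : ℕ → ML := (exists_surjective_nat ML).choose

theorem lcode_surj : Function.Surjective lcode := (exists_surjective_nat ML).choose_spec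

/-- The machines of stage `j`. -/
noncomputable def mcs (j : ℕ) : ML := lcode (st j)

/-- An odd number of the machines of the list accept the word. -/
def xacc (O : Lang) : ML → List Bool → Prop
  | [], _ => False
  | v :: vs, x => Xor (acc O v x) (xacc O vs x)

/-- A bound for the lengths of the queries. -/
def qbs : ML → ℕ → ℕ
  | [], _ => 0
  | v :: vs, n => max (qb v n) (qbs vs n)

/-- The level `m` of the Boolean hierarchy over `NP`: the symmetric differences of `m` languages in
`NP`. -/
def BH (O : Lang) : ℕ → Set Lang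
  | 0 => {fun _ => false}
  | m + 1 => {L | ∃ A ∈ NP O, ∃ B ∈ BH O m, L = fun x => xor (A x) (B x)}

/-! ## Stages -/

/-- The entropy is uniformly continuous. -/
theorem exists_md (j m : ℕ) : ∃ δ : ℝ, 0 < δ ∧ ∀ p q : ℝ, p ∈ Icc (0 : ℝ) 1 → q ∈ Icc (0 : ℝ) 1 →
    |p - q| ≤ δ → |Real.binEntropy p - Real.binEntropy q| ≤ 1 / (((j : ℝ) + 1) * ((m : ℝ) + 1)) := by
  have h := (isCompact_Icc (a := (0 : ℝ)) (b := 1)).uniformContinuousOn_of_continuous
    Real.binEntropy_continuous.continuousOn
  rw [Metric.uniformContinuousOn_iff] at h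
  obtain ⟨δ, hδ, h⟩ := h (1 / (((j : ℝ) + 1) * ((m : ℝ) + 1))) (by positivity)
  refine ⟨δ / 2, by positivity, fun p q hp hq hpq => ?_⟩
  have := h p hp q hq (by rw [Real.dist_eq]; linarith)
  rw [Real.dist_eq] at this
  exact this.le

/-- The modulus of continuity of stage `j`. -/
noncomputable def md (j : ℕ) : ℝ := (exists_md j (mcs j).length).choose

theorem md_pos (j : ℕ) : 0 < md j := (exists_md j (mcs j).length).choose_spec.1

theorem md_spec (j : ℕ) {p q : ℝ} (hp : p ∈ Icc (0 : ℝ) 1) (hq : q ∈ Icc (0 : ℝ) 1)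
    (h : |p - q| ≤ md j) : |Real.binEntropy p - Real.binEntropy q| ≤
      1 / (((j : ℝ) + 1) * (((mcs j).length : ℝ) + 1)) :=
  (exists_md j (mcs j).length).choose_spec.2 p q hp hq h

/-- Stage `j` must begin at least here. -/
noncomputable def thr (Φ : Par) (j : ℕ) : ℕ :=
  sInf {N | j + 2 ≤ N ∧ 2 * Φ.B + 2 ≤ N ∧ ∀ n, N ≤ n →
    qbs (mcs j) (n + j) + 2 < 2 ^ n ∧ 2 * (qbs (mcs j) (n + j) : ℝ) * Φ.B ≤ md j * 2 ^ n}

/-- The beginning of stage `j`. The gambler of stage `j` bets on the words with the numbers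
`2 ^ nn Φ j, ..., 2 ^ (nn Φ j + j) - 1`. -/
noncomputable def nn (Φ : Par) : ℕ → ℕ
  | 0 => thr Φ 0
  | j + 1 => max (max (qbs (mcs j) (nn Φ j + j)) (nn Φ j + j) + 1) (thr Φ (j + 1))

/-- The coins of cost `m` are old for the first time at stage `jj Φ m`. -/
noncomputable def jj (Φ : Par) (m : ℕ) : ℕ := sInf {j | m < nn Φ j}

/-! ## Coins -/

/-- The number of a word. -/
noncomputable def ix (x : List Bool) : ℕ := Function.invFun str x

theorem ix_str (t : ℕ) : ix (str t) = t :=
  Function.leftInverse_invFun Pool.Agent.RelM.strinj t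

/-- The multiplier of a pair. -/
noncomputable def ml (Φ : Par) (κ : ℕ) (x : List Bool) : ℝ := Φ.mul κ (ix x % Φ.dm κ)

/-- The exponent of a coin. -/
noncomputable def ex (Φ : Par) (a : Idx) : ℝ :=
  Φ.lam a.2.2.2 * ml Φ a.1 a.2.1 / 2 ^ lev a.1 a.2.1

/-- The probability that a coin is `false`. -/
noncomputable def sv (Φ : Par) (a : Idx) : ℝ := Real.exp (-ex Φ a)

theorem sv_pos (Φ : Par) (a : Idx) : 0 < sv Φ a := Real.exp_pos _

theorem ex_nonneg (Φ : Par) (a : Idx) : 0 ≤ ex Φ a := by
  unfold ex ml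
  have h1 := Φ.lam0 a.2.2.2
  have h2 := Φ.mul0 a.1 (ix a.2.1 % Φ.dm a.1)
  positivity

theorem sv_le_one (Φ : Par) (a : Idx) : sv Φ a ≤ 1 :=
  Real.exp_le_one_iff.2 (by linarith [ex_nonneg Φ a])

/-- The measure of a coin. -/
noncomputable def cm (Φ : Par) (a : Idx) : Measure Bool := bern (sv Φ a)

instance (Φ : Par) (a : Idx) : IsProbabilityMeasure (cm Φ a) :=
  bern_prob (sv_pos Φ a).le (sv_le_one Φ a)

/-- Independent coins. -/
noncomputable def coin (Φ : Par) : Measure Om := Measure.infinitePi (cm Φ)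

instance (Φ : Par) : IsProbabilityMeasure (coin Φ) := by unfold coin; infer_instance

/-- The coins older than stage `j`. -/
def Old (Φ : Par) (j : ℕ) : Set Idx :=
  {a | lev a.1 a.2.1 < nn Φ j ∧ a.2.2.1.length = lev a.1 a.2.1 ∧ a.2.2.2 < Φ.K}

/-- The world of the sample `ω` with the options `o`. -/
noncomputable def zz (Φ : Par) (o : ℕ → ℕ) (ω : Om) : Z := fun κ x y =>
  ω (κ, x, y, o (jj Φ (lev κ x)))

/-! ## The supergales -/

/-- The probability given to the bit `b` when `true` has the probability `h`. -/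
noncomputable def qf (h : ℝ) (b : Bool) : ℝ := if b = true then h else 1 - h

/-- The probabilities of `true` that are used. -/
noncomputable def hv (Φ : Par) (η : ℕ → ℕ → ℝ) (j t : ℕ) : ℝ :=
  if 2 ^ nn Φ j ≤ t ∧ t < 2 ^ (nn Φ j + j) then max 0 (min 1 (η j t)) else 1 / 2

/-- The probability given to `w` at stage `j`. -/
noncomputable def Pw (Φ : Par) (η : ℕ → ℕ → ℝ) (j : ℕ) (w : List Bool) : ℝ :=
  ∏ t ∈ Finset.range w.length, qf (hv Φ η j t) (w.getD t false)

/-- The probability given to `w`. -/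
noncomputable def PP (Φ : Par) (η : ℕ → ℕ → ℝ) (w : List Bool) : ℝ :=
  ∑ j ∈ Finset.range w.length, (1 / 2 : ℝ) ^ (j + 1) * Pw Φ η j w +
    (1 / 2 : ℝ) ^ w.length * (1 / 2 : ℝ) ^ w.length

/-- The code of the parameter of the supergale number `k`. -/
def ee (k : ℕ) : ℕ × ℕ := Nat.unpair (padicValNat 2 (k + 1))

/-- The parameter of the supergale number `k`. -/
noncomputable def sK (Φ : Par) (k : ℕ) : ℝ :=
  min 2 (((ee k).1 : ℝ) * Φ.a + 1 / (((ee k).2 : ℝ) + 1))

/-- The supergale number `k`. -/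
noncomputable def dd (Φ : Par) (η : ℕ → ℕ → ℝ) (k : ℕ) (w : List Bool) : ℝ :=
  (1 / 2 : ℝ) ^ k * (2 : ℝ) ^ (sK Φ k * w.length) * PP Φ η w

/-- The numerator of the approximation. -/
noncomputable def num (Φ : Par) (η : ℕ → ℕ → ℝ) (k r : ℕ) (w : List Bool) : ℕ :=
  ⌊(2 : ℝ) ^ (r + 1) * dd Φ η k w⌋₊

open Classical in
/-- The bits of the numerators of the approximations. -/
noncomputable def bitsOf (Φ : Par) (η : ℕ → ℕ → ℝ) : Lang := fun u => decide (
  (∃ j k r w, u = hq false false j k r w ∧ j < Nat.size (num Φ η k r w)) ∨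
  (∃ j k r w, u = hq false true j k r w ∧ Nat.testBit (num Φ η k r w) j = true) ∨
  (∃ j k r w, u = hq true false j k r w ∧ j < r + 1))

/-! ## Options and probabilities -/

/-- Options and probabilities of the answers. -/
abbrev Hist : Type := (ℕ → ℕ) × (ℕ → ℕ → ℝ)

/-- The oracle of a history. -/
noncomputable def oh (Φ : Par) (h : Hist) (ω : Om) : Lang := orc (bitsOf Φ h.2) (zz Φ h.1 ω)

/-- The history with the option `i` for the coins that are new at stage `j`. -/
def seto (h : Hist) (j i : ℕ) : Hist := (Function.update h.1 (j + 1) i, h.2)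

/-- An odd number of the machines of stage `j` accept the word number `t`. -/
def ans (Φ : Par) (j : ℕ) (h : Hist) (ω : Om) (t : ℕ) : Prop := xacc (oh Φ h ω) (mcs j) (str t)

/-- The probability that the word number `t` is accepted with the option `i`, given the coins
older than stage `j`. -/
noncomputable def pa (Φ : Par) (j : ℕ) (h : Hist) (ω : Om) (t i : ℕ) : ℝ :=
  (coin Φ).real {τ | ans Φ j (seto h j i) (mixP (Old Φ j) ω τ) t}

/-- The words on which the gambler of stage `j` bets. -/
noncomputable def Wd (Φ : Par) (j : ℕ) : Finset ℕ := Finset.Ico (2 ^ nn Φ j) (2 ^ (nn Φ j + j))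

/-- The sum of the entropies of stage `j` with the option `i`. -/
noncomputable def He (Φ : Par) (j : ℕ) (h : Hist) (ω : Om) (i : ℕ) : ℝ :=
  ∑ t ∈ Wd Φ j, Real.binEntropy (pa Φ j h ω t i)

open Classical in
/-- The best option for stage `j`. -/
noncomputable def best (Φ : Par) (j : ℕ) (h : Hist) (ω : Om) : ℕ :=
  if hx : ∃ i < Φ.K, He Φ j h ω i ≤
      (((mcs j).length : ℝ) * Φ.a * Real.log 2 + 1 / ((j : ℝ) + 1)) * 2 ^ (nn Φ j + j) then
    hx.choose else 0

/-- The history after the stages before `j`. -/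
noncomputable def hs (Φ : Par) (ω : Om) : ℕ → Hist
  | 0 => (fun _ => 0, fun _ _ => 1 / 2)
  | j + 1 => (Function.update (hs Φ ω j).1 (j + 1) (best Φ j (hs Φ ω j) ω),
      Function.update (hs Φ ω j).2 j fun t => pa Φ j (hs Φ ω j) ω t (best Φ j (hs Φ ω j) ω))

/-- The options and the probabilities. -/
noncomputable def hf (Φ : Par) (ω : Om) : Hist :=
  (fun j => (hs Φ ω j).1 j, fun j => (hs Φ ω (j + 1)).2 j)

/-- The world. -/
noncomputable def zo (Φ : Par) (ω : Om) : Z := zz Φ (hf Φ ω).1 ω

/-- The oracle. -/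
noncomputable def oo (Φ : Par) (ω : Om) : Lang := oh Φ (hf Φ ω) ω

/-! ## Hiding -/

/-- The stage at which the coins of the pair κ, x become old. -/
noncomputable def bl (Φ : Par) (κ : ℕ) (x : List Bool) : ℕ := jj Φ (lev κ x)

/-- The pairs visible to a gambler who bets on the word number `t` of `Rl z κ`. -/
def SS (Φ : Par) (κ t : ℕ) : ℕ → List Bool → Prop := fun κ' x =>
  lev κ' x < nn Φ (bl Φ κ (str t)) ∧ ¬ (κ' = κ ∧ ∃ t', t ≤ t' ∧ x = str t')

/-- The oracle in which only these pairs are visible, and only the part `11` that can be read. -/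
noncomputable def ov (Φ : Par) (κ t : ℕ) (ω : Om) : Lang :=
  orcV (SS Φ κ t) (bitsOf Φ (hs Φ ω (bl Φ κ (str t))).2) (zz Φ (hs Φ ω (bl Φ κ (str t))).1 ω)

/-- The probability that the word number `t` has no key, given the visible coins. -/
noncomputable def rt (Φ : Par) (κ t : ℕ) (ω : Om) : ℝ :=
  Real.exp (-(Φ.lam ((hs Φ ω (bl Φ κ (str t))).1 (bl Φ κ (str t))) * Φ.mul κ (t % Φ.dm κ)))

end Pool.Agent.RelB
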