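import Pool.Agent.RelB.NN
import Pool.Agent.RelB.MEAS
import Pool.Agent.RelM.HIT
import Pool.Agent.RelM.LOC

/-!
# Finding a hidden key
-/

set_option autoImplicit false

namespace Pool.Agent.RelB

open MeasureTheory Set
open scoped ENNReal
open Pool.Agent.RelT (Par Fast)
open Pool.Agent.RelM (Lang Instr Cfg step run Halts pair str pre wq sq0 sq1 Asks hq)
open Pool.Agent.RelO (lev levmono)
open Pool.Agent.RelS (Z Rl orcV orc Idx Om Dep mixP fd meas_of_dep ovis ocut bern)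

namespace HIT_

/-- Hidden pairs are expensive. -/
lemma hidden_ge (Φ : Par) (κ t : ℕ) {κ' : ℕ} {x' : List Bool}
    (h : ¬ SS Φ κ t κ' x') : lev κ (str t) ≤ lev κ' x' := by
  by_cases h1 : lev κ' x' < nn Φ (bl Φ κ (str t))
  · have h2 : κ' = κ ∧ ∃ t', t ≤ t' ∧ x' = str t' := by
      by_contra h3
      exact h ⟨h1, h3⟩
    obtain ⟨rfl, t', ht, rfl⟩ := h2
    refine levmono _ _ _ ?_
    rw [Pool.Agent.RelM.strlen, Pool.Agent.RelM.strlen]
    exact Nat.log_mono_right (by omega)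
  · have := (jjspec Φ (lev κ (str t))).1
    unfold bl at h1
    omega

/-- The stage of a cost. -/
lemma stage (Φ : Par) {m l : ℕ} (h0 : nn Φ 0 ≤ m) (hl : m ≤ l) :
    ∃ i, nn Φ i ≤ l ∧ l < nn Φ (i + 1) ∧ jj Φ m ≤ i + 1 := by
  obtain ⟨h1, h2⟩ := jjspec Φ l
  have hpos : jj Φ l ≠ 0 := by
    intro h
    rw [h] at h1
    omega
  refine ⟨jj Φ l - 1, h2 _ (by omega), ?_, ?_⟩
  · rw [show jj Φ l - 1 + 1 = jj Φ l by omega]
    exact h1
  · by_contra h3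
    have := (jjspec Φ m).2 (jj Φ l) (by omega)
    omega

lemma bl_succ (Φ : Par) (κ t : ℕ) (h0 : nn Φ 0 ≤ lev κ (str t)) :
    ∃ J, bl Φ κ (str t) = J + 1 ∧ nn Φ J ≤ lev κ (str t) ∧ lev κ (str t) < nn Φ (J + 1) := by
  obtain ⟨i, h1, h2, _⟩ := stage Φ h0 le_rfl
  exact ⟨i, jj_eq h1 h2, h1, h2⟩

/-- The coins of the pair κ, x. -/
def pc (κ : ℕ) (x : List Bool) : Set Idx := {a | a.1 = κ ∧ a.2.1 = x}

/-- The hidden oracle depends only on the visible coins. -/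
lemma ov_dep (Φ : Par) (κ t : ℕ) (h0 : nn Φ 0 ≤ lev κ (str t)) {ω ω' : Om}
    (h : ∀ a ∈ Vis Φ κ t, ω a = ω' a) : ov Φ κ t ω = ov Φ κ t ω' := by
  obtain ⟨J, hJ, hJ1, hJ2⟩ := bl_succ Φ κ t h0
  have hh : hs Φ ω (J + 1) = hs Φ ω' (J + 1) := by
    refine hsdep Φ J ω ω' fun a ha => h a ⟨?_, ?_⟩
    · rw [hJ]
      exact old_mono Φ (Nat.le_succ J) ha
    · rintro ⟨h1, t', ht', h2⟩
      have h3 : lev a.1 a.2.1 < nn Φ J := ha.1
      rw [h1, h2] at h3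
      have h4 : lev κ (str t) ≤ lev κ (str t') := by
        refine levmono _ _ _ ?_
        rw [Pool.Agent.RelM.strlen, Pool.Agent.RelM.strlen]
        exact Nat.log_mono_right (by omega)
      omega
  funext q
  unfold ov
  rw [hJ, hh]
  refine ovis _ _ _ _ (fun κ₁ x₁ y₁ hs₁ hy₁ => ?_) q
  unfold zz
  refine h _ ⟨⟨hs₁.1, hy₁, ?_⟩, ?_⟩
  · exact opt Φ ω' (J + 1) _
  · rintro ⟨h1, t', ht', h2⟩
    exact hs₁.2 ⟨h1, t', ht', h2⟩

/-- The event that `wq κ' x' y` with a hidden pair is asked at step `s`. -/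
def A (Φ : Par) (κ t : ℕ) (Pr : List Instr) (X : Om → List Bool) (s : ℕ)
    (i : ℕ × List Bool × List Bool) : Set Om :=
  {ω | ¬ SS Φ κ t i.1 i.2.1 ∧ Asks (ov Φ κ t ω) Pr (X ω) s (wq i.1 i.2.1 i.2.2)}

lemma visfin (Φ : Par) (κ t : ℕ) : (Vis Φ κ t).Finite :=
  (oldfin Φ _).subset fun _ h => h.1

lemma A_iff (Φ : Par) (κ t : ℕ) (h0 : nn Φ 0 ≤ lev κ (str t)) {Pr : List Instr}
    {X : Om → List Bool} (hX : Dep (Vis Φ κ t) X) (s : ℕ) (i : ℕ × List Bool × List Bool)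
    {ω ω' : Om} (h : ∀ a ∈ Vis Φ κ t, ω a = ω' a) :
    ω ∈ A Φ κ t Pr X s i ↔ ω' ∈ A Φ κ t Pr X s i := by
  show (_ ∧ Asks (ov Φ κ t ω) Pr (X ω) s _) ↔ (_ ∧ Asks (ov Φ κ t ω') Pr (X ω') s _)
  rw [ov_dep Φ κ t h0 h, hX ω ω' h]

lemma A_meas (Φ : Par) (κ t : ℕ) (h0 : nn Φ 0 ≤ lev κ (str t)) {Pr : List Instr}
    {X : Om → List Bool} (hX : Dep (Vis Φ κ t) X) (s : ℕ) (i : ℕ × List Bool × List Bool) :
    MeasurableSet (A Φ κ t Pr X s i) :=
  fd (visfin Φ κ t) fun _ _ h => A_iff Φ κ t h0 hX s i h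

/-- The coins of a hidden pair are not visible. -/
lemma hidden_notMem (Φ : Par) (κ t : ℕ) {κ' : ℕ} {x' : List Bool} (hS : ¬ SS Φ κ t κ' x')
    {a : Idx} (ha : a ∈ Vis Φ κ t) : a ∉ pc κ' x' := by
  rintro ⟨h1, h2⟩
  apply hS
  rw [← h1, ← h2]
  exact ⟨ha.1.1, fun h => ha.2 h⟩

lemma one_sub_sv_le (Φ : Par) {κ' : ℕ} {x' y : List Bool} {o m : ℕ} (ho : o < Φ.K)
    (hm0 : nn Φ 0 ≤ m) (hm : m ≤ lev κ' x') :
    ENNReal.ofReal (1 - sv Φ (κ', x', y, o)) ≤ (2⁻¹ : ℝ≥0∞) ^ (m / 2) := by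
  have h1 : 1 - sv Φ (κ', x', y, o) ≤ ex Φ (κ', x', y, o) := by
    unfold sv
    have := Real.add_one_le_exp (-ex Φ (κ', x', y, o))
    linarith
  have h2 : ex Φ (κ', x', y, o) ≤ (Φ.B : ℝ) / 2 ^ lev κ' x' := by
    unfold ex ml
    exact div_le_div_of_nonneg_right (Φ.bd o κ' _ ho) (by positivity)
  have h3 : (Φ.B : ℝ) / 2 ^ lev κ' x' ≤ (2⁻¹ : ℝ) ^ (m / 2) := by
    have h4 := nnb Φ 0
    have h5 : (Φ.B : ℝ) * 2 ^ (m / 2) ≤ 2 ^ lev κ' x' := by
      have h6 : Φ.B * 2 ^ (m / 2) ≤ 2 ^ lev κ' x' := by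
        calc Φ.B * 2 ^ (m / 2) ≤ 2 ^ Φ.B * 2 ^ (m / 2) :=
              Nat.mul_le_mul_right _ Nat.lt_two_pow_self.le
          _ = 2 ^ (Φ.B + m / 2) := (pow_add _ _ _).symm
          _ ≤ 2 ^ lev κ' x' := Nat.pow_le_pow_right (by norm_num) (by omega)
      exact_mod_cast h6
    rw [div_le_iff₀ (by positivity)]
    have h7 : (2⁻¹ : ℝ) ^ (m / 2) * 2 ^ (m / 2) = 1 := by
      rw [← mul_pow]; norm_num
    have h8 : (Φ.B : ℝ) = (2⁻¹ : ℝ) ^ (m / 2) * (Φ.B * 2 ^ (m / 2)) := by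
      calc (Φ.B : ℝ) = Φ.B * ((2⁻¹ : ℝ) ^ (m / 2) * 2 ^ (m / 2)) := by rw [h7, mul_one]
        _ = _ := by ring
    rw [h8]
    exact mul_le_mul_of_nonneg_left h5 (by positivity)
  calc ENNReal.ofReal (1 - sv Φ (κ', x', y, o)) ≤ ENNReal.ofReal ((2⁻¹ : ℝ) ^ (m / 2)) :=
        ENNReal.ofReal_le_ofReal ((h1.trans h2).trans h3)
    _ = (2⁻¹ : ℝ≥0∞) ^ (m / 2) := by
        rw [ENNReal.ofReal_pow (by norm_num), ENNReal.ofReal_inv_of_pos (by norm_num)]
        norm_num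

/-- A hidden key is hit with small probability. -/
lemma hit_one (Φ : Par) (κ t : ℕ) (h0 : nn Φ 0 ≤ lev κ (str t)) {Pr : List Instr}
    {X : Om → List Bool} (hX : Dep (Vis Φ κ t) X) (s : ℕ) (i : ℕ × List Bool × List Bool) :
    coin Φ (A Φ κ t Pr X s i ∩ {ω | zo Φ ω i.1 i.2.1 i.2.2 = true}) ≤
      (2⁻¹ : ℝ≥0∞) ^ (lev κ (str t) / 2) * coin Φ (A Φ κ t Pr X s i) := by
  obtain ⟨κ', x', y⟩ := i
  by_cases hS : SS Φ κ t κ' x'
  · have : A Φ κ t Pr X s (κ', x', y) = ∅ := by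
      ext ω
      constructor
      · intro h
        exact (h.1 hS).elim
      · intro h
        exact h.elim
    rw [this]
    simp
  have hge := hidden_ge Φ κ t hS
  obtain ⟨i, h1, h2, h3⟩ := stage Φ h0 hge
  have hjj : jj Φ (lev κ' x') = i + 1 := jj_eq h1 h2
  -- the option of the pair
  let O : Om → ℕ := fun ω => (hs Φ ω (i + 1)).1 (i + 1)
  have hO : ∀ ω, (hf Φ ω).1 (i + 1) = O ω := fun ω => rfl
  have hOd : Dep (Old Φ i) O := by
    intro ω ω' h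
    show (hs Φ ω (i + 1)).1 (i + 1) = (hs Φ ω' (i + 1)).1 (i + 1)
    rw [hsdep Φ i ω ω' h]
  have hOK : ∀ ω, O ω < Φ.K := fun ω => opt Φ ω (i + 1) (i + 1)
  let B : ℕ → Set Om := fun o => A Φ κ t Pr X s (κ', x', y) ∩ {ω | O ω = o}
  have hAm := A_meas Φ κ t h0 (Pr := Pr) hX s (κ', x', y)
  have hOm : Measurable O := meas_of_dep (oldfin Φ i) hOd
  have hBm : ∀ o, MeasurableSet (B o) := fun o => hAm.inter (hOm (measurableSet_singleton o))
  have hBd : ∀ o, Dep (pc κ' x')ᶜ ((B o).indicator (1 : Om → ℝ≥0∞)) := by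
    intro o ω ω' h
    have hA : ω ∈ A Φ κ t Pr X s (κ', x', y) ↔ ω' ∈ A Φ κ t Pr X s (κ', x', y) :=
      A_iff Φ κ t h0 hX s _ fun a ha => h a (hidden_notMem Φ κ t hS ha)
    have hO' : O ω = O ω' := by
      refine hOd ω ω' fun a ha => h a ?_
      rintro ⟨e1, e2⟩
      have : lev a.1 a.2.1 < nn Φ i := ha.1
      rw [e1, e2] at this
      omega
    have hB : ω ∈ B o ↔ ω' ∈ B o := by
      show (_ ∧ O ω = o) ↔ (_ ∧ O ω' = o)
      rw [hA, hO']
    by_cases hω : ω ∈ B o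
    · rw [Set.indicator_of_mem hω, Set.indicator_of_mem (hB.1 hω)]
      rfl
    · rw [Set.indicator_of_notMem hω, Set.indicator_of_notMem fun h => hω (hB.2 h)]
  have hCm : ∀ o, MeasurableSet {ω : Om | ω (κ', x', y, o) = true} := fun o =>
    fd (Set.finite_singleton ((κ', x', y, o) : Idx)) fun ω ω' h => by
      show ω (κ', x', y, o) = true ↔ ω' (κ', x', y, o) = true
      rw [h _ rfl]
  have hCd : ∀ o, Dep (pc κ' x') (({ω : Om | ω (κ', x', y, o) = true}).indicator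
      (1 : Om → ℝ≥0∞)) := by
    intro o ω ω' h
    have : ω (κ', x', y, o) = ω' (κ', x', y, o) := h _ ⟨rfl, rfl⟩
    by_cases hω : ω (κ', x', y, o) = true
    · rw [Set.indicator_of_mem (show ω ∈ {ω : Om | ω (κ', x', y, o) = true} from hω),
        Set.indicator_of_mem
          (show ω' ∈ {ω : Om | ω (κ', x', y, o) = true} from this.symm.trans hω)]
      rfl
    · rw [Set.indicator_of_notMem (show ω ∉ {ω : Om | ω (κ', x', y, o) = true} from hω),
        Set.indicator_of_notMem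
          (show ω' ∉ {ω : Om | ω (κ', x', y, o) = true} from fun h' => hω (this.trans h'))]
  have hsub : A Φ κ t Pr X s (κ', x', y) ∩ {ω | zo Φ ω κ' x' y = true} ⊆
      ⋃ o ∈ Finset.range Φ.K, (B o ∩ {ω : Om | ω (κ', x', y, o) = true}) := by
    rintro ω ⟨hA, hz⟩
    simp only [Set.mem_iUnion, Finset.mem_range]
    refine ⟨O ω, hOK ω, ⟨hA, rfl⟩, ?_⟩
    have hz' : ω (κ', x', y, (hf Φ ω).1 (jj Φ (lev κ' x'))) = true := hz
    rw [hjj] at hz'
    exact hz'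
  calc coin Φ (A Φ κ t Pr X s (κ', x', y) ∩ {ω | zo Φ ω κ' x' y = true})
      ≤ coin Φ (⋃ o ∈ Finset.range Φ.K, (B o ∩ {ω : Om | ω (κ', x', y, o) = true})) :=
        measure_mono hsub
    _ ≤ ∑ o ∈ Finset.range Φ.K, coin Φ (B o ∩ {ω : Om | ω (κ', x', y, o) = true}) :=
        measure_biUnion_finset_le _ _
    _ ≤ ∑ o ∈ Finset.range Φ.K, (2⁻¹ : ℝ≥0∞) ^ (lev κ (str t) / 2) * coin Φ (B o) := by
        refine Finset.sum_le_sum fun o ho => ?_
        have hi := indep Φ (p := pc κ' x')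
          (F := ({ω : Om | ω (κ', x', y, o) = true}).indicator 1) (G := (B o).indicator 1)
          (measurable_one.indicator (hCm o)) (measurable_one.indicator (hBm o)) (hCd o) (hBd o)
        rw [lintegral_indicator_one (hCm o), lintegral_indicator_one (hBm o), coin_true] at hi
        have hmul : ∀ ω : Om, ({ω : Om | ω (κ', x', y, o) = true}).indicator (1 : Om → ℝ≥0∞) ω *
            (B o).indicator 1 ω =
            (B o ∩ {ω : Om | ω (κ', x', y, o) = true}).indicator 1 ω := by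
          intro ω
          by_cases ha : ω ∈ B o <;> by_cases hb : ω (κ', x', y, o) = true <;>
            simp [Set.indicator, ha, hb]
        simp only [hmul] at hi
        rw [lintegral_indicator_one ((hBm o).inter (hCm o))] at hi
        rw [hi]
        gcongr
        exact one_sub_sv_le Φ (Finset.mem_range.1 ho) h0 hge
    _ = (2⁻¹ : ℝ≥0∞) ^ (lev κ (str t) / 2) * ∑ o ∈ Finset.range Φ.K, coin Φ (B o) := by
        rw [Finset.mul_sum]
    _ ≤ (2⁻¹ : ℝ≥0∞) ^ (lev κ (str t) / 2) * coin Φ (A Φ κ t Pr X s (κ', x', y)) := by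
        gcongr
        rw [← measure_biUnion_finset]
        · refine measure_mono ?_
          intro ω hω
          simp only [Set.mem_iUnion] at hω
          obtain ⟨o, _, hω⟩ := hω
          exact hω.1
        · intro o _ o' _ hne
          rw [Function.onFun, Set.disjoint_left]
          rintro ω ⟨_, e1⟩ ⟨_, e2⟩
          have e1' : O ω = o := e1
          have e2' : O ω = o' := e2
          exact hne (e1'.symm.trans e2')
        · exact fun o _ => hBm o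

end HIT_

open HIT_ in
/-- Finding a hidden key. -/
theorem hit (bloc : T_BLOC) : T_HIT := by
  intro Φ κ t Pr X τ hm0 hXd hXl
  set m := lev κ (str t) with hm
  -- the events that a hidden key is asked
  have hsub : {ω | ∃ s ≤ τ, run (oo Φ ω) Pr (X ω) s ≠ run (ov Φ κ t ω) Pr (X ω) s} ⊆
      ⋃ s ∈ Finset.range τ, ⋃ i : ℕ × List Bool × List Bool,
        (A Φ κ t Pr X s i ∩ {ω | zo Φ ω i.1 i.2.1 i.2.2 = true}) := by
    intro ω hω
    by_contra hcon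
    simp only [Set.mem_iUnion, Finset.mem_range, not_exists, exists_prop, not_and] at hcon
    obtain ⟨s, hsτ, hne⟩ := hω
    apply hne
    refine Pool.Agent.RelM.loc _ _ Pr (X ω) τ (fun s' hs' q hq => ?_) s hsτ
    by_contra hne'
    have hlen := Pool.Agent.RelM.len _ _ _ _ _ hq
    have hXl' := hXl ω
    have hz : ∀ κ₁ x₁ y₁, SS Φ κ t κ₁ x₁ → y₁.length = lev κ₁ x₁ →
        zz Φ (hf Φ ω).1 ω κ₁ x₁ y₁ = zz Φ (hs Φ ω (bl Φ κ (str t))).1 ω κ₁ x₁ y₁ := by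
      intro κ₁ x₁ y₁ hS _
      unfold zz
      rw [(hsval Φ ω (bl Φ κ (str t))).1 (jj Φ (lev κ₁ x₁)) ?_]
      by_contra hlt
      have h5 := (jjspec Φ (lev κ₁ x₁)).2 (bl Φ κ (str t)) (by omega)
      have := hS.1
      omega
    rcases ocut (SS Φ κ t) (bitsOf Φ (hf Φ ω).2) (bitsOf Φ (hs Φ ω (bl Φ κ (str t))).2)
      (zz Φ (hf Φ ω).1 ω) (zz Φ (hs Φ ω (bl Φ κ (str t))).1 ω) hz q
      (fun h => hne' h.symm) with
      ⟨κ', x', y', hS, hy', hq', hz'⟩ | ⟨κ', x', m', hS, hq', hm'⟩ | ⟨u, hq', hu⟩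
    · refine hcon s' hs' (κ', x', y') ⟨⟨hS, ?_⟩, hz'⟩
      rw [← hq']
      exact hq
    · have h2 := Pool.Agent.RelM.HitJob.le_length_sq1 κ' x' m'
      rw [← hq'] at h2
      have h4 : 2 ^ m ≤ 2 ^ lev κ' x' :=
        Nat.pow_le_pow_right (by norm_num) (hidden_ge Φ κ t hS)
      omega
    · apply hu
      refine bloc Φ _ _ u fun j hj => ?_
      have h5 : j < bl Φ κ (str t) := by
        by_contra h6
        have h7 : nn Φ (bl Φ κ (str t)) ≤ nn Φ j := (nnmono Φ).monotone (by omega)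
        have h10 : m < nn Φ (bl Φ κ (str t)) := (jjspec Φ m).1
        have h8 : 2 ^ m ≤ 2 ^ nn Φ j := Nat.pow_le_pow_right (by norm_num) (by omega)
        have h9 : q.length = u.length + 2 := by rw [hq']; simp
        omega
      exact ((hsval Φ ω (bl Φ κ (str t))).2 j h5).symm
  have hdisj : ∀ s, Pairwise (Function.onFun Disjoint (A Φ κ t Pr X s)) := by
    intro s i j hij
    rw [Function.onFun, Set.disjoint_left]
    rintro ω ⟨_, h1⟩ ⟨_, h2⟩
    apply hij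
    obtain ⟨e1, e2, e3⟩ := Pool.Agent.RelM.HitJob.wq_inj' (Pool.Agent.RelM.one _ _ _ _ _ _ h1 h2)
    exact Prod.ext e1 (Prod.ext e2 e3)
  calc coin Φ {ω | ∃ s ≤ τ, run (oo Φ ω) Pr (X ω) s ≠ run (ov Φ κ t ω) Pr (X ω) s}
      ≤ coin Φ (⋃ s ∈ Finset.range τ, ⋃ i : ℕ × List Bool × List Bool,
        (A Φ κ t Pr X s i ∩ {ω | zo Φ ω i.1 i.2.1 i.2.2 = true})) := measure_mono hsub
    _ ≤ ∑ s ∈ Finset.range τ, coin Φ (⋃ i : ℕ × List Bool × List Bool,
        (A Φ κ t Pr X s i ∩ {ω | zo Φ ω i.1 i.2.1 i.2.2 = true})) :=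
        measure_biUnion_finset_le _ _
    _ ≤ ∑ _s ∈ Finset.range τ, (2⁻¹ : ℝ≥0∞) ^ (m / 2) := by
        refine Finset.sum_le_sum fun s _ => ?_
        calc coin Φ (⋃ i : ℕ × List Bool × List Bool,
              (A Φ κ t Pr X s i ∩ {ω | zo Φ ω i.1 i.2.1 i.2.2 = true}))
            ≤ ∑' i : ℕ × List Bool × List Bool,
              coin Φ (A Φ κ t Pr X s i ∩ {ω | zo Φ ω i.1 i.2.1 i.2.2 = true}) :=
              measure_iUnion_le _
          _ ≤ ∑' i, (2⁻¹ : ℝ≥0∞) ^ (m / 2) * coin Φ (A Φ κ t Pr X s i) :=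
              ENNReal.tsum_le_tsum fun i => hit_one Φ κ t hm0 hXd s i
          _ = (2⁻¹ : ℝ≥0∞) ^ (m / 2) * coin Φ (⋃ i, A Φ κ t Pr X s i) := by
              rw [ENNReal.tsum_mul_left, measure_iUnion (hdisj s) fun i =>
                A_meas Φ κ t hm0 hXd s i]
          _ ≤ (2⁻¹ : ℝ≥0∞) ^ (m / 2) * 1 := by
              gcongr
              exact prob_le_one
          _ = (2⁻¹ : ℝ≥0∞) ^ (m / 2) := mul_one _
    _ = τ * (2⁻¹ : ℝ≥0∞) ^ (m / 2) := by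
        rw [Finset.sum_const, Finset.card_range, nsmul_eq_mul]

end Pool.Agent.RelB
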