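import Pool.Agent.RelB.STGT

/-!
# The gambler succeeds infinitely often
-/

set_option autoImplicit false

namespace Pool.Agent.RelB

open MeasureTheory Set
open scoped ENNReal
open Pool.Agent.RelT (Par Fast)
open Pool.Agent.RelM (Lang Instr Cfg run Halts pair triple str pre hq wq sq0 sq1 Asks code qb)
open Pool.Agent.RelO (lev st)
open Pool.Agent.RelS (Z Rl orcV orc acc Idx Om Dep mixP gf PF Low fd meas_of_dep mixP_pos
  mixP_neg mixP_meas)

/-- The history of stage `j`. -/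
noncomputable def hb (Φ : Par) (j : ℕ) (ω : Om) : Hist :=
  seto (hs Φ ω j) j (best Φ j (hs Φ ω j) ω)

/-- The probability of acceptance used at stage `j`. -/
noncomputable def pp (Φ : Par) (j t : ℕ) (ω : Om) : ℝ :=
  pa Φ j (hs Φ ω j) ω t (best Φ j (hs Φ ω j) ω)

theorem pp_eq (Φ : Par) (j t : ℕ) (ω : Om) : (hf Φ ω).2 j t = pp Φ j t ω := by
  show (hs Φ ω (j + 1)).2 j t = _
  rw [hs_succ]
  show (Function.update (hs Φ ω j).2 j
    (fun t => pa Φ j (hs Φ ω j) ω t (best Φ j (hs Φ ω j) ω))) j t = _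
  rw [Function.update_self]
  rfl

theorem pp0 (Φ : Par) (j t : ℕ) (ω : Om) : 0 ≤ pp Φ j t ω := by
  unfold pp pa
  exact measureReal_nonneg

theorem pp1 (Φ : Par) (j t : ℕ) (ω : Om) : pp Φ j t ω ≤ 1 := by
  unfold pp pa
  exact measureReal_le_one

theorem hf1_lt (Φ : Par) (ω : Om) (i : ℕ) : (hf Φ ω).1 i < Φ.K := opt Φ ω i i

theorem hb_lt (Φ : Par) (j : ℕ) (ω : Om) (i : ℕ) : (hb Φ j ω).1 i < Φ.K := by
  show Function.update (hs Φ ω j).1 (j + 1) (best Φ j (hs Φ ω j) ω) i < Φ.K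
  by_cases h : i = j + 1
  · subst h
    rw [Function.update_self]
    exact best_lt _ _ _ _
  · rw [Function.update_of_ne h]
    exact opt Φ ω j i

/-- The machine of stage `j` accepts the word number `t` in the end. -/
def Tr (Φ : Par) (j t : ℕ) (ω : Om) : Prop := xacc (oo Φ ω) (mcs j) (str t)

/-- The answers do not change after stage `j`. -/
theorem truth_iff {Φ : Par} {j : ℕ} (ω : Om) {t : ℕ} (ht : t ∈ Wd Φ j) :
    Tr Φ j t ω ↔ ans Φ j (hb Φ j ω) ω t := by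
  refine accl Φ j t (hf Φ ω) (hb Φ j ω) ω ω ht (fun i hi => ?_) (fun i _ => hf1_lt Φ ω i)
    (fun i hi => ?_) fun _ _ => rfl
  · exact ((hsval Φ ω (j + 1)).1 i hi).symm
  · exact ((hsval Φ ω j).2 i hi).symm

theorem hs_congr {Φ : Par} {j : ℕ} {ω ω' : Om} (h : ∀ a ∈ Old Φ j, ω a = ω' a) :
    hs Φ ω j = hs Φ ω' j := by
  cases j with
  | zero => rfl
  | succ j => exact hsdep Φ j ω ω' fun a ha => h a (old_mono Φ (Nat.le_succ j) ha)

theorem hb_congr {Φ : Par} {j : ℕ} {ω ω' : Om} (h : ∀ a ∈ Old Φ j, ω a = ω' a) :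
    hb Φ j ω = hb Φ j ω' := by
  unfold hb
  rw [hs_congr h, best_congr h]

theorem pp_congr {Φ : Par} {j t : ℕ} {ω ω' : Om} (h : ∀ a ∈ Old Φ j, ω a = ω' a) :
    pp Φ j t ω = pp Φ j t ω' := by
  unfold pp
  rw [hs_congr h, best_congr h, pa_congr h]

theorem tr_dep {Φ : Par} {j : ℕ} {ω ω' : Om} {t : ℕ} (ht : t ∈ Wd Φ j)
    (hw : ∀ a ∈ Old Φ (j + 1), ω a = ω' a) : Tr Φ j t ω ↔ Tr Φ j t ω' := by
  rw [truth_iff ω ht, truth_iff ω' ht,
    hb_congr fun a ha => hw a (old_mono Φ (Nat.le_succ j) ha)]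
  exact accl Φ j t _ _ ω ω' ht (fun _ _ => rfl) (fun i _ => hb_lt Φ j ω' i) (fun _ _ => rfl) hw

open Classical in
/-- The probability given to the answer on the word number `t`. -/
noncomputable def ql (Φ : Par) (j t : ℕ) (ω : Om) : ℝ := qf (pp Φ j t ω) (decide (Tr Φ j t ω))

theorem ql_dep {Φ : Par} {j : ℕ} {ω ω' : Om} {t : ℕ} (ht : t ∈ Wd Φ j)
    (hw : ∀ a ∈ Old Φ (j + 1), ω a = ω' a) : ql Φ j t ω = ql Φ j t ω' := by
  unfold ql
  rw [pp_congr fun a ha => hw a (old_mono Φ (Nat.le_succ j) ha),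
    decide_eq_decide.2 (tr_dep ht hw)]

theorem ql0 (Φ : Par) (j t : ℕ) (ω : Om) : 0 ≤ ql Φ j t ω :=
  qf_nonneg (pp0 Φ j t ω) (pp1 Φ j t ω) _

theorem ql1 (Φ : Par) (j t : ℕ) (ω : Om) : ql Φ j t ω ≤ 1 := by
  unfold ql qf
  have h0 := pp0 Φ j t ω
  have h1 := pp1 Φ j t ω
  split_ifs <;> linarith

/-- The loss of stage `j`. -/
noncomputable def loss (Φ : Par) (j : ℕ) (ω : Om) : ℝ := ∑ t ∈ Wd Φ j, -Real.log (ql Φ j t ω)

/-- Stage `j` fails. -/
def fail (Φ : Par) (δ : ℝ) (j : ℕ) : Set Om :=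
  {ω | (((mcs j).length : ℝ) * Φ.a * Real.log 2 + δ) * 2 ^ (nn Φ j + j) ≤ loss Φ j ω ∨ ∃ t ∈ Wd Φ j, ql Φ j t ω = 0}

theorem fail_dep {Φ : Par} {δ : ℝ} {j : ℕ} {ω ω' : Om} (hw : ∀ a ∈ Old Φ (j + 1), ω a = ω' a) :
    ω ∈ fail Φ δ j ↔ ω' ∈ fail Φ δ j := by
  have h1 : loss Φ j ω = loss Φ j ω' := by
    unfold loss
    refine Finset.sum_congr rfl fun t ht => ?_
    rw [ql_dep ht hw]
  unfold fail
  simp only [Set.mem_ofPred_eq]
  rw [h1]
  refine or_congr Iff.rfl ?_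
  refine exists_congr fun t => and_congr_right fun ht => ?_
  rw [ql_dep ht hw]

theorem fail_meas (Φ : Par) (δ : ℝ) (j : ℕ) : MeasurableSet (fail Φ δ j) :=
  fd (oldfin Φ (j + 1)) fun _ _ h => fail_dep h

/-- The conditional law of an answer. -/
theorem tr_prob {Φ : Par} {j t : ℕ} (ht : t ∈ Wd Φ j) (ω : Om) :
    MeasurableSet {τ | Tr Φ j t (mixP (Old Φ j) ω τ)} ∧
    (coin Φ).real {τ | Tr Φ j t (mixP (Old Φ j) ω τ)} = pp Φ j t ω := by
  have h0 : ∀ τ, ∀ a ∈ Old Φ j, mixP (Old Φ j) ω τ a = ω a := fun τ a ha => mixP_pos ha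
  constructor
  · refine fd (oldfin Φ (j + 1)) fun τ τ' h => ?_
    refine tr_dep ht fun a ha => ?_
    by_cases h3 : a ∈ Old Φ j
    · rw [mixP_pos h3, mixP_pos h3]
    · rw [mixP_neg h3, mixP_neg h3]
      exact h a ha
  · have h1 : {τ | Tr Φ j t (mixP (Old Φ j) ω τ)} =
        {τ | ans Φ j (hb Φ j ω) (mixP (Old Φ j) ω τ) t} := by
      ext τ
      show Tr Φ j t (mixP (Old Φ j) ω τ) ↔ _
      rw [truth_iff _ ht, hb_congr (h0 τ)]
      rfl
    rw [h1]
    rfl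

open Classical in
/-- The mean of a function of an answer. -/
theorem tr_lint {Φ : Par} {j t : ℕ} (ht : t ∈ Wd Φ j) (ω : Om) (f : Bool → ℝ≥0∞) :
    ∫⁻ τ, f (decide (Tr Φ j t (mixP (Old Φ j) ω τ))) ∂(coin Φ) =
      f true * ENNReal.ofReal (pp Φ j t ω) + f false * ENNReal.ofReal (1 - pp Φ j t ω) := by
  obtain ⟨hm, hp⟩ := tr_prob ht ω
  obtain ⟨S, hS⟩ : ∃ S, S = {τ | Tr Φ j t (mixP (Old Φ j) ω τ)} := ⟨_, rfl⟩
  rw [← hS] at hm hp
  have h1 : ∀ τ, f (decide (Tr Φ j t (mixP (Old Φ j) ω τ))) =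
      f true * S.indicator 1 τ + f false * Sᶜ.indicator 1 τ := by
    intro τ
    by_cases h : τ ∈ S
    · have h' : Tr Φ j t (mixP (Old Φ j) ω τ) := by rw [hS] at h; exact h
      rw [indicator_of_mem h, indicator_of_notMem (by simpa using h)]
      simp [h']
    · have h' : ¬ Tr Φ j t (mixP (Old Φ j) ω τ) := by rw [hS] at h; exact h
      rw [indicator_of_notMem h, indicator_of_mem (by simpa using h)]
      simp [h']
  simp only [h1]
  rw [lintegral_add_left ((measurable_one.indicator hm).const_mul _),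
    lintegral_const_mul _ (measurable_one.indicator hm),
    lintegral_const_mul _ (measurable_one.indicator hm.compl),
    lintegral_indicator_one hm, lintegral_indicator_one hm.compl]
  have h2 : coin Φ S = ENNReal.ofReal (pp Φ j t ω) := by
    rw [← hp, Measure.real, ENNReal.ofReal_toReal (measure_ne_top _ _)]
  have h3 : coin Φ Sᶜ = ENNReal.ofReal (1 - pp Φ j t ω) := by
    rw [← hp, ← probReal_compl_eq_one_sub hm, Measure.real,
      ENNReal.ofReal_toReal (measure_ne_top _ _)]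
  rw [h2, h3]

/-- The mean loss. -/
theorem loss_lint {Φ : Par} {j t : ℕ} (ht : t ∈ Wd Φ j) (ω : Om) :
    ∫⁻ τ, ENNReal.ofReal (-Real.log (ql Φ j t (mixP (Old Φ j) ω τ))) ∂(coin Φ) =
      ENNReal.ofReal (Real.binEntropy (pp Φ j t ω)) := by
  classical
  have h0 : ∀ τ, pp Φ j t (mixP (Old Φ j) ω τ) = pp Φ j t ω := fun τ =>
    pp_congr fun a ha => mixP_pos ha
  have h1 : ∀ τ, ENNReal.ofReal (-Real.log (ql Φ j t (mixP (Old Φ j) ω τ))) =
      (fun b : Bool => ENNReal.ofReal (-Real.log (qf (pp Φ j t ω) b)))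
        (decide (Tr Φ j t (mixP (Old Φ j) ω τ))) := by
    intro τ
    show ENNReal.ofReal (-Real.log (ql Φ j t (mixP (Old Φ j) ω τ))) =
      ENNReal.ofReal (-Real.log (qf (pp Φ j t ω) (decide (Tr Φ j t (mixP (Old Φ j) ω τ)))))
    unfold ql
    rw [h0]
  simp only [h1]
  refine (tr_lint ht ω fun b => ENNReal.ofReal (-Real.log (qf (pp Φ j t ω) b))).trans ?_
  have hp0 := pp0 Φ j t ω
  have hp1 := pp1 Φ j t ω
  generalize pp Φ j t ω = p at hp0 hp1
  have e1 : qf p true = p := by simp [qf]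
  have e2 : qf p false = 1 - p := by simp [qf]
  have l1 : 0 ≤ -Real.log p := by
    have := Real.log_nonpos hp0 hp1
    linarith
  have l2 : 0 ≤ -Real.log (1 - p) := by
    have := Real.log_nonpos (x := 1 - p) (by linarith) (by linarith)
    linarith
  rw [e1, e2, ← ENNReal.ofReal_mul l1, ← ENNReal.ofReal_mul l2,
    ← ENNReal.ofReal_add (mul_nonneg l1 hp0) (mul_nonneg l2 (by linarith))]
  congr 1
  rw [Real.binEntropy, Real.log_inv, Real.log_inv]
  ring

/-- Stage `j` fails with probability less than one, given the old coins. -/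
theorem fail_prob (hENT : T_ENT) {Φ : Par} {δ : ℝ} (hδ : 0 < δ) {j : ℕ} (hj : 1 / ((j : ℝ) + 1) ≤ δ / 2)
    (ω : Om) : coin Φ {τ | mixP (Old Φ j) ω τ ∈ fail Φ δ j} ≤
      ENNReal.ofReal ((((mcs j).length : ℝ) * Φ.a * Real.log 2 + δ / 2) / (((mcs j).length : ℝ) * Φ.a * Real.log 2 + δ)) := by
  classical
  obtain ⟨R, hR⟩ : ∃ R, R = (((mcs j).length : ℝ) * Φ.a * Real.log 2 + δ) * 2 ^ (nn Φ j + j) := ⟨_, rfl⟩
  have ha : 0 ≤ ((mcs j).length : ℝ) * Φ.a * Real.log 2 :=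
    mul_nonneg (mul_nonneg (Nat.cast_nonneg _) Φ.a0) (Real.log_pos (by norm_num)).le
  have hR0 : 0 < R := by rw [hR]; positivity
  -- the measurability
  have hmm : Measurable fun τ => mixP (Old Φ j) ω τ :=
    (mixP_meas (Old Φ j)).comp (measurable_const.prodMk measurable_id)
  have hlm : ∀ t ∈ Wd Φ j, Measurable fun ω => ql Φ j t ω := fun t ht =>
    meas_of_dep (oldfin Φ (j + 1)) fun ω ω' h => ql_dep ht h
  have hlm' : ∀ t ∈ Wd Φ j, Measurable fun τ =>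
      ENNReal.ofReal (-Real.log (ql Φ j t (mixP (Old Φ j) ω τ))) := fun t ht =>
    (((Real.measurable_log.comp ((hlm t ht).comp hmm))).neg).ennreal_ofReal
  have hnn : ∀ τ, ∀ t ∈ Wd Φ j, 0 ≤ -Real.log (ql Φ j t (mixP (Old Φ j) ω τ)) := by
    intro τ t _
    have := Real.log_nonpos (ql0 Φ j t (mixP (Old Φ j) ω τ)) (ql1 Φ j t _)
    linarith
  -- the mean loss
  have hmean : ∫⁻ τ, ENNReal.ofReal (loss Φ j (mixP (Old Φ j) ω τ)) ∂(coin Φ) ≤
      ENNReal.ofReal ((((mcs j).length : ℝ) * Φ.a * Real.log 2 + δ / 2) * 2 ^ (nn Φ j + j)) := by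
    have h1 : ∀ τ, ENNReal.ofReal (loss Φ j (mixP (Old Φ j) ω τ)) =
        ∑ t ∈ Wd Φ j, ENNReal.ofReal (-Real.log (ql Φ j t (mixP (Old Φ j) ω τ))) := by
      intro τ
      unfold loss
      exact ENNReal.ofReal_sum_of_nonneg (hnn τ)
    simp only [h1]
    rw [lintegral_finsetSum _ hlm', Finset.sum_congr rfl fun t ht => loss_lint ht ω,
      ← ENNReal.ofReal_sum_of_nonneg fun t _ =>
        Real.binEntropy_nonneg (pp0 Φ j t ω) (pp1 Φ j t ω)]
    apply ENNReal.ofReal_le_ofReal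
    refine ((stg hENT Φ j ω).2).trans ?_
    gcongr
  have hM : ENNReal.ofReal R * coin Φ {τ | ENNReal.ofReal R ≤
      ENNReal.ofReal (loss Φ j (mixP (Old Φ j) ω τ))} ≤
      ENNReal.ofReal ((((mcs j).length : ℝ) * Φ.a * Real.log 2 + δ / 2) * 2 ^ (nn Φ j + j)) := by
    refine (mul_meas_ge_le_lintegral ?_ _).trans hmean
    have h1 : ∀ τ, ENNReal.ofReal (loss Φ j (mixP (Old Φ j) ω τ)) =
        ∑ t ∈ Wd Φ j, ENNReal.ofReal (-Real.log (ql Φ j t (mixP (Old Φ j) ω τ))) := by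
      intro τ
      unfold loss
      exact ENNReal.ofReal_sum_of_nonneg (hnn τ)
    simp only [h1]
    exact Finset.measurable_sum _ hlm'
  have hM' : coin Φ {τ | ENNReal.ofReal R ≤ ENNReal.ofReal (loss Φ j (mixP (Old Φ j) ω τ))} ≤
      ENNReal.ofReal ((((mcs j).length : ℝ) * Φ.a * Real.log 2 + δ / 2) / (((mcs j).length : ℝ) * Φ.a * Real.log 2 + δ)) := by
    have h1 : (((mcs j).length : ℝ) * Φ.a * Real.log 2 + δ / 2) / (((mcs j).length : ℝ) * Φ.a * Real.log 2 + δ) =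
        (((mcs j).length : ℝ) * Φ.a * Real.log 2 + δ / 2) * 2 ^ (nn Φ j + j) / R := by
      rw [hR, mul_div_mul_right _ _ (by positivity)]
    rw [h1, ENNReal.ofReal_div_of_pos hR0,
      ENNReal.le_div_iff_mul_le (Or.inl (by simpa using hR0)) (Or.inl ENNReal.ofReal_ne_top),
      mul_comm]
    exact hM
  -- the answers of probability zero
  have hZ : ∀ t ∈ Wd Φ j, coin Φ {τ | ql Φ j t (mixP (Old Φ j) ω τ) = 0} = 0 := by
    intro t ht
    have h0 : ∀ τ, pp Φ j t (mixP (Old Φ j) ω τ) = pp Φ j t ω := fun τ =>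
      pp_congr fun a ha => mixP_pos ha
    have h1 := tr_lint ht ω fun b => if qf (pp Φ j t ω) b = 0 then (1 : ℝ≥0∞) else 0
    have h2 : ∀ τ, (if qf (pp Φ j t ω) (decide (Tr Φ j t (mixP (Old Φ j) ω τ))) = 0 then
        (1 : ℝ≥0∞) else 0) =
        ({τ | ql Φ j t (mixP (Old Φ j) ω τ) = 0} : Set Om).indicator 1 τ := by
      intro τ
      by_cases h : ql Φ j t (mixP (Old Φ j) ω τ) = 0
      · have h' : τ ∈ ({τ | ql Φ j t (mixP (Old Φ j) ω τ) = 0} : Set Om) := h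
        rw [indicator_of_mem h']
        unfold ql at h
        rw [h0] at h
        rw [if_pos h]
        rfl
      · have h' : τ ∉ ({τ | ql Φ j t (mixP (Old Φ j) ω τ) = 0} : Set Om) := h
        rw [indicator_of_notMem h']
        unfold ql at h
        rw [h0] at h
        rw [if_neg h]
    simp only [h2] at h1
    have h3 : MeasurableSet {τ | ql Φ j t (mixP (Old Φ j) ω τ) = 0} :=
      ((hlm t ht).comp hmm) (measurableSet_singleton 0)
    rw [lintegral_indicator_one h3] at h1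
    rw [h1]
    have e1 : qf (pp Φ j t ω) true = pp Φ j t ω := by simp [qf]
    have e2 : qf (pp Φ j t ω) false = 1 - pp Φ j t ω := by simp [qf]
    rw [e1, e2]
    by_cases h4 : pp Φ j t ω = 0
    · simp [h4]
    · by_cases h5 : 1 - pp Φ j t ω = 0
      · simp [h4, h5]
      · simp [h4, h5]
  have hZ' : coin Φ {τ | ∃ t ∈ Wd Φ j, ql Φ j t (mixP (Old Φ j) ω τ) = 0} = 0 := by
    have h1 : {τ | ∃ t ∈ Wd Φ j, ql Φ j t (mixP (Old Φ j) ω τ) = 0} =
        ⋃ t ∈ Wd Φ j, {τ | ql Φ j t (mixP (Old Φ j) ω τ) = 0} := by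
      ext τ
      simp
    rw [h1]
    refine le_antisymm ((measure_biUnion_finset_le _ _).trans ?_) zero_le
    rw [Finset.sum_eq_zero hZ]
  have hsub : {τ | mixP (Old Φ j) ω τ ∈ fail Φ δ j} ⊆
      {τ | ENNReal.ofReal R ≤ ENNReal.ofReal (loss Φ j (mixP (Old Φ j) ω τ))} ∪
        {τ | ∃ t ∈ Wd Φ j, ql Φ j t (mixP (Old Φ j) ω τ) = 0} := by
    rintro τ (h | h)
    · left
      rw [← hR] at h
      exact ENNReal.ofReal_le_ofReal h
    · exact Or.inr h
  refine (measure_mono hsub).trans ((measure_union_le _ _).trans ?_)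
  rw [hZ', add_zero]
  exact hM'

theorem fail_part (hENT : T_ENT) {Φ : Par} {δ : ℝ} (hδ : 0 < δ) {j : ℕ} (hj : 1 / ((j : ℝ) + 1) ≤ δ / 2)
    {H : Om → ℝ≥0∞} (hH : Measurable H) (dH : Dep (Old Φ j) H) :
    ∫⁻ ω in fail Φ δ j, H ω ∂(coin Φ) ≤
      ENNReal.ofReal ((((mcs j).length : ℝ) * Φ.a * Real.log 2 + δ / 2) / (((mcs j).length : ℝ) * Φ.a * Real.log 2 + δ)) *
        ∫⁻ ω, H ω ∂(coin Φ) := by
  rw [lint_mix Φ (fail_meas Φ δ j) hH dH, ← lintegral_const_mul _ hH]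
  refine lintegral_mono fun ω => ?_
  show H ω * _ ≤ _ * H ω
  rw [mul_comm]
  gcongr
  exact fail_prob hENT hδ hj ω

/-! ## Infinitely many stages succeed -/

theorem mcs_pair (e m : ℕ) : mcs (Nat.pair e m) = lcode e := by
  unfold mcs st
  rw [Nat.unpair_pair]

theorem succ_ae (hENT : T_ENT) (Φ : Par) {δ : ℝ} (hδ : 0 < δ) (e n : ℕ) :
    ∀ᵐ ω ∂(coin Φ), ∃ m, n ≤ m ∧ ω ∉ fail Φ δ (Nat.pair e m) := by
  obtain ⟨ρ, hρ⟩ : ∃ ρ, ρ = (((lcode e).length : ℝ) * Φ.a * Real.log 2 + δ / 2) / (((lcode e).length : ℝ) * Φ.a * Real.log 2 + δ) := ⟨_, rfl⟩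
  have ha : 0 ≤ ((lcode e).length : ℝ) * Φ.a * Real.log 2 :=
    mul_nonneg (mul_nonneg (Nat.cast_nonneg _) Φ.a0) (Real.log_pos (by norm_num)).le
  have hρ1 : ρ < 1 := by
    rw [hρ, div_lt_one (by positivity)]
    linarith
  obtain ⟨n', hn'⟩ := exists_nat_one_div_lt (show (0 : ℝ) < δ / 2 by positivity)
  obtain ⟨n₀, hn₀⟩ : ∃ n₀, n₀ = max n n' := ⟨_, rfl⟩
  have hnn : n ≤ n₀ := by rw [hn₀]; exact le_max_left _ _
  have hnn' : n' ≤ n₀ := by rw [hn₀]; exact le_max_right _ _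
  have hu : StrictMono fun m => Nat.pair e (n₀ + m) := by
    refine strictMono_nat_of_lt_succ fun m => ?_
    exact Nat.pair_lt_pair_right e (by omega)
  have hsmall : ∀ m, 1 / (((Nat.pair e (n₀ + m) : ℕ) : ℝ) + 1) ≤ δ / 2 := by
    intro m
    refine le_trans ?_ hn'.le
    apply one_div_le_one_div_of_le (by positivity)
    have h1 : n' ≤ Nat.pair e (n₀ + m) := by
      have := Nat.right_le_pair e (n₀ + m)
      omega
    have h2 : (n' : ℝ) ≤ (Nat.pair e (n₀ + m) : ℕ) := by exact_mod_cast h1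
    linarith
  obtain ⟨A, hA⟩ : ∃ A : ℕ → Set Om,
      ∀ m, A m = {ω | ∀ i < m, ω ∈ fail Φ δ (Nat.pair e (n₀ + i))} := ⟨_, fun _ => rfl⟩
  have hd : ∀ m, ∀ ω ω' : Om, (∀ a ∈ Old Φ (Nat.pair e (n₀ + m)), ω a = ω' a) →
      (ω ∈ A m ↔ ω' ∈ A m) := by
    intro m ω ω' h
    rw [hA]
    simp only [Set.mem_ofPred_eq]
    refine forall_congr' fun i => forall_congr' fun hi => ?_
    refine fail_dep fun a ha => h a (old_mono Φ ?_ ha)
    exact hu hi
  have hAm : ∀ m, MeasurableSet (A m) := fun m => fd (oldfin Φ _) (hd m)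
  have hp : ∀ m, coin Φ (A m) ≤ ENNReal.ofReal ρ ^ m := by
    intro m
    induction m with
    | zero => simpa using prob_le_one
    | succ m ih =>
      have h1 : A (m + 1) = A m ∩ fail Φ δ (Nat.pair e (n₀ + m)) := by
        rw [hA, hA]
        ext ω
        simp only [Set.mem_ofPred_eq, Set.mem_inter_iff]
        constructor
        · intro h
          exact ⟨fun i hi => h i (by omega), h m (by omega)⟩
        · rintro ⟨h2, h3⟩ i hi
          rcases Nat.lt_succ_iff_lt_or_eq.1 hi with h4 | h4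
          · exact h2 i h4
          · rw [h4]; exact h3
      have h2 := fail_part hENT hδ (hsmall m) (H := (A m).indicator 1)
        (measurable_one.indicator (hAm m)) (by
          intro ω ω' h
          have h3 := hd m ω ω' h
          by_cases h4 : ω ∈ A m
          · rw [indicator_of_mem h4, indicator_of_mem (h3.1 h4)]
            rfl
          · rw [indicator_of_notMem h4, indicator_of_notMem fun h5 => h4 (h3.2 h5)])
      rw [lintegral_indicator_one (hAm m), lintegral_indicator_one (hAm m),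
        Measure.restrict_apply (hAm m), mcs_pair, ← hρ] at h2
      rw [h1, pow_succ']
      exact h2.trans (by gcongr)
  rw [ae_iff]
  have h3 : {ω | ¬ ∃ m, n ≤ m ∧ ω ∉ fail Φ δ (Nat.pair e m)} ⊆ ⋂ m, A m := by
    intro ω hω
    rw [Set.mem_ofPred_eq] at hω
    push Not at hω
    rw [Set.mem_iInter]
    intro m
    rw [hA]
    intro i _
    exact hω (n₀ + i) (by omega)
  have h4 : ∀ m, coin Φ {ω | ¬ ∃ m, n ≤ m ∧ ω ∉ fail Φ δ (Nat.pair e m)} ≤
      ENNReal.ofReal ρ ^ m := fun m =>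
    (measure_mono (h3.trans (Set.iInter_subset _ m))).trans (hp m)
  have h5 : Filter.Tendsto (fun m : ℕ => ENNReal.ofReal ρ ^ m) Filter.atTop (nhds 0) :=
    ENNReal.tendsto_pow_atTop_nhds_zero_of_lt_one (by
      rw [ENNReal.ofReal_lt_one]
      exact hρ1)
  exact le_antisymm (ge_of_tendsto' h5 h4) zero_le

/-! ## The probability of the language -/

theorem pre_length (A : Lang) (n : ℕ) : (pre A n).length = n := by simp [pre]

theorem pre_getD (A : Lang) {n t : ℕ} (h : t < n) : (pre A n).getD t false = A (str t) := by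
  unfold pre
  simp [List.getD_eq_getElem?_getD, h]

theorem Pw_low {Φ : Par} {δ : ℝ} {j : ℕ} {ω : Om} (hω : ω ∉ fail Φ δ j) :
    Real.exp (-((((mcs j).length : ℝ) * Φ.a * Real.log 2 + δ) * 2 ^ (nn Φ j + j) + 2 ^ nn Φ j)) ≤
      Pw Φ (hf Φ ω).2 j (pre (Lj Φ j ω) (2 ^ (nn Φ j + j))) := by
  classical
  obtain ⟨N, hN⟩ : ∃ N, N = 2 ^ (nn Φ j + j) := ⟨_, rfl⟩
  have hNn : 2 ^ nn Φ j ≤ N := by
    rw [hN]
    exact Nat.pow_le_pow_right (by norm_num) (by omega)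
  have h1 : ¬ (((mcs j).length : ℝ) * Φ.a * Real.log 2 + δ) * 2 ^ (nn Φ j + j) ≤ loss Φ j ω := fun h => hω (Or.inl h)
  have h2 : ∀ t ∈ Wd Φ j, ql Φ j t ω ≠ 0 := fun t ht h => hω (Or.inr ⟨t, ht, h⟩)
  have hpos : ∀ t ∈ Wd Φ j, 0 < ql Φ j t ω := fun t ht =>
    lt_of_le_of_ne (ql0 Φ j t ω) (Ne.symm (h2 t ht))
  have hprod : Pw Φ (hf Φ ω).2 j (pre (Lj Φ j ω) N) =
      (1 / 2) ^ 2 ^ nn Φ j * ∏ t ∈ Wd Φ j, ql Φ j t ω := by
    unfold Pw
    rw [pre_length, Finset.range_eq_Ico, ← Finset.prod_Ico_consecutive _ (Nat.zero_le _) hNn]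
    congr 1
    · have h3 : ∀ t ∈ Finset.Ico 0 (2 ^ nn Φ j), qf (hv Φ (hf Φ ω).2 j t)
          ((pre (Lj Φ j ω) N).getD t false) = 1 / 2 := by
        intro t ht
        rw [Finset.mem_Ico] at ht
        have h4 : hv Φ (hf Φ ω).2 j t = 1 / 2 := by
          unfold hv
          rw [if_neg (by omega)]
        rw [h4]
        unfold qf
        split_ifs <;> norm_num
      rw [Finset.prod_congr rfl h3, Finset.prod_const]
      simp
    · unfold Wd
      rw [hN]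
      refine Finset.prod_congr rfl fun t ht => ?_
      have ht' := Finset.mem_Ico.1 ht
      rw [pre_getD _ ht'.2]
      have h4 : hv Φ (hf Φ ω).2 j t = pp Φ j t ω := by
        unfold hv
        rw [if_pos ht', pp_eq, min_eq_right (pp1 Φ j t ω), max_eq_right (pp0 Φ j t ω)]
      rw [h4]
      rfl
  rw [← hN, hprod]
  have hexp : ∏ t ∈ Wd Φ j, ql Φ j t ω = Real.exp (-loss Φ j ω) := by
    unfold loss
    rw [Finset.sum_neg_distrib, neg_neg, Real.exp_sum]
    refine Finset.prod_congr rfl fun t ht => ?_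
    rw [Real.exp_log (hpos t ht)]
  have hhalf : Real.exp (-(2 : ℝ) ^ nn Φ j) ≤ (1 / 2) ^ 2 ^ nn Φ j := by
    have h3 : Real.exp (-1) ≤ 1 / 2 := by
      rw [Real.exp_neg, one_div]
      apply inv_anti₀ (by norm_num)
      have := Real.add_one_le_exp (1 : ℝ)
      linarith
    calc Real.exp (-(2 : ℝ) ^ nn Φ j) = Real.exp (-1) ^ 2 ^ nn Φ j := by
          rw [← Real.exp_nat_mul]
          push_cast
          ring_nf
      _ ≤ (1 / 2) ^ 2 ^ nn Φ j := by
          gcongr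
  rw [hexp, neg_add, Real.exp_add, mul_comm]
  refine mul_le_mul hhalf (Real.exp_le_exp.2 ?_) (Real.exp_pos _).le (by positivity)
  linarith [not_le.1 h1]

theorem io (hENT : T_ENT) : T_IO := by
  intro Φ e δ hδ
  have h : ∀ᵐ ω ∂(coin Φ), ∀ n : ℕ, ∃ m, n ≤ m ∧ ω ∉ fail Φ δ (Nat.pair e m) :=
    ae_all_iff.2 fun n => succ_ae hENT Φ hδ e n
  filter_upwards [h] with ω hω n
  obtain ⟨m, hm, hf⟩ := hω n
  refine ⟨Nat.pair e m, hm.trans (Nat.right_le_pair e m), ?_, Pw_low hf⟩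
  unfold st
  rw [Nat.unpair_pair]

end Pool.Agent.RelB
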