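import Pool.Agent.RelB.Targets
import Pool.Agent.RelO.MAIN

/-!
# The dimension is at least `a`
-/

set_option autoImplicit false

namespace Pool.Agent.RelB

open MeasureTheory Set
open scoped ENNReal
open Pool.Agent.RelT (Par Fast T_FAST1 T_FAST2 T_NPR T_E1R T_E2R)
open Pool.Agent.RelM (Lang Instr NP E1 E2 Approx str)
open Pool.Agent.RelO (lev IsGale IsGaleCover GaleNull1 GaleNull2)
open Pool.Agent.RelS (Z Rl orc Om)

/-- From single machines to all machines. -/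
theorem low_of (hNN : T_NONNULL) (hF1 : T_FAST1) (hF2 : T_FAST2) (hNP : T_NPR) (hE1 : T_E1R)
    (hE2 : T_E2R) : T_LOW := by
  intro Φ
  have a1 : ∀ᵐ ω ∂(coin Φ), ∀ (κ c : ℕ) (q : ℚ) (Pr : List Instr),
      (q : ℝ) * Real.log 2 < Φ.a * Real.log 2 - 1 / ((κ : ℝ) + 1) →
      Fast κ (fun l => (l + 2) ^ c) →
      ¬ ∃ d : ℕ → List Bool → ℝ, IsGaleCover (q : ℝ) d {Rl (zo Φ ω) κ} ∧
        Approx (oo Φ ω) Pr (fun l => (l + 2) ^ c) d := by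
    refine ae_all_iff.2 fun κ => ae_all_iff.2 fun c => ae_all_iff.2 fun q =>
      ae_all_iff.2 fun Pr => ?_
    by_cases h1 : (q : ℝ) * Real.log 2 < Φ.a * Real.log 2 - 1 / ((κ : ℝ) + 1)
    · by_cases h2 : Fast κ (fun l => (l + 2) ^ c)
      · filter_upwards [hNN Φ κ Pr _ q h1 h2] with ω hω _ _
        exact hω
      · exact Filter.Eventually.of_forall fun ω _ h => (h2 h).elim
    · exact Filter.Eventually.of_forall fun ω h => (h1 h).elim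
  have a2 : ∀ᵐ ω ∂(coin Φ), ∀ (κ c : ℕ) (q : ℚ) (Pr : List Instr),
      (q : ℝ) * Real.log 2 < Φ.a * Real.log 2 - 1 / ((κ : ℝ) + 1) →
      Fast κ (fun l => 2 ^ ((Nat.log 2 l + 2) ^ c)) →
      ¬ ∃ d : ℕ → List Bool → ℝ, IsGaleCover (q : ℝ) d {Rl (zo Φ ω) κ} ∧
        Approx (oo Φ ω) Pr (fun l => 2 ^ ((Nat.log 2 l + 2) ^ c)) d := by
    refine ae_all_iff.2 fun κ => ae_all_iff.2 fun c => ae_all_iff.2 fun q =>
      ae_all_iff.2 fun Pr => ?_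
    by_cases h1 : (q : ℝ) * Real.log 2 < Φ.a * Real.log 2 - 1 / ((κ : ℝ) + 1)
    · by_cases h2 : Fast κ (fun l => 2 ^ ((Nat.log 2 l + 2) ^ c))
      · filter_upwards [hNN Φ κ Pr _ q h1 h2] with ω hω _ _
        exact hω
      · exact Filter.Eventually.of_forall fun ω _ h => (h2 h).elim
    · exact Filter.Eventually.of_forall fun ω h => (h1 h).elim
  filter_upwards [a1, a2] with ω h1 h2 s hs
  -- the parameters
  obtain ⟨q, hsq, hqa⟩ := exists_rat_btwn hs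
  have hl2 : 0 < Real.log 2 := Real.log_pos (by norm_num)
  have hgap : 0 < (Φ.a - q) * Real.log 2 := mul_pos (by linarith) hl2
  obtain ⟨n, hn⟩ := exists_nat_one_div_lt hgap
  have hκ : ∀ κ : ℕ, n ≤ κ → (q : ℝ) * Real.log 2 < Φ.a * Real.log 2 - 1 / ((κ : ℝ) + 1) := by
    intro κ hκ
    have h3 : 1 / ((κ : ℝ) + 1) ≤ 1 / ((n : ℝ) + 1) := by
      apply one_div_le_one_div_of_le (by positivity)
      have : (n : ℝ) ≤ κ := by exact_mod_cast hκ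
      linarith
    linarith
  have hcov : ∀ (d : ℕ → List Bool → ℝ) (X X' : Set Lang), X' ⊆ X → IsGaleCover s d X →
      IsGaleCover (q : ℝ) d X' := fun d X X' hX hd k =>
    ⟨Pool.Agent.RelO.MAIN_.gale_mono hsq.le (hd k).1, (hd k).2.1,
      fun A hA => (hd k).2.2 A (hX hA)⟩
  constructor
  · rintro ⟨d, hd, Pr, c, hA⟩
    obtain ⟨κ₀, hκ₀⟩ := hF1 c
    obtain ⟨κ, h3, h4, h5⟩ : ∃ κ, n ≤ κ ∧ κ₀ ≤ κ ∧ κ % 2 = 1 :=
      ⟨2 * (n + κ₀) + 1, by omega, by omega, by omega⟩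
    refine h1 κ c q Pr (hκ κ h3) (hκ₀ κ h4 h5) ⟨d, hcov d _ _ ?_ hd, hA⟩
    rintro A rfl
    exact ⟨hNP _ _ _, hE1 _ _ _ h5⟩
  · rintro ⟨d, hd, Pr, c, hA⟩
    obtain ⟨κ₀, hκ₀⟩ := hF2 c
    obtain ⟨κ, h3, h4, h5⟩ : ∃ κ, n ≤ κ ∧ κ₀ ≤ κ ∧ κ % 2 = 0 :=
      ⟨2 * (n + κ₀), by omega, by omega, by omega⟩
    refine h2 κ c q Pr (hκ κ h3) (hκ₀ κ h4 h5) ⟨d, hcov d _ _ ?_ hd, hA⟩
    rintro A rfl
    exact ⟨hNP _ _ _, hE2 _ _ _ h5⟩

end Pool.Agent.RelB
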