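import Pool.Agent.RelB.UPP
import Pool.Agent.RelB.LOW
import Pool.Agent.RelB.NONNULL
import Pool.Agent.RelT.FAST
import Pool.Agent.RelT.NPR
import Pool.Agent.RelT.MAINT

/-!
# The theorem
-/

set_option autoImplicit false

namespace Pool.Agent.RelB

open MeasureTheory Set
open scoped ENNReal
open Pool.Agent.RelM (Lang Instr Cfg step run Halts Decides E1 E2 NP pair triple Approx IsDensity
  str pre IsNullCover Null1 Null2)
open Pool.Agent.RelO (lev IsGale IsGaleCover GaleNull1 GaleNull2)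
open Pool.Agent.RelS (Z Rl orc acc Idx Om)
open Pool.Agent.RelT (Par Fast fast1 fast2 npr e1r e2r)

namespace MAIN_

/-! ### the empty language -/

theorem np_false (O : Lang) : (fun _ => false) ∈ NP O := by
  refine ⟨[], 0, 0, fun x => ⟨fun y _ => Nat.zero_le _, ?_⟩⟩
  constructor
  · intro h
    exact absurd h (by simp)
  · rintro ⟨y, -, h⟩
    exfalso
    have h1 : ∀ t, run O [] (pair x y) t = ⟨0, Function.update (fun _ => []) 0 (pair x y)⟩ := by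
      intro t
      have := Pool.Agent.RelM.stay O [] (pair x y) 0 t (Nat.zero_le _) (Nat.zero_le _)
      rw [this]
      rfl
    rw [h1] at h
    simp at h

theorem e_false (O : Lang) (T : ℕ → ℕ) (hT : ∀ n, 1 ≤ T n) :
    Decides O [Instr.push 1 false] (fun _ => false) T := by
  intro x
  have h1 : run O [Instr.push 1 false] x 1 =
      ⟨1, Function.update (Function.update (fun _ => []) 0 x) 1 [false]⟩ := by
    rw [show (1 : ℕ) = 0 + 1 from rfl, Pool.Agent.RelM.run_succ, Pool.Agent.RelM.run_zero]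
    simp [step]
  have h2 : Halts O [Instr.push 1 false] x 1 := by
    unfold Halts
    rw [h1]
    simp
  have h3 := Pool.Agent.RelM.stay _ _ _ _ _ h2 (hT x.length)
  refine ⟨Pool.Agent.RelM.halts_mono _ _ _ _ _ h2 (hT x.length), ?_⟩
  rw [h3, h1]
  simp

theorem e1_false (O : Lang) : (fun _ => false) ∈ E1 O :=
  ⟨_, 0, e_false O _ fun _ => Nat.one_le_two_pow⟩

theorem e2_false (O : Lang) : (fun _ => false) ∈ E2 O :=
  ⟨_, 0, e_false O _ fun _ => Nat.one_le_two_pow⟩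

theorem bh_mono {O : Lang} {k m : ℕ} (h : k ≤ m) : BH O k ⊆ BH O m := by
  induction h with
  | refl => exact subset_rfl
  | step _ ih =>
    refine ih.trans fun L hL => ⟨fun _ => false, np_false O, L, hL, ?_⟩
    funext x
    simp

/-! ### the levels of the symmetric differences -/

theorem str_ix (x : List Bool) : str (ix x) = x := by
  obtain ⟨t, rfl⟩ := Pool.Agent.RelM.strsurj x
  rw [ix_str]

theorem part_eq (hSTR : T_STR) {z : Z} {κ ℓ i : ℕ} (hi : i + 1 < 2 ^ ℓ) :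
    ∃ c, (fun x => Rl z κ (str (wn ℓ (ix x) i))) = fun x => Rl z κ (x ++ c) := by
  obtain ⟨c, -, hc⟩ := hSTR ℓ i hi
  refine ⟨c, funext fun x => ?_⟩
  rw [hc, str_ix]

theorem dk_bh (hSTR : T_STR) (hNPA : T_NPA) (G : Lang) (z : Z) (κ ℓ : ℕ) (m : ℕ)
    (hm : m < 2 ^ ℓ) : Dk z κ ℓ m ∈ BH (orc G z) m := by
  induction m with
  | zero => rfl
  | succ m ih =>
    obtain ⟨c, hc⟩ := part_eq hSTR (z := z) (κ := κ) hm
    refine ⟨fun x => Rl z κ (str (wn ℓ (ix x) m)), ?_, Dk z κ ℓ m, ih (by omega), rfl⟩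
    rw [hc]
    exact hNPA G z κ c

theorem dk_e1 (hSTR : T_STR) (hAPP : T_APP) (hXOR : T_XOR) (G : Lang) (z : Z) {κ : ℕ}
    (hκ : κ % 2 = 1) (ℓ m : ℕ) (hm : m < 2 ^ ℓ) : Dk z κ ℓ m ∈ E1 (orc G z) := by
  induction m with
  | zero => exact e1_false _
  | succ m ih =>
    obtain ⟨c, hc⟩ := part_eq hSTR (z := z) (κ := κ) hm
    refine (hXOR (orc G z) (fun x => Rl z κ (str (wn ℓ (ix x) m))) (Dk z κ ℓ m)).1 ?_
      (ih (by omega))
    rw [hc]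
    exact (hAPP (orc G z) (Rl z κ) c).1 (e1r G z κ hκ)

theorem dk_e2 (hSTR : T_STR) (hAPP : T_APP) (hXOR : T_XOR) (G : Lang) (z : Z) {κ : ℕ}
    (hκ : κ % 2 = 0) (ℓ m : ℕ) (hm : m < 2 ^ ℓ) : Dk z κ ℓ m ∈ E2 (orc G z) := by
  induction m with
  | zero => exact e2_false _
  | succ m ih =>
    obtain ⟨c, hc⟩ := part_eq hSTR (z := z) (κ := κ) hm
    refine (hXOR (orc G z) (fun x => Rl z κ (str (wn ℓ (ix x) m))) (Dk z κ ℓ m)).2 ?_
      (ih (by omega))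
    rw [hc]
    exact (hAPP (orc G z) (Rl z κ) c).2 (e2r G z κ hκ)

end MAIN_

open MAIN_

/-- The level `K` is not null. -/
theorem nonnull_bh (hSTR : T_STR) (hNPA : T_NPA) (hAPP : T_APP) (hXOR : T_XOR) (hNB : T_NONB)
    (Φ : Par) (hF : ∀ κ, ∃ ℓ, Fam Φ κ ℓ) : ∀ᵐ ω ∂(coin Φ), ∀ m, Φ.K ≤ m →
      ¬ Null1 (oo Φ ω) (BH (oo Φ ω) m ∩ E1 (oo Φ ω)) ∧
      ¬ Null2 (oo Φ ω) (BH (oo Φ ω) m ∩ E2 (oo Φ ω)) := by
  choose ℓ hℓ using hF
  have a1 : ∀ᵐ ω ∂(coin Φ), ∀ (κ c : ℕ) (Pr : List Instr),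
      Fast κ (fun l => (l + 2) ^ c) →
      ¬ ∃ d : ℕ → List Bool → ℝ, IsNullCover d {Dk (zo Φ ω) κ (ℓ κ) Φ.K} ∧
        Approx (oo Φ ω) Pr (fun l => (l + 2) ^ c) d := by
    refine ae_all_iff.2 fun κ => ae_all_iff.2 fun c => ae_all_iff.2 fun Pr => ?_
    by_cases h2 : Fast κ (fun l => (l + 2) ^ c)
    · filter_upwards [hNB Φ κ (ℓ κ) Pr _ (hℓ κ) h2] with ω hω _
      exact hω
    · exact Filter.Eventually.of_forall fun ω h => (h2 h).elim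
  have a2 : ∀ᵐ ω ∂(coin Φ), ∀ (κ c : ℕ) (Pr : List Instr),
      Fast κ (fun l => 2 ^ ((Nat.log 2 l + 2) ^ c)) →
      ¬ ∃ d : ℕ → List Bool → ℝ, IsNullCover d {Dk (zo Φ ω) κ (ℓ κ) Φ.K} ∧
        Approx (oo Φ ω) Pr (fun l => 2 ^ ((Nat.log 2 l + 2) ^ c)) d := by
    refine ae_all_iff.2 fun κ => ae_all_iff.2 fun c => ae_all_iff.2 fun Pr => ?_
    by_cases h2 : Fast κ (fun l => 2 ^ ((Nat.log 2 l + 2) ^ c))
    · filter_upwards [hNB Φ κ (ℓ κ) Pr _ (hℓ κ) h2] with ω hω _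
      exact hω
    · exact Filter.Eventually.of_forall fun ω h => (h2 h).elim
  filter_upwards [a1, a2] with ω h1 h2 m hm
  have hcov : ∀ (d : ℕ → List Bool → ℝ) (X : Set Lang) (A : Lang), A ∈ X → IsNullCover d X →
      IsNullCover d {A} := fun d X A hA hd k =>
    ⟨(hd k).1, (hd k).2.1, fun B hB => (hd k).2.2 B (by rw [show B = A from hB]; exact hA)⟩
  constructor
  · rintro ⟨d, hd, Pr, c, hA⟩
    obtain ⟨κ₀, hκ₀⟩ := fast1 c
    have h5 : (2 * κ₀ + 1) % 2 = 1 := by omega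
    have hmem : Dk (zo Φ ω) (2 * κ₀ + 1) (ℓ (2 * κ₀ + 1)) Φ.K ∈
        BH (oo Φ ω) m ∩ E1 (oo Φ ω) :=
      ⟨bh_mono hm (dk_bh hSTR hNPA _ _ _ _ _ (hℓ (2 * κ₀ + 1)).2.1),
        dk_e1 hSTR hAPP hXOR _ _ h5 _ _ (hℓ (2 * κ₀ + 1)).2.1⟩
    exact h1 (2 * κ₀ + 1) c Pr (hκ₀ _ (by omega) h5) ⟨d, hcov d _ _ hmem hd, hA⟩
  · rintro ⟨d, hd, Pr, c, hA⟩
    obtain ⟨κ₀, hκ₀⟩ := fast2 c
    have h5 : (2 * κ₀) % 2 = 0 := by omega
    have hmem : Dk (zo Φ ω) (2 * κ₀) (ℓ (2 * κ₀)) Φ.K ∈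
        BH (oo Φ ω) m ∩ E2 (oo Φ ω) :=
      ⟨bh_mono hm (dk_bh hSTR hNPA _ _ _ _ _ (hℓ (2 * κ₀)).2.1),
        dk_e2 hSTR hAPP hXOR _ _ h5 _ _ (hℓ (2 * κ₀)).2.1⟩
    exact h2 (2 * κ₀) c Pr (hκ₀ _ (by omega) h5) ⟨d, hcov d _ _ hmem hd, hA⟩

/-- The theorem. -/
theorem main_of (hPAR : T_PARF) (hENT : T_ENT) (hAFF : T_AFF) (hSTR : T_STR) (hNPA : T_NPA)
    (hAPP : T_APP) (hXOR : T_XOR) (hNB : T_NONB) (hNN : T_NONNULL) (a : ℝ) (h0 : 0 < a)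
    (h1 : a < 1) : ∃ O : Lang,
      (∀ m : ℕ, (m : ℝ) * a < 1 → Null1 O (BH O m) ∧ Null2 O (BH O m)) ∧
      (∀ m : ℕ, 1 < (m : ℝ) * a → ¬ Null1 O (BH O m ∩ E1 O) ∧ ¬ Null2 O (BH O m ∩ E2 O)) ∧
      (∀ (m : ℕ) (s : ℝ), (m : ℝ) * a < 1 → (m : ℝ) * a < s →
        GaleNull1 s O (BH O m) ∧ GaleNull2 s O (BH O m)) ∧
      (∀ s : ℝ, s < a → ¬ GaleNull1 s O (NP O ∩ E1 O) ∧ ¬ GaleNull2 s O (NP O ∩ E2 O)) := by
  obtain ⟨k, hk⟩ : ∃ k, k = ⌊1 / a⌋₊ + 1 := ⟨_, rfl⟩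
  have hk1 : 1 / a < k := by
    rw [hk]
    push_cast
    exact Nat.lt_floor_add_one _
  have hk0 : (0 : ℝ) < k := lt_trans (by positivity) hk1
  have hk2 : 1 / (k : ℝ) < a := by
    rw [div_lt_iff₀ hk0]
    rw [div_lt_iff₀ h0] at hk1
    linarith
  obtain ⟨Φ, rfl, hK, hF⟩ := hPAR k a (by omega) hk2 h1.le
  obtain ⟨ω, h2, h3, h4⟩ := ((upp hENT hAFF Φ).and ((low_of hNN fast1 fast2 npr e1r e2r Φ).and
    (nonnull_bh hSTR hNPA hAPP hXOR hNB Φ hF))).exists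
  refine ⟨oo Φ ω, fun m hm => ?_, fun m hm => h4 m ?_, fun m s hm hs => h2 m s hm.le hs, h3⟩
  · exact Pool.Agent.RelT.null_of_gale (h2 m 1 hm.le hm)
  · rw [hK, hk]
    have h5 : 1 / Φ.a < m := by
      rw [div_lt_iff₀ h0]
      exact hm
    exact Nat.succ_le_of_lt ((Nat.floor_lt (by positivity)).2 h5)

end Pool.Agent.RelB
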