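import Pool.Agent.RelB.Targets
import Pool.Agent.RelO.LEV
import Pool.Agent.RelM.LOC
import Pool.Agent.RelS.NNS

/-!
# The beginnings of the stages
-/

set_option autoImplicit false

namespace Pool.Agent.RelB

open Pool.Agent.RelT (Par Fast)
open Pool.Agent.RelM (Lang str qb)
open Pool.Agent.RelO (lev st levfin levmono)
open Pool.Agent.RelS (Z Rl orcV orc acc Idx Om Dep mixP)

namespace NN_

theorem exp_bound_real (e j : ℕ) (C : ℝ) (hC : 0 ≤ C) {δ : ℝ} (hδ : 0 < δ) :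
    ∃ N : ℕ, ∀ n, N ≤ n → C * ((n + j + 2 : ℕ) : ℝ) ^ e ≤ δ * 2 ^ n := by
  have h := (isLittleO_pow_const_const_pow_of_one_lt (R := ℝ) e (by norm_num : (1 : ℝ) < 2))
  have h1 := (h.bound (by positivity : (0 : ℝ) < δ / ((C + 1) * 2 ^ (j + 2))))
  rw [Filter.eventually_atTop] at h1
  obtain ⟨N, hN⟩ := h1
  refine ⟨N, fun n hn => ?_⟩
  have h2 := hN (n + j + 2) (by omega)
  rw [Real.norm_of_nonneg (by positivity), Real.norm_of_nonneg (by positivity)] at h2
  calc C * ((n + j + 2 : ℕ) : ℝ) ^ e ≤ (C + 1) * ((n + j + 2 : ℕ) : ℝ) ^ e := by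
        gcongr
        linarith
    _ ≤ (C + 1) * (δ / ((C + 1) * 2 ^ (j + 2)) * 2 ^ (n + j + 2)) := by gcongr
    _ = δ * 2 ^ n := by
        rw [show n + j + 2 = n + (j + 2) by ring, pow_add 2 n (j + 2)]
        field_simp

/-- The bounds for a list of machines. -/
theorem list_bound (j : ℕ) (C : ℝ) (hC : 0 ≤ C) {δ : ℝ} (hδ : 0 < δ) (vs : ML) :
    ∃ N : ℕ, ∀ n, N ≤ n → qbs vs (n + j) + 2 < 2 ^ n ∧
      C * (qbs vs (n + j) : ℝ) ≤ δ * 2 ^ n := by
  induction vs with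
  | nil =>
    refine ⟨2, fun n hn => ⟨?_, ?_⟩⟩
    · show 0 + 2 < 2 ^ n
      have : 2 ^ 2 ≤ 2 ^ n := Nat.pow_le_pow_right (by norm_num) hn
      omega
    · show C * ((0 : ℕ) : ℝ) ≤ δ * 2 ^ n
      simp only [Nat.cast_zero, mul_zero]
      positivity
  | cons v vs ih =>
    obtain ⟨N0, h0⟩ := ih
    obtain ⟨N, hN⟩ := Pool.Agent.RelS.NN_.exp_bound (v.2.1 + v.2.2 + 3) 1 j
    obtain ⟨N', hN'⟩ := exp_bound_real (v.2.1 + v.2.2 + 3) j C hC hδ
    refine ⟨max N0 (max N N'), fun n hn => ?_⟩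
    obtain ⟨a1, a2⟩ := h0 n ((le_max_left _ _).trans hn)
    have a3 := hN n ((le_max_left _ _).trans ((le_max_right _ _).trans hn))
    have a4 := hN' n ((le_max_right _ _).trans ((le_max_right _ _).trans hn))
    rw [one_mul] at a3
    have a3' : qb v (n + j) + 2 < 2 ^ n := a3
    have a4' : C * (qb v (n + j) : ℝ) ≤ δ * 2 ^ n := by
      unfold qb
      push_cast at a4 ⊢
      linarith
    show max (qb v (n + j)) (qbs vs (n + j)) + 2 < 2 ^ n ∧
      C * ((max (qb v (n + j)) (qbs vs (n + j)) : ℕ) : ℝ) ≤ δ * 2 ^ n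
    rcases le_total (qb v (n + j)) (qbs vs (n + j)) with h | h
    · rw [max_eq_right h]
      exact ⟨a1, a2⟩
    · rw [max_eq_left h]
      exact ⟨a3', a4'⟩

theorem thr_spec (Φ : Par) (j : ℕ) :
    j + 2 ≤ thr Φ j ∧ 2 * Φ.B + 2 ≤ thr Φ j ∧ ∀ n, thr Φ j ≤ n →
      qbs (mcs j) (n + j) + 2 < 2 ^ n ∧
        2 * (qbs (mcs j) (n + j) : ℝ) * Φ.B ≤ md j * 2 ^ n := by
  have hne : {N | j + 2 ≤ N ∧ 2 * Φ.B + 2 ≤ N ∧ ∀ n, N ≤ n →
      qbs (mcs j) (n + j) + 2 < 2 ^ n ∧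
        2 * (qbs (mcs j) (n + j) : ℝ) * Φ.B ≤ md j * 2 ^ n}.Nonempty := by
    obtain ⟨N, hN⟩ := list_bound j (2 * Φ.B) (by positivity) (md_pos j) (mcs j)
    refine ⟨max N (max (j + 2) (2 * Φ.B + 2)), ?_, ?_, fun n hn => ⟨?_, ?_⟩⟩
    · exact (le_max_left _ _).trans (le_max_right _ _)
    · exact (le_max_right _ _).trans (le_max_right _ _)
    · exact (hN n ((le_max_left _ _).trans hn)).1
    · have := (hN n ((le_max_left _ _).trans hn)).2
      linarith
  exact Nat.sInf_mem hne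

theorem thr_le (Φ : Par) (j : ℕ) : thr Φ j ≤ nn Φ j := by
  cases j with
  | zero => exact le_rfl
  | succ j => rw [nn]; exact le_max_right _ _

end NN_

open NN_

theorem nnmono : T_NNMONO := by
  intro Φ
  refine strictMono_nat_of_lt_succ fun j => ?_
  rw [nn]
  refine lt_of_lt_of_le (Nat.lt_succ_of_le ?_) (le_max_left _ _)
  exact (Nat.le_add_right _ _).trans (le_max_right _ _)

theorem nnge : T_NNGE := fun Φ j => (thr_spec Φ j).1.trans (thr_le Φ j)

theorem nnb : T_NNB := fun Φ j => (thr_spec Φ j).2.1.trans (thr_le Φ j)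

theorem nnq (Φ : Par) (j n : ℕ) (h : nn Φ j ≤ n) : qbs (mcs j) (n + j) + 2 < 2 ^ n :=
  ((thr_spec Φ j).2.2 n ((thr_le Φ j).trans h)).1

theorem nnmd (Φ : Par) (j n : ℕ) (h : nn Φ j ≤ n) :
    2 * (qbs (mcs j) (n + j) : ℝ) * Φ.B ≤ md j * 2 ^ n :=
  ((thr_spec Φ j).2.2 n ((thr_le Φ j).trans h)).2

theorem nnnext (Φ : Par) (j : ℕ) : qbs (mcs j) (nn Φ j + j) < nn Φ (j + 1) := by
  rw [nn]
  exact lt_of_lt_of_le (Nat.lt_succ_of_le (le_max_left _ _)) (le_max_left _ _)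

theorem nnnext' (Φ : Par) (j : ℕ) : nn Φ j + j < nn Φ (j + 1) := by
  rw [nn]
  exact lt_of_lt_of_le (Nat.lt_succ_of_le (le_max_right _ _)) (le_max_left _ _)

theorem jjspec : T_JJ := by
  intro Φ m
  have hne : {j | m < nn Φ j}.Nonempty := ⟨m, by
    have := nnge Φ m
    show m < nn Φ m
    omega⟩
  refine ⟨Nat.sInf_mem hne, fun j hj => ?_⟩
  have := Nat.notMem_of_lt_sInf hj
  exact not_lt.1 this

/-- The stage of a cost between two beginnings. -/
theorem jj_eq {Φ : Par} {m j : ℕ} (h1 : nn Φ j ≤ m) (h2 : m < nn Φ (j + 1)) : jj Φ m = j + 1 := by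
  obtain ⟨h3, h4⟩ := jjspec Φ m
  have h5 : jj Φ m ≤ j + 1 := by
    by_contra h
    have := h4 (j + 1) (by omega)
    omega
  have h6 : j < jj Φ m := by
    by_contra h
    have h7 : nn Φ (jj Φ m) ≤ nn Φ j := (nnmono Φ).monotone (by omega)
    omega
  omega

theorem oldfin : T_OLDFIN := by
  intro Φ j
  have h1 : (Set.Iic (nn Φ j) ×ˢ ({x : List Bool | x.length ≤ nn Φ j} ×ˢ
      ({y : List Bool | y.length ≤ nn Φ j} ×ˢ Set.Iic Φ.K)) : Set Idx).Finite :=
    (Set.finite_Iic _).prod ((List.finite_length_le Bool _).prod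
      ((List.finite_length_le Bool _).prod (Set.finite_Iic _)))
  refine h1.subset ?_
  rintro ⟨κ, x, y, i⟩ ⟨h2, h3, h4⟩
  have h2' : lev κ x < nn Φ j := h2
  have h3' : y.length = lev κ x := h3
  obtain ⟨h5, h6⟩ := levfin κ x (nn Φ j) h2'.le
  refine ⟨h5, h6, ?_, h4.le⟩
  show y.length ≤ nn Φ j
  omega

theorem old_mono (Φ : Par) {m m' : ℕ} (h : m ≤ m') : Old Φ m ⊆ Old Φ m' := by
  rintro a ⟨h1, h2⟩
  exact ⟨h1.trans_le ((nnmono Φ).monotone h), h2⟩

/-! ## The histories -/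

theorem pa_congr {Φ : Par} {j : ℕ} {ω ω' : Om} (h : ∀ a ∈ Old Φ j, ω a = ω' a) (hh : Hist)
    (t i : ℕ) : pa Φ j hh ω t i = pa Φ j hh ω' t i := by
  have h1 : ∀ τ, mixP (Old Φ j) ω τ = mixP (Old Φ j) ω' τ := by
    intro τ
    funext a
    unfold mixP
    by_cases ha : a ∈ Old Φ j
    · rw [if_pos ha, if_pos ha, h a ha]
    · rw [if_neg ha, if_neg ha]
  unfold pa
  simp only [h1]

theorem He_congr {Φ : Par} {j : ℕ} {ω ω' : Om} (h : ∀ a ∈ Old Φ j, ω a = ω' a) (hh : Hist)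
    (i : ℕ) : He Φ j hh ω i = He Φ j hh ω' i := by
  unfold He
  simp only [pa_congr h]

theorem best_congr {Φ : Par} {j : ℕ} {ω ω' : Om} (h : ∀ a ∈ Old Φ j, ω a = ω' a) (hh : Hist) :
    best Φ j hh ω = best Φ j hh ω' := by
  unfold best
  simp only [He_congr h]

theorem hs_succ (Φ : Par) (ω : Om) (j : ℕ) : hs Φ ω (j + 1) =
    (Function.update (hs Φ ω j).1 (j + 1) (best Φ j (hs Φ ω j) ω),
      Function.update (hs Φ ω j).2 j fun t => pa Φ j (hs Φ ω j) ω t (best Φ j (hs Φ ω j) ω)) := rfl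

theorem hsdep : T_HSDEP := by
  intro Φ j
  induction j with
  | zero =>
    intro ω ω' h
    simp only [hs]
    rw [best_congr h]
    simp only [pa_congr h]
  | succ j ih =>
    intro ω ω' h
    have h1 := ih ω ω' fun a ha => h a (old_mono Φ (Nat.le_succ j) ha)
    rw [hs_succ Φ ω (j + 1), hs_succ Φ ω' (j + 1), h1, best_congr h]
    simp only [pa_congr h]

theorem hs1_succ (Φ : Par) (ω : Om) (m j : ℕ) (h : j ≤ m) :
    (hs Φ ω (m + 1)).1 j = (hs Φ ω m).1 j := by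
  rw [hs]
  exact Function.update_of_ne (by omega) _ _

theorem hs2_succ (Φ : Par) (ω : Om) (m j : ℕ) (h : j < m) :
    (hs Φ ω (m + 1)).2 j = (hs Φ ω m).2 j := by
  rw [hs]
  exact Function.update_of_ne (by omega) _ _

theorem hs1_le (Φ : Par) (ω : Om) {m m' j : ℕ} (hm : m ≤ m') (h : j ≤ m) :
    (hs Φ ω m').1 j = (hs Φ ω m).1 j := by
  induction m', hm using Nat.le_induction with
  | base => rfl
  | succ m' hm ih => rw [hs1_succ Φ ω m' j (by omega), ih]

theorem hs2_le (Φ : Par) (ω : Om) {m m' j : ℕ} (hm : m ≤ m') (h : j < m) :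
    (hs Φ ω m').2 j = (hs Φ ω m).2 j := by
  induction m', hm using Nat.le_induction with
  | base => rfl
  | succ m' hm ih => rw [hs2_succ Φ ω m' j (by omega), ih]

theorem hsval : T_HSVAL := by
  intro Φ ω m
  constructor
  · intro j hj
    exact hs1_le Φ ω hj le_rfl
  · intro j hj
    show (hs Φ ω m).2 j = (hs Φ ω (j + 1)).2 j
    exact hs2_le Φ ω (by omega) (by omega)

theorem best_lt (Φ : Par) (j : ℕ) (hh : Hist) (ω : Om) : best Φ j hh ω < Φ.K := by
  unfold best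
  split_ifs with hx
  · exact hx.choose_spec.1
  · exact Φ.K1

theorem opt : T_OPT := by
  intro Φ ω m j
  induction m with
  | zero => exact Φ.K1
  | succ m ih =>
    rw [hs]
    show Function.update (hs Φ ω m).1 (m + 1) (best Φ m (hs Φ ω m) ω) j < Φ.K
    by_cases h : j = m + 1
    · subst h
      rw [Function.update_self]
      exact best_lt _ _ _ _
    · rw [Function.update_of_ne h]
      exact ih

end Pool.Agent.RelB
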