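import Pool.Agent.RelB.Targets2
import Pool.Agent.RelM.LOC
import Pool.Agent.RelS.SHIFT

/-!
# AFF: the sequence `k ↦ d (α k + β)` is computable in polynomial time
-/

set_option autoImplicit false

namespace Pool.Agent.RelB

open Pool.Agent.RelM (Lang Instr Cfg step run Halts Approx triple outVal run_zero run_succ stay
  halts_mono)
open Pool.Agent.RelS.SHIFT_ (sh cs)

namespace AFF_

/-- The instructions of the first part. -/
def ins (α β i : ℕ) : Instr :=
  if i = 0 then Instr.pop 0 (α + 2) 1 (α + 2)
  else if i ≤ α then Instr.push 4 true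
  else if i = α + 1 then Instr.pop 5 0 0 0
  else if i = α + 2 then Instr.push 0 false
  else if i < α + β + 3 then Instr.push 0 true
  else if i = α + β + 3 then Instr.pop 4 (α + β + 4) (α + β + 4) (α + β + 6)
  else if i = α + β + 4 then Instr.push 0 true
  else Instr.pop 5 (α + β + 3) (α + β + 3) (α + β + 3)

/-- The program. -/
def prog (α β : ℕ) (P : List Instr) : List Instr :=
  (List.range (α + β + 6)).map (ins α β) ++ P.map (sh (α + β + 6))

theorem prog_length (α β : ℕ) (P : List Instr) :
    (prog α β P).length = α + β + 6 + P.length := by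
  simp [prog]

theorem prog_lt (α β : ℕ) (P : List Instr) (i : ℕ) (h : i < α + β + 6) :
    (prog α β P)[i]? = some (ins α β i) := by
  unfold prog
  rw [List.getElem?_append_left (by simpa using h)]
  simp [h]

theorem prog_ge (α β : ℕ) (P : List Instr) (i : ℕ) :
    (prog α β P)[i + (α + β + 6)]? = P[i]?.map (sh (α + β + 6)) := by
  unfold prog
  rw [List.getElem?_append_right (by simp)]
  simp

theorem step_cs (O : Lang) (α β : ℕ) (P : List Instr) (c : Cfg) :
    step O (prog α β P) (cs (α + β + 6) c) = cs (α + β + 6) (step O P c) := by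
  unfold step cs
  simp only [prog_ge]
  rcases hp : P[c.pc]? with _ | ⟨i, b⟩ | ⟨i, l₀, l₁, l₂⟩ | ⟨i, l₀, l₁⟩
  · rfl
  · simp only [Option.map_some, sh]
    congr 1
    omega
  · simp only [Option.map_some, sh]
    rcases hc : c.st i with _ | ⟨b, u⟩
    · rfl
    · cases b <;> rfl
  · simp only [Option.map_some, sh]
    cases O (c.st i) <;> rfl

/-- The configurations of the first part. -/
def cf (p : ℕ) (x y : List Bool) : Cfg :=
  ⟨p, fun s => if s = 0 then x else if s = 4 then y else []⟩

theorem upd0 (x y z : List Bool) :
    Function.update (fun s : ℕ => if s = 0 then x else if s = 4 then y else []) 0 z =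
      fun s : ℕ => if s = 0 then z else if s = 4 then y else [] := by
  funext s
  by_cases h : s = 0
  · subst h; simp
  · simp [h]

theorem upd4 (x y z : List Bool) :
    Function.update (fun s : ℕ => if s = 0 then x else if s = 4 then y else []) 4 z =
      fun s : ℕ => if s = 0 then x else if s = 4 then z else [] := by
  funext s
  by_cases h : s = 4
  · subst h; simp
  · simp [h]

variable (O : Lang) (α β : ℕ) (P : List Instr)

theorem s_pop_t (x y : List Bool) :
    step O (prog α β P) (cf 0 (true :: x) y) = cf 1 x y := by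
  unfold step cf
  simp only [prog_lt α β P 0 (by omega)]
  simp only [ins, if_true]
  rw [upd0]

theorem s_pop_f (x y : List Bool) :
    step O (prog α β P) (cf 0 (false :: x) y) = cf (α + 2) x y := by
  unfold step cf
  simp only [prog_lt α β P 0 (by omega)]
  simp only [ins, if_true]
  rw [upd0]

theorem s_push4 (i : ℕ) (h1 : 1 ≤ i) (h2 : i ≤ α) (x y : List Bool) :
    step O (prog α β P) (cf i x y) = cf (i + 1) x (true :: y) := by
  unfold step cf
  simp only [prog_lt α β P i (by omega)]
  have h : ins α β i = Instr.push 4 true := by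
    unfold ins
    rw [if_neg (by omega), if_pos h2]
  rw [h]
  simp only [upd4]
  simp

theorem s_jump (x y : List Bool) :
    step O (prog α β P) (cf (α + 1) x y) = cf 0 x y := by
  unfold step cf
  simp only [prog_lt α β P (α + 1) (by omega)]
  have h : ins α β (α + 1) = Instr.pop 5 0 0 0 := by
    unfold ins
    rw [if_neg (by omega), if_neg (by omega), if_pos rfl]
  rw [h]
  simp

theorem s_zero (x y : List Bool) :
    step O (prog α β P) (cf (α + 2) x y) = cf (α + 3) (false :: x) y := by
  unfold step cf
  simp only [prog_lt α β P (α + 2) (by omega)]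
  have h : ins α β (α + 2) = Instr.push 0 false := by
    unfold ins
    rw [if_neg (by omega), if_neg (by omega), if_neg (by omega), if_pos rfl]
  rw [h]
  simp only [upd0]
  simp

theorem s_one (i : ℕ) (h1 : α + 3 ≤ i) (h2 : i < α + β + 3) (x y : List Bool) :
    step O (prog α β P) (cf i x y) = cf (i + 1) (true :: x) y := by
  unfold step cf
  simp only [prog_lt α β P i (by omega)]
  have h : ins α β i = Instr.push 0 true := by
    unfold ins
    rw [if_neg (by omega), if_neg (by omega), if_neg (by omega), if_neg (by omega), if_pos h2]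
  rw [h]
  simp only [upd0]
  simp

theorem ins_pop4 : ins α β (α + β + 3) =
    Instr.pop 4 (α + β + 4) (α + β + 4) (α + β + 6) := by
  unfold ins
  rw [if_neg (by omega), if_neg (by omega), if_neg (by omega), if_neg (by omega),
    if_neg (by omega), if_pos rfl]

theorem s_pop4 (x y : List Bool) :
    step O (prog α β P) (cf (α + β + 3) x (true :: y)) = cf (α + β + 4) x y := by
  unfold step cf
  simp only [prog_lt α β P (α + β + 3) (by omega), ins_pop4]
  simp only [upd4]
  simp

theorem s_pop4_e (x : List Bool) :
    step O (prog α β P) (cf (α + β + 3) x []) = cf (α + β + 6) x [] := by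
  unfold step cf
  simp only [prog_lt α β P (α + β + 3) (by omega), ins_pop4]
  simp

theorem s_push0 (x y : List Bool) :
    step O (prog α β P) (cf (α + β + 4) x y) = cf (α + β + 5) (true :: x) y := by
  unfold step cf
  simp only [prog_lt α β P (α + β + 4) (by omega)]
  have h : ins α β (α + β + 4) = Instr.push 0 true := by
    unfold ins
    rw [if_neg (by omega), if_neg (by omega), if_neg (by omega), if_neg (by omega),
      if_neg (by omega), if_neg (by omega), if_pos rfl]
  rw [h]
  simp only [upd0]
  simp

theorem s_jump2 (x y : List Bool) :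
    step O (prog α β P) (cf (α + β + 5) x y) = cf (α + β + 3) x y := by
  unfold step cf
  simp only [prog_lt α β P (α + β + 5) (by omega)]
  have h : ins α β (α + β + 5) =
      Instr.pop 5 (α + β + 3) (α + β + 3) (α + β + 3) := by
    unfold ins
    rw [if_neg (by omega), if_neg (by omega), if_neg (by omega), if_neg (by omega),
      if_neg (by omega), if_neg (by omega), if_neg (by omega)]
  rw [h]
  simp

theorem pushes (x y : List Bool) (j : ℕ) (hj : j ≤ α) :
    (step O (prog α β P))^[j] (cf 1 x y) = cf (1 + j) x (List.replicate j true ++ y) := by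
  induction j with
  | zero => rfl
  | succ j ih =>
    rw [Function.iterate_succ_apply', ih (by omega), s_push4 O α β P (1 + j) (by omega) (by omega)]
    rfl

theorem body (x y : List Bool) :
    (step O (prog α β P))^[α + 2] (cf 0 (true :: x) y) =
      cf 0 x (List.replicate α true ++ y) := by
  rw [Function.iterate_succ_apply, s_pop_t, Function.iterate_succ_apply',
    pushes O α β P x y α le_rfl, add_comm 1 α, s_jump]

theorem loop1 (k : ℕ) (x y : List Bool) :
    (step O (prog α β P))^[k * (α + 2)] (cf 0 (List.replicate k true ++ x) y) =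
      cf 0 x (List.replicate (k * α) true ++ y) := by
  induction k generalizing y with
  | zero => simp
  | succ k ih =>
    rw [show (k + 1) * (α + 2) = k * (α + 2) + (α + 2) from by ring, Function.iterate_add_apply,
      List.replicate_succ, List.cons_append, body, ih, ← List.append_assoc,
      ← List.replicate_add, show k * α + α = (k + 1) * α from by ring]

theorem ones (x y : List Bool) (j : ℕ) (hj : j ≤ β) :
    (step O (prog α β P))^[j] (cf (α + 3) x y) =
      cf (α + 3 + j) (List.replicate j true ++ x) y := by
  induction j with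
  | zero => rfl
  | succ j ih =>
    rw [Function.iterate_succ_apply', ih (by omega),
      s_one O α β P (α + 3 + j) (by omega) (by omega)]
    rfl

theorem mid (x y : List Bool) :
    (step O (prog α β P))^[β + 2] (cf 0 (false :: x) y) =
      cf (α + β + 3) (List.replicate β true ++ false :: x) y := by
  rw [Function.iterate_succ_apply, Function.iterate_succ_apply, s_pop_f, s_zero,
    ones O α β P _ _ β le_rfl, show α + 3 + β = α + β + 3 from by omega]

theorem loop2 (n : ℕ) (x : List Bool) :
    (step O (prog α β P))^[n * 3] (cf (α + β + 3) x (List.replicate n true)) =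
      cf (α + β + 3) (List.replicate n true ++ x) [] := by
  induction n generalizing x with
  | zero => rfl
  | succ n ih =>
    rw [show (n + 1) * 3 = n * 3 + 1 + 1 + 1 from by ring, Function.iterate_succ_apply,
      Function.iterate_succ_apply, Function.iterate_succ_apply, List.replicate_succ, s_pop4,
      s_push0, s_jump2, ih]
    congr 1
    rw [← List.replicate_succ, List.replicate_succ', List.append_assoc]
    rfl

/-- The number of steps of the first part. -/
def tt (α β k : ℕ) : ℕ := 1 + (k * α * 3 + (β + 2 + k * (α + 2)))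

theorem triple_eq (k r : ℕ) (w : List Bool) : triple k r w =
    List.replicate k true ++ false :: (List.replicate r true ++ false :: w) := rfl

theorem phase (k r : ℕ) (w : List Bool) :
    (step O (prog α β P))^[tt α β k] (cf 0 (triple k r w) []) =
      cf (α + β + 6) (triple (α * k + β) r w) [] := by
  unfold tt
  rw [Function.iterate_add_apply, Function.iterate_add_apply, Function.iterate_add_apply,
    triple_eq, loop1, mid, List.append_nil, loop2, Function.iterate_one, s_pop4_e, triple_eq,
    ← List.append_assoc, ← List.replicate_add, mul_comm k α]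

theorem second (k r : ℕ) (w : List Bool) (t : ℕ) :
    run O (prog α β P) (triple k r w) (t + tt α β k) =
      cs (α + β + 6) (run O P (triple (α * k + β) r w) t) := by
  induction t with
  | zero =>
    have h0 : ∀ x : List Bool, (⟨0, Function.update (fun _ => []) 0 x⟩ : Cfg) = cf 0 x [] := by
      intro x
      unfold cf
      congr 1
      funext s
      by_cases h : s = 0
      · subst h; simp
      · simp [h]
    rw [zero_add, run_zero]
    unfold run
    rw [h0, phase, h0]
    unfold cs cf
    simp
  | succ t ih =>
    rw [show t + 1 + tt α β k = (t + tt α β k) + 1 from by omega, run_succ, run_succ, ih, step_cs]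

theorem len (k r : ℕ) (w : List Bool) : (triple k r w).length = k + r + w.length + 2 := by
  unfold triple
  simp
  omega

theorem time_le (c k n L : ℕ) (hk : k ≤ n) (hL : L ≤ n + α * k + β) :
    (L + 2) ^ c + tt α β k ≤ (n + 2) ^ ((4 * α + β + 3) + (α + β + 2) * c + 1) := by
  have h1 : L + 2 ≤ (n + 2) ^ (α + β + 2) := by
    have a1 : α + β + 1 ≤ 2 ^ (α + β + 1) := Nat.lt_two_pow_self.le
    have a2 : 2 ^ (α + β + 1) ≤ (n + 2) ^ (α + β + 1) := Nat.pow_le_pow_left (by omega) _
    have a3 : α * k ≤ α * n := Nat.mul_le_mul_left _ hk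
    calc L + 2 ≤ n + α * n + β + 2 := by omega
      _ ≤ (α + β + 1) * (n + 2) := by nlinarith [Nat.zero_le (β * n)]
      _ ≤ (n + 2) ^ (α + β + 1) * (n + 2) := Nat.mul_le_mul_right _ (a1.trans a2)
      _ = (n + 2) ^ (α + β + 2) := (pow_succ _ _).symm
  have h2 : (L + 2) ^ c ≤ (n + 2) ^ ((α + β + 2) * c) := by
    rw [pow_mul]
    exact Nat.pow_le_pow_left h1 c
  have h3 : tt α β k ≤ (n + 2) ^ (4 * α + β + 3) := by
    have a1 : 4 * α + β + 2 ≤ 2 ^ (4 * α + β + 2) := Nat.lt_two_pow_self.le
    have a2 : 2 ^ (4 * α + β + 2) ≤ (n + 2) ^ (4 * α + β + 2) :=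
      Nat.pow_le_pow_left (by omega) _
    have a3 : α * k ≤ α * n := Nat.mul_le_mul_left _ hk
    calc tt α β k = 4 * (α * k) + 2 * k + β + 3 := by unfold tt; ring
      _ ≤ 4 * (α * n) + 2 * n + β + 3 := by omega
      _ ≤ (4 * α + β + 2) * (n + 2) := by nlinarith [Nat.zero_le (β * n)]
      _ ≤ (n + 2) ^ (4 * α + β + 2) * (n + 2) := Nat.mul_le_mul_right _ (a1.trans a2)
      _ = (n + 2) ^ (4 * α + β + 3) := (pow_succ _ _).symm
  have h4 : (n + 2) ^ ((α + β + 2) * c) ≤ (n + 2) ^ ((4 * α + β + 3) + (α + β + 2) * c) :=
    Nat.pow_le_pow_right (by omega) (by omega)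
  have h5 : (n + 2) ^ (4 * α + β + 3) ≤ (n + 2) ^ ((4 * α + β + 3) + (α + β + 2) * c) :=
    Nat.pow_le_pow_right (by omega) (by omega)
  have h6 : (n + 2) ^ ((4 * α + β + 3) + (α + β + 2) * c + 1) =
    (n + 2) ^ ((4 * α + β + 3) + (α + β + 2) * c) * (n + 2) := pow_succ _ _
  have h7 : (n + 2) ^ ((4 * α + β + 3) + (α + β + 2) * c) * 2 ≤
    (n + 2) ^ ((4 * α + β + 3) + (α + β + 2) * c) * (n + 2) := Nat.mul_le_mul_left _ (by omega)
  omega

end AFF_

open AFF_ in
/-- **AFF** -/
theorem p_AFF : T_AFF := by
  intro O P c α β d h
  refine ⟨prog α β P, (4 * α + β + 3) + (α + β + 2) * c + 1, fun k r w => ?_⟩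
  obtain ⟨h1, h2⟩ := h (α * k + β) r w
  set L : ℕ := (triple (α * k + β) r w).length with hL
  set n : ℕ := (triple k r w).length with hn
  have e1 : L = α * k + β + r + w.length + 2 := by rw [hL, len]
  have e2 : n = k + r + w.length + 2 := by rw [hn, len]
  have h4 : Halts O (prog α β P) (triple k r w) ((L + 2) ^ c + tt α β k) := by
    have h6 : P.length ≤ (run O P (triple (α * k + β) r w) ((L + 2) ^ c)).pc := h1
    unfold Halts
    rw [second, prog_length]
    show α + β + 6 + P.length ≤
      (run O P (triple (α * k + β) r w) ((L + 2) ^ c)).pc + (α + β + 6)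
    omega
  have h5 := time_le α β c k n L (by omega) (by omega)
  refine ⟨halts_mono _ _ _ _ _ h4 h5, ?_⟩
  show |outVal (run O (prog α β P) (triple k r w) ((n + 2) ^ _)) - _| ≤ _
  rw [stay _ _ _ _ _ h4 h5, second]
  exact h2

end Pool.Agent.RelB
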