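import Pool.Agent.RelB.Targets2
import Pool.Agent.RelS.SHIFT

/-!
# RelB, target APP: `E` and `E_2` are closed under `x ↦ x ++ c` (helper9)
-/

set_option autoImplicit false

namespace Pool.Agent.RelB

open MeasureTheory Set
open scoped ENNReal
open Pool.Agent.RelM (Lang Instr Cfg step run Halts Decides E1 E2 NP pair triple binVal outVal
  Approx IsDensity str pre IsNullCover Null1 Null2 wq sq0 sq1 Asks hq code qb run_zero run_succ
  stay halts_mono)

namespace APP_

open Pool.Agent.RelS.SHIFT_ (sh cs)

/-- one loop: the bits of stack `s` are moved to stack `t` -/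
def loop (s t p : ℕ) : List Instr :=
  [Instr.pop s (p + 1) (p + 3) (p + 5), Instr.push t false, Instr.pop 9 p p p,
    Instr.push t true, Instr.pop 9 p p p]

theorem loop_run (O : Lang) (Q : List Instr) (p s t : ℕ) (hst : s ≠ t) (hs : s ≠ 9) (ht : t ≠ 9)
    (h0 : Q[p]? = some (Instr.pop s (p + 1) (p + 3) (p + 5)))
    (h1 : Q[p + 1]? = some (Instr.push t false)) (h2 : Q[p + 2]? = some (Instr.pop 9 p p p))
    (h3 : Q[p + 3]? = some (Instr.push t true)) (h4 : Q[p + 4]? = some (Instr.pop 9 p p p)) :
    ∀ (u : List Bool) (f : ℕ → List Bool), f s = u → f 9 = [] →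
      (step O Q)^[3 * u.length + 1] ⟨p, f⟩ =
        ⟨p + 5, Function.update (Function.update f s []) t (u.reverse ++ f t)⟩ := by
  intro u
  induction u with
  | nil =>
    intro f hf _
    have e : step O Q ⟨p, f⟩ = ⟨p + 5, f⟩ := by
      unfold step
      simp only [h0, hf]
    simp only [List.length_nil, mul_zero, zero_add, Function.iterate_one, List.reverse_nil,
      List.nil_append]
    rw [e]
    congr 1
    funext i
    by_cases hi : i = t
    · subst hi
      simp
    · by_cases hi2 : i = s
      · subst hi2
        simp [Function.update_of_ne hi, hf]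
      · simp [Function.update_of_ne hi, Function.update_of_ne hi2]
  | cons b u ih =>
    intro f hf h9
    have e1 : step O Q ⟨p, f⟩ = ⟨if b then p + 3 else p + 1, Function.update f s u⟩ := by
      unfold step
      simp only [h0, hf]
      cases b <;> rfl
    set g : ℕ → List Bool := Function.update (Function.update f s u) t (b :: f t) with hg
    have hg9 : g 9 = [] := by
      rw [hg, Function.update_of_ne ht.symm, Function.update_of_ne hs.symm, h9]
    have hgs : g s = u := by
      rw [hg, Function.update_of_ne hst, Function.update_self]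
    have hgt : g t = b :: f t := by rw [hg, Function.update_self]
    have e2 : step O Q ⟨if b then p + 3 else p + 1, Function.update f s u⟩ =
        ⟨if b then p + 4 else p + 2, g⟩ := by
      cases b
      · unfold step
        simp only [Bool.false_eq_true, if_false, h1]
        rw [hg, Function.update_of_ne hst.symm]
      · unfold step
        simp only [if_true, h3]
        rw [hg, Function.update_of_ne hst.symm]
    have e3 : step O Q ⟨if b then p + 4 else p + 2, g⟩ = ⟨p, g⟩ := by
      cases b
      · unfold step
        simp only [Bool.false_eq_true, if_false, h2, hg9]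
      · unfold step
        simp only [if_true, h4, hg9]
    have e4 : 3 * (b :: u).length + 1 = (3 * u.length + 1) + 3 := by
      simp only [List.length_cons]
      ring
    rw [e4, Function.iterate_add_apply]
    have e5 : (step O Q)^[3] ⟨p, f⟩ = ⟨p, g⟩ := by
      change step O Q (step O Q (step O Q ⟨p, f⟩)) = _
      rw [e1, e2, e3]
    rw [e5, ih g hgs hg9, hgt]
    congr 1
    funext i
    by_cases hi : i = t
    · subst hi
      simp
    · by_cases hi2 : i = s
      · subst hi2
        simp [Function.update_of_ne hi]
      · simp [Function.update_of_ne hi, Function.update_of_ne hi2, hg]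

theorem push_run (O : Lang) (Q : List Instr) : ∀ (w : List Bool) (p : ℕ) (f : ℕ → List Bool),
    (∀ i < w.length, Q[p + i]? = (w.map (Instr.push 0))[i]?) →
      (step O Q)^[w.length] ⟨p, f⟩ =
        ⟨p + w.length, Function.update f 0 (w.reverse ++ f 0)⟩ := by
  intro w
  induction w with
  | nil =>
    intro p f _
    simp
  | cons b w ih =>
    intro p f h
    have h0 : Q[p]? = some (Instr.push 0 b) := by
      have := h 0 (by simp)
      simpa using this
    have e1 : step O Q ⟨p, f⟩ = ⟨p + 1, Function.update f 0 (b :: f 0)⟩ := by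
      unfold step
      simp only [h0]
    rw [List.length_cons, Function.iterate_succ_apply, e1, ih (p + 1)]
    · congr 1
      · omega
      · rw [Function.update_self, Function.update_idem]
        simp
    · intro i hi
      have := h (i + 1) (by simpa using hi)
      rw [show p + 1 + i = p + (i + 1) by omega, this]
      simp

/-- the program -/
def prog (c : List Bool) (P : List Instr) : List Instr :=
  loop 0 2 0 ++ (c.reverse.map (Instr.push 0) ++ (loop 2 0 (5 + c.length) ++
    P.map (sh (10 + c.length))))

theorem prog_length (c : List Bool) (P : List Instr) :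
    (prog c P).length = P.length + (10 + c.length) := by
  simp only [prog, loop, List.length_append, List.length_map, List.length_reverse,
    List.length_cons, List.length_nil]
  omega

theorem prog_ge (c : List Bool) (P : List Instr) (i : ℕ) :
    (prog c P)[i + (10 + c.length)]? = P[i]?.map (sh (10 + c.length)) := by
  unfold prog
  rw [List.getElem?_append_right (by simp [loop]; omega),
    List.getElem?_append_right (by simp [loop]; omega),
    List.getElem?_append_right (by simp [loop]; omega), List.getElem?_map]
  congr 2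
  simp only [loop, List.length_cons, List.length_nil, List.length_map, List.length_reverse]
  omega

theorem prog_loop1 (c : List Bool) (P : List Instr) (i : ℕ) (h : i < 5) :
    (prog c P)[0 + i]? = (loop 0 2 0)[i]? := by
  unfold prog
  rw [List.getElem?_append_left (by simpa [loop] using h)]
  simp

theorem prog_push (c : List Bool) (P : List Instr) (i : ℕ) (h : i < c.reverse.length) :
    (prog c P)[5 + i]? = (c.reverse.map (Instr.push 0))[i]? := by
  unfold prog
  rw [List.getElem?_append_right (by simp [loop]),
    List.getElem?_append_left (by simpa [loop] using h)]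
  congr 1
  simp [loop]

theorem prog_loop2 (c : List Bool) (P : List Instr) (i : ℕ) (h : i < 5) :
    (prog c P)[5 + c.length + i]? = (loop 2 0 (5 + c.length))[i]? := by
  unfold prog
  rw [List.getElem?_append_right (by simp [loop]; omega),
    List.getElem?_append_right (by simp [loop]; omega),
    List.getElem?_append_left (by simp [loop]; omega)]
  congr 1
  simp only [loop, List.length_cons, List.length_nil, List.length_map, List.length_reverse]
  omega

theorem step_cs (O : Lang) (c : List Bool) (P : List Instr) (C : Cfg) :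
    step O (prog c P) (cs (10 + c.length) C) = cs (10 + c.length) (step O P C) := by
  unfold step cs
  simp only [prog_ge]
  rcases hp : P[C.pc]? with _ | ⟨i, b⟩ | ⟨i, l₀, l₁, l₂⟩ | ⟨i, l₀, l₁⟩
  · rfl
  · simp only [Option.map_some, sh]
    congr 1
    omega
  · simp only [Option.map_some, sh]
    rcases hc : C.st i with _ | ⟨b, u⟩
    · rfl
    · cases b <;> rfl
  · simp only [Option.map_some, sh]
    cases O (C.st i) <;> rfl

/-- the time of the preparation -/
def tau (c x : List Bool) : ℕ := (3 * x.length + 1) + (c.length + (3 * x.length + 1))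

theorem prep (O : Lang) (c : List Bool) (P : List Instr) (x : List Bool) :
    run O (prog c P) x (tau c x) = cs (10 + c.length) (run O P (x ++ c) 0) := by
  have a := loop_run O (prog c P) 0 0 2 (by norm_num) (by norm_num) (by norm_num)
    (prog_loop1 c P 0 (by norm_num)) (prog_loop1 c P 1 (by norm_num))
    (prog_loop1 c P 2 (by norm_num)) (prog_loop1 c P 3 (by norm_num))
    (prog_loop1 c P 4 (by norm_num)) x (Function.update (fun _ => []) 0 x) (by simp) (by simp)
  have hb := push_run O (prog c P) c.reverse 5 (Function.update (fun _ => []) 2 x.reverse)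
    (fun i hi => prog_push c P i hi)
  have hd := loop_run O (prog c P) (5 + c.length) 2 0 (by norm_num) (by norm_num) (by norm_num)
    (prog_loop2 c P 0 (by norm_num)) (prog_loop2 c P 1 (by norm_num))
    (prog_loop2 c P 2 (by norm_num)) (prog_loop2 c P 3 (by norm_num))
    (prog_loop2 c P 4 (by norm_num)) x.reverse
    (Function.update (Function.update (fun _ => []) 2 x.reverse) 0 c)
    (by simp) (by simp)
  have e1 : Function.update (Function.update (Function.update (fun _ => []) 0 x) 0 []) 2
      (x.reverse ++ Function.update (fun _ => ([] : List Bool)) 0 x 2) =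
      Function.update (fun _ => []) 2 x.reverse := by
    funext i
    by_cases h0 : i = 0
    · subst h0
      simp
    · by_cases h2 : i = 2
      · subst h2
        simp
      · simp [Function.update_of_ne h0, Function.update_of_ne h2]
  rw [e1] at a
  have e2 : (c.reverse.reverse ++ Function.update (fun _ => ([] : List Bool)) 2 x.reverse 0) =
      c := by simp
  rw [e2, List.length_reverse] at hb
  have e3 : Function.update (Function.update (Function.update (Function.update (fun _ => []) 2
      x.reverse) 0 c) 2 []) 0 (x.reverse.reverse ++ Function.update (Function.update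
      (fun _ => ([] : List Bool)) 2 x.reverse) 0 c 0) = Function.update (fun _ => []) 0 (x ++ c) := by
    funext i
    by_cases h0 : i = 0
    · subst h0
      simp
    · by_cases h2 : i = 2
      · subst h2
        simp
      · simp [Function.update_of_ne h0, Function.update_of_ne h2]
  rw [e3, List.length_reverse] at hd
  unfold run tau cs
  rw [show (3 * x.length + 1) + (c.length + (3 * x.length + 1)) =
    (3 * x.length + 1) + (c.length + (3 * x.length + 1)) from rfl]
  rw [show (3 * x.length + 1) + (c.length + (3 * x.length + 1)) =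
    ((3 * x.length + 1) + c.length) + (3 * x.length + 1) by ring,
    Function.iterate_add_apply, Function.iterate_add_apply, a]
  rw [show (0 + 5 : ℕ) = 5 from rfl, hb, hd]
  simp only [Function.iterate_zero, id]
  congr 1
  omega

theorem second (O : Lang) (c : List Bool) (P : List Instr) (x : List Bool) (t : ℕ) :
    run O (prog c P) x (tau c x + t) = cs (10 + c.length) (run O P (x ++ c) t) := by
  induction t with
  | zero => rw [add_zero, prep]
  | succ t ih => rw [← add_assoc, run_succ, run_succ, ih, step_cs]

theorem decides {O A : Lang} {P : List Instr} {T T' : ℕ → ℕ} (c : List Bool)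
    (h : Decides O P A T)
    (hT : ∀ n, (3 * n + 1) + (c.length + (3 * n + 1)) + T (n + c.length) ≤ T' n) :
    Decides O (prog c P) (fun x => A (x ++ c)) T' := by
  intro x
  obtain ⟨h1, h2⟩ := h (x ++ c)
  rw [List.length_append] at h1 h2
  have h4 : Halts O (prog c P) x (tau c x + T (x.length + c.length)) := by
    unfold Halts at h1 ⊢
    rw [second, prog_length]
    show P.length + (10 + c.length) ≤ (run O P (x ++ c) _).pc + (10 + c.length)
    omega
  have h5 : tau c x + T (x.length + c.length) ≤ T' x.length := hT x.length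
  refine ⟨halts_mono _ _ _ _ _ h4 h5, ?_⟩
  rw [stay _ _ _ _ _ h4 h5, second]
  exact h2

theorem time1 (d c n : ℕ) : (3 * n + 1) + (d + (3 * n + 1)) + 2 ^ (c * (n + d + 1)) ≤
    2 ^ ((d + 6 + c * (d + 1) + 1) * (n + 1)) := by
  have h1 : (3 * n + 1) + (d + (3 * n + 1)) ≤ (d + 6) * (n + 1) := by nlinarith
  have h2 : (d + 6) * (n + 1) < 2 ^ ((d + 6) * (n + 1)) := Nat.lt_two_pow_self
  have h3 : c * (n + d + 1) ≤ (c * (d + 1)) * (n + 1) := by
    rw [mul_assoc]
    exact Nat.mul_le_mul_left c (by nlinarith)
  have h4 : 2 ^ (c * (n + d + 1)) ≤ 2 ^ ((c * (d + 1)) * (n + 1)) :=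
    Nat.pow_le_pow_right (by norm_num) h3
  set a := (d + 6) * (n + 1) with ha
  set b := (c * (d + 1)) * (n + 1) with hb
  have h5 : (d + 6 + c * (d + 1) + 1) * (n + 1) = a + b + (n + 1) := by
    rw [ha, hb]
    ring
  rw [h5]
  have h6 : 2 ^ a ≤ 2 ^ (a + b) := Nat.pow_le_pow_right (by norm_num) (by omega)
  have h7 : 2 ^ b ≤ 2 ^ (a + b) := Nat.pow_le_pow_right (by norm_num) (by omega)
  have h8 : 2 ^ (a + b + 1) ≤ 2 ^ (a + b + (n + 1)) :=
    Nat.pow_le_pow_right (by norm_num) (by omega)
  rw [pow_succ] at h8
  omega

theorem time2 (d c n : ℕ) : (3 * n + 1) + (d + (3 * n + 1)) + 2 ^ ((n + d + 2) ^ c) ≤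
    2 ^ ((n + 2) ^ (d + 7 + (d + 1) * c + 1)) := by
  have h3 : n + d + 2 ≤ (n + 2) ^ (d + 1) := by
    have h1 : d < 2 ^ d := Nat.lt_two_pow_self
    have h2 : 2 ^ d ≤ (n + 2) ^ d := Nat.pow_le_pow_left (by omega) _
    rw [pow_succ]
    have h4 : (d + 1) * (n + 2) ≤ (n + 2) ^ d * (n + 2) := Nat.mul_le_mul_right _ (by omega)
    have h5 : n + d + 2 ≤ (d + 1) * (n + 2) := by nlinarith
    omega
  have h6 : (n + d + 2) ^ c ≤ (n + 2) ^ ((d + 1) * c) := by
    rw [pow_mul]
    exact Nat.pow_le_pow_left h3 c
  have h1 : (3 * n + 1) + (d + (3 * n + 1)) ≤ (d + 6) * (n + 1) := by nlinarith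
  have h2 : (d + 6) * (n + 1) ≤ (n + 2) ^ (d + 7) := by
    have g1 : d + 6 < 2 ^ (d + 6) := Nat.lt_two_pow_self
    have g2 : 2 ^ (d + 6) ≤ (n + 2) ^ (d + 6) := Nat.pow_le_pow_left (by omega) _
    rw [pow_succ]
    exact Nat.mul_le_mul (by omega) (by omega)
  set e := d + 7 + (d + 1) * c with he
  have k1 : (n + 2) ^ (d + 7) ≤ (n + 2) ^ e := Nat.pow_le_pow_right (by omega) (by omega)
  have k2 : (n + d + 2) ^ c ≤ (n + 2) ^ e := h6.trans (Nat.pow_le_pow_right (by omega) (by omega))
  have k3 : (n + 2) ^ e < 2 ^ ((n + 2) ^ e) := Nat.lt_two_pow_self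
  have k4 : 2 ^ ((n + d + 2) ^ c) ≤ 2 ^ ((n + 2) ^ e) := Nat.pow_le_pow_right (by norm_num) k2
  have k5 : (n + 2) ^ e + 1 ≤ (n + 2) ^ (e + 1) := by
    rw [pow_succ]
    have : 1 ≤ (n + 2) ^ e := Nat.one_le_pow _ _ (by omega)
    nlinarith
  have k6 : 2 ^ ((n + 2) ^ e + 1) ≤ 2 ^ ((n + 2) ^ (e + 1)) :=
    Nat.pow_le_pow_right (by norm_num) k5
  rw [pow_succ] at k6
  omega

end APP_

open APP_ in
theorem p_APP : T_APP := by
  intro O A c
  refine ⟨?_, ?_⟩
  · rintro ⟨P, k, h⟩
    exact ⟨prog c P, c.length + 6 + k * (c.length + 1) + 1, decides c h fun n => time1 _ _ _⟩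
  · rintro ⟨P, k, h⟩
    exact ⟨prog c P, c.length + 7 + (c.length + 1) * k + 1, decides c h fun n => time2 _ _ _⟩

end Pool.Agent.RelB
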