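import Pool.Agent.RelB.Targets2

set_option autoImplicit false

/-!
# The entropy of a symmetric difference
-/

namespace Pool.Agent.RelB

namespace ENT_

open Real

theorem sub {x y : ℝ} (hx : 0 ≤ x) (hy : 0 ≤ y) (hxy : x + y ≤ 1) :
    binEntropy (x + y) ≤ binEntropy x + binEntropy y := by
  rcases eq_or_lt_of_le (add_nonneg hx hy) with h | h
  · have h1 : x = 0 := by linarith
    have h2 : y = 0 := by linarith
    rw [h1, h2]
    simp
  · have hc := strictConcave_binEntropy.concaveOn
    have h0 : (0 : ℝ) ∈ Set.Icc (0 : ℝ) 1 := ⟨le_rfl, zero_le_one⟩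
    have h1 : x + y ∈ Set.Icc (0 : ℝ) 1 := ⟨h.le, hxy⟩
    have hs : x / (x + y) + y / (x + y) = 1 := by rw [← add_div, div_self h.ne']
    have a1 := hc.2 h1 h0 (show 0 ≤ x / (x + y) by positivity)
      (show 0 ≤ y / (x + y) by positivity) hs
    have a2 := hc.2 h1 h0 (show 0 ≤ y / (x + y) by positivity)
      (show 0 ≤ x / (x + y) by positivity) (by rw [add_comm]; exact hs)
    simp only [smul_eq_mul, mul_zero, add_zero, binEntropy_zero] at a1 a2
    rw [div_mul_cancel₀ _ h.ne'] at a1 a2
    have e : x / (x + y) * binEntropy (x + y) + y / (x + y) * binEntropy (x + y) =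
        binEntropy (x + y) := by
      rw [← add_mul, ← add_div, div_self h.ne', one_mul]
    linarith

theorem half {p q r : ℝ} (p0 : 0 ≤ p) (q0 : 0 ≤ q) (r0 : 0 ≤ r) (p1 : p ≤ 2⁻¹) (q1 : q ≤ 2⁻¹)
    (h : r ≤ p + q) : binEntropy r ≤ binEntropy p + binEntropy q := by
  rcases le_or_gt (p + q) 2⁻¹ with h1 | h1
  · refine le_trans ?_ (sub p0 q0 (by norm_num at h1 ⊢; linarith))
    exact binEntropy_strictMonoOn.monotoneOn ⟨r0, h.trans h1⟩ ⟨add_nonneg p0 q0, h1⟩ h
  · have h2 := sub p0 (show 0 ≤ 2⁻¹ - p by linarith) (by norm_num)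
    rw [add_sub_cancel, binEntropy_two_inv] at h2
    have h3 : binEntropy (2⁻¹ - p) ≤ binEntropy q :=
      binEntropy_strictMonoOn.monotoneOn ⟨by linarith, by linarith⟩ ⟨q0, q1⟩ (by linarith)
    have h4 : binEntropy r ≤ log 2 := binEntropy_le_log_two
    linarith

end ENT_

open ENT_ Real in
theorem p_ENT : T_ENT := by
  intro p q r p0 q0 r0 p1 q1 r1 h1 h2 h3 h4
  rcases le_total p 2⁻¹ with hp | hp
  · rcases le_total q 2⁻¹ with hq | hq
    · exact half p0 q0 r0 hp hq h1
    · have h := half p0 (show 0 ≤ 1 - q by linarith) (show 0 ≤ 1 - r by linarith) hp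
        (by norm_num at hq ⊢; linarith) (by linarith)
      rwa [binEntropy_one_sub, binEntropy_one_sub] at h
  · rcases le_total q 2⁻¹ with hq | hq
    · have h := half (show 0 ≤ 1 - p by linarith) q0 (show 0 ≤ 1 - r by linarith)
        (by norm_num at hp ⊢; linarith) hq (by linarith)
      rwa [binEntropy_one_sub, binEntropy_one_sub] at h
    · have h := half (show 0 ≤ 1 - p by linarith) (show 0 ≤ 1 - q by linarith) r0
        (by norm_num at hp ⊢; linarith) (by norm_num at hq ⊢; linarith) (by linarith)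
      rwa [binEntropy_one_sub, binEntropy_one_sub] at h

end Pool.Agent.RelB
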