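import Pool.Agent.RelB.Targets2
import Pool.Agent.RelB.FAIR

/-!
# The symmetric difference of the special bits is fair
-/

set_option autoImplicit false

namespace Pool.Agent.RelB

open MeasureTheory Set
open scoped ENNReal
open Pool.Agent.RelM (Lang Instr Cfg step run Halts pair str pre wq sq0 sq1 Asks hq)
open Pool.Agent.RelO (lev levmono)
open Pool.Agent.RelS (Z Rl orcV orc Idx Om Dep mixP meas_of_dep)
open Pool.Agent.RelT (Par Fast)

namespace FAIRD_

/-- words of equal length have equal costs -/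
lemma lev_eq (κ : ℕ) {x y : List Bool} (h : x.length = y.length) : lev κ x = lev κ y :=
  le_antisymm (levmono _ _ _ h.le) (levmono _ _ _ h.ge)

lemma len_w (h1 : T_STR) {ℓ K : ℕ} (hK : K < 2 ^ ℓ) (t : ℕ) {i : ℕ} (hi : i < K) :
    (str (wn ℓ t i)).length = (str t).length + ℓ := by
  obtain ⟨c, hc, hs⟩ := h1 ℓ i (by omega)
  rw [hs t, List.length_append, hc]

lemma lev_w (h1 : T_STR) {ℓ K : ℕ} (hK : K < 2 ^ ℓ) (κ t : ℕ) {i : ℕ} (hi : i < K) :
    lev κ (str (wn ℓ t i)) = lev κ (str (wn ℓ t 0)) :=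
  lev_eq κ ((len_w h1 hK t hi).trans (len_w h1 hK t (by omega)).symm)

lemma vis_w (h1 : T_STR) (Φ : Par) {ℓ : ℕ} (hK : Φ.K < 2 ^ ℓ) (κ t : ℕ) {i j : ℕ} (hi : i < Φ.K)
    (hj : j < Φ.K) (hij : i ≤ j) : Vis Φ κ (wn ℓ t i) ⊆ Vis Φ κ (wn ℓ t j) := by
  rintro a ⟨ha1, ha2⟩
  refine ⟨?_, ?_⟩
  · unfold bl at ha1 ⊢
    rw [lev_w h1 hK κ t hj, ← lev_w h1 hK κ t hi]
    exact ha1
  · rintro ⟨h3, t', ht', h4⟩
    refine ha2 ⟨h3, t', ?_, h4⟩
    unfold wn at ht' ⊢
    omega

/-- the option of the stage -/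
noncomputable def OO (Φ : Par) (B : ℕ) (ω : Om) : ℕ := (hs Φ ω B).1 B

/-- the symmetric difference of the first `m` special bits -/
noncomputable def DD (Φ : Par) (κ ℓ t m : ℕ) (ω : Om) : Bool := Dk (zo Φ ω) κ ℓ m (str t)

lemma DD_succ (Φ : Par) (κ ℓ t m : ℕ) (ω : Om) :
    DD Φ κ ℓ t (m + 1) ω = xor (Rl (zo Φ ω) κ (str (wn ℓ t m))) (DD Φ κ ℓ t m ω) := by
  show xor (Rl (zo Φ ω) κ (str (wn ℓ (ix (str t)) m))) (Dk (zo Φ ω) κ ℓ m (str t)) = _
  rw [ix_str]
  rfl

/-- a bit depends only on the coins of its pair and on the old coins -/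
lemma bit_gen (Φ : Par) (κ : ℕ) {s J : ℕ} (hJ : bl Φ κ (str s) = J + 1) {S : Set Idx}
    (hS1 : Old Φ J ⊆ S)
    (hS2 : ∀ (y : List Bool) (o : ℕ), y.length = lev κ (str s) → o < Φ.K → (κ, str s, y, o) ∈ S) :
    Dep S fun ω => Rl (zo Φ ω) κ (str s) := by
  intro ω ω' hω
  have hO : hs Φ ω (J + 1) = hs Φ ω' (J + 1) := hsdep Φ J ω ω' fun a ha => hω a (hS1 ha)
  have h1 : ∀ y : List Bool, y.length = lev κ (str s) →
      zo Φ ω κ (str s) y = zo Φ ω' κ (str s) y := by
    intro y hy
    show ω (κ, str s, y, (hs Φ ω (bl Φ κ (str s))).1 (bl Φ κ (str s))) =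
      ω' (κ, str s, y, (hs Φ ω' (bl Φ κ (str s))).1 (bl Φ κ (str s)))
    rw [hJ, hO]
    exact hω _ (hS2 y _ hy (opt Φ ω' _ _))
  show Rl (zo Φ ω) κ (str s) = Rl (zo Φ ω') κ (str s)
  unfold Rl
  rw [decide_eq_decide]
  refine exists_congr fun y => and_congr_right fun hy => ?_
  rw [h1 y hy]

end FAIRD_

open FAIRD_ in
theorem p_FAIRD (h1 : T_STR) : T_FAIRD := by
  classical
  intro Φ κ ℓ t H b hF h0 hH hdH
  obtain ⟨hdm, hK, hlam⟩ := hF
  obtain ⟨J, hJ, hJ1, hJ2⟩ := HIT_.bl_succ Φ κ (wn ℓ t 0) h0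
  -- the stage
  have hlv : ∀ i, i < Φ.K → lev κ (str (wn ℓ t i)) = lev κ (str (wn ℓ t 0)) := fun i hi =>
    lev_w h1 hK κ t hi
  have hbl : ∀ i, i < Φ.K → bl Φ κ (str (wn ℓ t i)) = J + 1 := by
    intro i hi
    unfold bl at hJ ⊢
    rw [hlv i hi, hJ]
  set O : Om → ℕ := OO Φ (J + 1) with hO
  have hOK : ∀ ω, O ω < Φ.K := fun ω => opt Φ ω (J + 1) (J + 1)
  have hOd : Dep (Old Φ J) O := by
    intro ω ω' h
    show (hs Φ ω (J + 1)).1 (J + 1) = (hs Φ ω' (J + 1)).1 (J + 1)
    rw [hsdep Φ J ω ω' h]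
  have hOm : Measurable O := meas_of_dep (oldfin Φ J) hOd
  have hOldVis : ∀ i, i < Φ.K → Old Φ J ⊆ Vis Φ κ (wn ℓ t i) := by
    intro i hi a ha
    refine ⟨?_, ?_⟩
    · rw [hbl i hi]
      exact old_mono Φ (Nat.le_succ J) ha
    · rintro ⟨h3, t', ht', h4⟩
      have h5 : lev a.1 a.2.1 < nn Φ J := ha.1
      rw [h3, h4] at h5
      have h6 : lev κ (str (wn ℓ t i)) ≤ lev κ (str t') := by
        refine levmono _ _ _ ?_
        rw [Pool.Agent.RelM.strlen, Pool.Agent.RelM.strlen]
        exact Nat.log_mono_right (by omega)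
      rw [hlv i hi] at h6
      omega
  -- the probabilities
  have hrt : ∀ i, i < Φ.K → ∀ ω, rt Φ κ (wn ℓ t i) ω =
      Real.exp (-(Φ.lam (O ω) * Φ.mul κ i)) := by
    intro i hi ω
    have e : wn ℓ t i % 2 ^ ℓ = i := by
      unfold wn
      exact Nat.mul_add_mod_of_lt (by omega)
    unfold rt
    rw [hbl i hi, hdm, e]
    rfl
  have hr01 : ∀ i ω, 0 < Real.exp (-(Φ.lam (O ω) * Φ.mul κ i)) ∧
      Real.exp (-(Φ.lam (O ω) * Φ.mul κ i)) ≤ 1 := by
    intro i ω
    refine ⟨Real.exp_pos _, Real.exp_le_one_iff.2 ?_⟩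
    have := mul_nonneg (Φ.lam0 (O ω)) (Φ.mul0 κ i)
    linarith
  have hRm : ∀ i, Measurable fun ω => Real.exp (-(Φ.lam (O ω) * Φ.mul κ i)) := by
    intro i
    exact (measurable_from_top (f := fun o : ℕ => Real.exp (-(Φ.lam o * Φ.mul κ i)))).comp hOm
  -- the bits
  have hRlm : ∀ i, i < Φ.K → ∀ b, MeasurableSet {ω | Rl (zo Φ ω) κ (str (wn ℓ t i)) = b} := by
    intro i hi b
    have hd : Dep (Old Φ (J + 1)) fun ω => Rl (zo Φ ω) κ (str (wn ℓ t i)) := by
      refine bit_gen Φ κ (hbl i hi) (old_mono Φ (Nat.le_succ J)) fun y o hy ho => ⟨?_, hy, ho⟩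
      show lev κ (str (wn ℓ t i)) < nn Φ (J + 1)
      rw [hlv i hi]
      exact hJ2
    have hm : Measurable fun ω => Rl (zo Φ ω) κ (str (wn ℓ t i)) :=
      meas_of_dep (oldfin Φ (J + 1)) hd
    exact hm (measurableSet_singleton b)
  have hDd : ∀ m, m < Φ.K → Dep (Vis Φ κ (wn ℓ t m)) (DD Φ κ ℓ t m) := by
    intro m
    induction m with
    | zero =>
      intro _ ω ω' _
      rfl
    | succ m ih =>
      intro hm1 ω ω' hω
      have hmK : m < Φ.K := by omega
      rw [DD_succ, DD_succ]
      have e1 : Dep (Vis Φ κ (wn ℓ t (m + 1))) fun ω => Rl (zo Φ ω) κ (str (wn ℓ t m)) := by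
        refine bit_gen Φ κ (hbl m hmK) (hOldVis (m + 1) hm1) fun y o hy ho => ⟨⟨?_, hy, ho⟩, ?_⟩
        · show lev κ (str (wn ℓ t m)) < nn Φ (bl Φ κ (str (wn ℓ t (m + 1))))
          rw [hbl (m + 1) hm1, hlv m hmK]
          exact hJ2
        · rintro ⟨_, t', ht', h2⟩
          have := Pool.Agent.RelM.strinj h2
          unfold wn at this ht'
          omega
      have e2 := ih hmK ω ω' fun a ha => hω a (vis_w h1 Φ hK κ t hmK hm1 (Nat.le_succ m) ha)
      have e3 := e1 ω ω' hω
      simp only at e3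
      rw [e3, e2]
  have hset : ∀ m b, {ω | DD Φ κ ℓ t (m + 1) ω = b} =
      ({ω | Rl (zo Φ ω) κ (str (wn ℓ t m)) = false} ∩ {ω | DD Φ κ ℓ t m ω = b}) ∪
      ({ω | Rl (zo Φ ω) κ (str (wn ℓ t m)) = true} ∩ {ω | DD Φ κ ℓ t m ω = !b}) := by
    intro m b
    ext ω
    simp only [Set.mem_ofPred_eq, Set.mem_union, Set.mem_inter_iff]
    rw [DD_succ]
    cases Rl (zo Φ ω) κ (str (wn ℓ t m)) <;> cases DD Φ κ ℓ t m ω <;> cases b <;> simp
  have hDm : ∀ m, m ≤ Φ.K → ∀ b, MeasurableSet {ω | DD Φ κ ℓ t m ω = b} := by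
    intro m
    induction m with
    | zero =>
      intro _ b
      exact MeasurableSet.const (false = b)
    | succ m ih =>
      intro hm b
      rw [hset]
      exact ((hRlm m (by omega) _).inter (ih (by omega) _)).union
        ((hRlm m (by omega) _).inter (ih (by omega) _))
  have hOlt : ∀ m, MeasurableSet {ω | O ω < m} := fun m => hOm (measurableSet_Iio (a := m))
  have hOeq : ∀ m, MeasurableSet {ω | O ω = m} := fun m => hOm (measurableSet_singleton m)
  -- the claim
  have claim : ∀ m, m ≤ Φ.K → ∀ (b : Bool) (H : Om → ℝ≥0∞), Measurable H →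
      Dep (Vis Φ κ (wn ℓ t 0)) H →
      ∫⁻ ω in {ω | DD Φ κ ℓ t m ω = b}, ({ω | O ω < m}).indicator H ω ∂(coin Φ) =
        2⁻¹ * ∫⁻ ω, ({ω | O ω < m}).indicator H ω ∂(coin Φ) := by
    intro m
    induction m with
    | zero =>
      intro _ b H _ _
      have e : ∀ ω, ({ω | O ω < 0}).indicator H ω = 0 := fun ω =>
        Set.indicator_of_notMem (show ω ∉ {ω | O ω < 0} from Nat.not_lt_zero _) _
      simp only [e, lintegral_zero, mul_zero]
    | succ m ih =>
      intro hm b H hH hdH
      have hmK : m < Φ.K := by omega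
      have h0m : nn Φ 0 ≤ lev κ (str (wn ℓ t m)) := by
        rw [hlv m hmK]
        exact h0
      have hK0 : 0 < Φ.K := by omega
      set r : Om → ℝ := fun ω => Real.exp (-(Φ.lam (O ω) * Φ.mul κ m)) with hr
      have hrm : Measurable r := hRm m
      have hrd : Dep (Vis Φ κ (wn ℓ t 0)) r := by
        intro ω ω' hω
        have : O ω = O ω' := hOd ω ω' fun a ha => hω a (hOldVis 0 hK0 ha)
        simp only [hr, this]
      set G : Om → ℝ≥0∞ := ({ω | O ω < m + 1}).indicator H with hG
      have hGm : Measurable G := hH.indicator (hOlt (m + 1))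
      have hGd : Dep (Vis Φ κ (wn ℓ t m)) G := by
        intro ω ω' hω
        have e1 : O ω = O ω' := hOd ω ω' fun a ha => hω a (hOldVis m hmK ha)
        have e2 : H ω = H ω' := hdH ω ω' fun a ha =>
          hω a (vis_w h1 Φ hK κ t hK0 hmK (Nat.zero_le m) ha)
        show ({ω | O ω < m + 1}).indicator H ω = ({ω | O ω < m + 1}).indicator H ω'
        by_cases h : O ω < m + 1
        · rw [Set.indicator_of_mem (show ω ∈ {ω | O ω < m + 1} from h),
            Set.indicator_of_mem (show ω' ∈ {ω | O ω < m + 1} from by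
              show O ω' < m + 1
              rw [← e1]; exact h), e2]
        · rw [Set.indicator_of_notMem (show ω ∉ {ω | O ω < m + 1} from h),
            Set.indicator_of_notMem (show ω' ∉ {ω | O ω < m + 1} from fun h' => h (by
              have h'' : O ω' < m + 1 := h'
              rw [e1]; exact h''))]
      have hDGd : ∀ b, Dep (Vis Φ κ (wn ℓ t m)) (({ω | DD Φ κ ℓ t m ω = b}).indicator G) := by
        intro b ω ω' hω
        have e1 := hDd m hmK ω ω' hω
        have e2 := hGd ω ω' hω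
        by_cases h : DD Φ κ ℓ t m ω = b
        · rw [Set.indicator_of_mem (show ω ∈ {ω | DD Φ κ ℓ t m ω = b} from h),
            Set.indicator_of_mem (show ω' ∈ {ω | DD Φ κ ℓ t m ω = b} from e1.symm.trans h), e2]
        · rw [Set.indicator_of_notMem (show ω ∉ {ω | DD Φ κ ℓ t m ω = b} from h),
            Set.indicator_of_notMem (show ω' ∉ {ω | DD Φ κ ℓ t m ω = b} from
              fun h' => h (e1.trans h'))]
      -- one part
      have part : ∀ (c b' : Bool) (ρ : Om → ℝ≥0∞), Measurable ρ →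
          Dep (Vis Φ κ (wn ℓ t 0)) ρ →
          (∀ ω, ENNReal.ofReal (if c = false then rt Φ κ (wn ℓ t m) ω
            else 1 - rt Φ κ (wn ℓ t m) ω) = ρ ω) → (∀ ω, O ω = m → ρ ω = 2⁻¹) →
          ∫⁻ ω in {ω | Rl (zo Φ ω) κ (str (wn ℓ t m)) = c} ∩ {ω | DD Φ κ ℓ t m ω = b'},
            G ω ∂(coin Φ) =
          2⁻¹ * (∫⁻ ω, ({ω | O ω < m}).indicator (fun ω => ρ ω * H ω) ω ∂(coin Φ)) +
          2⁻¹ * ∫⁻ ω in {ω | DD Φ κ ℓ t m ω = b'}, ({ω | O ω = m}).indicator H ω ∂(coin Φ) := by
        intro c b' ρ hρm hρd hρ hρ2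
        have hDb := hDm m hmK.le b'
        have e1 : ∫⁻ ω in {ω | Rl (zo Φ ω) κ (str (wn ℓ t m)) = c} ∩ {ω | DD Φ κ ℓ t m ω = b'},
            G ω ∂(coin Φ) = ∫⁻ ω in {ω | Rl (zo Φ ω) κ (str (wn ℓ t m)) = c},
            ({ω | DD Φ κ ℓ t m ω = b'}).indicator G ω ∂(coin Φ) := by
          rw [lintegral_indicator hDb, Measure.restrict_restrict hDb, Set.inter_comm]
        rw [e1, fair_b Φ κ (wn ℓ t m) _ c h0m (hGm.indicator hDb) (hDGd b')]
        have e2 : ∀ ω, ENNReal.ofReal (if c = false then rt Φ κ (wn ℓ t m) ω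
            else 1 - rt Φ κ (wn ℓ t m) ω) * ({ω | DD Φ κ ℓ t m ω = b'}).indicator G ω =
            ({ω | DD Φ κ ℓ t m ω = b'}).indicator
              (({ω | O ω < m}).indicator (fun ω => ρ ω * H ω)) ω +
            2⁻¹ * ({ω | DD Φ κ ℓ t m ω = b'}).indicator (({ω | O ω = m}).indicator H) ω := by
          intro ω
          rw [hρ ω]
          by_cases h : DD Φ κ ℓ t m ω = b'
          · have h' : ω ∈ {ω | DD Φ κ ℓ t m ω = b'} := h
            rw [Set.indicator_of_mem h', Set.indicator_of_mem h', Set.indicator_of_mem h']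
            rcases lt_trichotomy (O ω) m with h3 | h3 | h3
            · rw [hG, Set.indicator_of_mem (show ω ∈ {ω | O ω < m + 1} from by
                show O ω < m + 1; omega), Set.indicator_of_mem (show ω ∈ {ω | O ω < m} from h3),
                Set.indicator_of_notMem (show ω ∉ {ω | O ω = m} from fun h4 => by
                  have : O ω = m := h4
                  omega), mul_zero, add_zero]
            · rw [hG, Set.indicator_of_mem (show ω ∈ {ω | O ω < m + 1} from by
                show O ω < m + 1; omega), Set.indicator_of_notMem (show ω ∉ {ω | O ω < m} from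
                fun h4 => by
                  have : O ω < m := h4
                  omega), Set.indicator_of_mem (show ω ∈ {ω | O ω = m} from h3), hρ2 ω h3, zero_add]
            · rw [hG, Set.indicator_of_notMem (show ω ∉ {ω | O ω < m + 1} from fun h4 => by
                  have : O ω < m + 1 := h4
                  omega), Set.indicator_of_notMem (show ω ∉ {ω | O ω < m} from
                fun h4 => by
                  have : O ω < m := h4
                  omega), Set.indicator_of_notMem (show ω ∉ {ω | O ω = m} from fun h4 => by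
                  have : O ω = m := h4
                  omega), mul_zero, mul_zero, add_zero]
          · have h' : ω ∉ {ω | DD Φ κ ℓ t m ω = b'} := h
            rw [Set.indicator_of_notMem h', Set.indicator_of_notMem h',
              Set.indicator_of_notMem h', mul_zero, mul_zero, add_zero]
        simp only [e2]
        have hρH : Measurable fun ω => ρ ω * H ω := hρm.mul hH
        rw [lintegral_add_left ((hρH.indicator (hOlt m)).indicator hDb),
          lintegral_const_mul _ ((hH.indicator (hOeq m)).indicator hDb),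
          lintegral_indicator hDb, lintegral_indicator hDb,
          ih hmK.le b' (fun ω => ρ ω * H ω) hρH (by
            intro ω ω' hω
            show ρ ω * H ω = ρ ω' * H ω'
            rw [hρd ω ω' hω, hdH ω ω' hω])]
      have hlog : ∀ ω, O ω = m → r ω = 1 / 2 := by
        intro ω hω
        simp only [hr]
        rw [hω, hlam m hmK, Real.exp_neg, Real.exp_log (by norm_num)]
        norm_num
      have h2 : ENNReal.ofReal (1 / 2) = 2⁻¹ := by
        rw [one_div, ENNReal.ofReal_inv_of_pos (by norm_num)]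
        simp
      have p1 := part false b (fun ω => ENNReal.ofReal (r ω)) hrm.ennreal_ofReal
        (fun ω ω' hω => by
          show ENNReal.ofReal (r ω) = ENNReal.ofReal (r ω')
          rw [hrd ω ω' hω])
        (fun ω => by rw [if_pos rfl, hrt m hmK ω])
        (fun ω hω => by
          show ENNReal.ofReal (r ω) = 2⁻¹
          rw [hlog ω hω, h2])
      have p2 := part true (!b) (fun ω => ENNReal.ofReal (1 - r ω))
        (measurable_const.sub hrm).ennreal_ofReal
        (fun ω ω' hω => by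
          show ENNReal.ofReal (1 - r ω) = ENNReal.ofReal (1 - r ω')
          rw [hrd ω ω' hω])
        (fun ω => by rw [if_neg (by simp), hrt m hmK ω])
        (fun ω hω => by
          show ENNReal.ofReal (1 - r ω) = 2⁻¹
          rw [hlog ω hω, show (1 : ℝ) - 1 / 2 = 1 / 2 by norm_num, h2])
      have hdisj : Disjoint
          ({ω | Rl (zo Φ ω) κ (str (wn ℓ t m)) = false} ∩ {ω | DD Φ κ ℓ t m ω = b})
          ({ω | Rl (zo Φ ω) κ (str (wn ℓ t m)) = true} ∩ {ω | DD Φ κ ℓ t m ω = !b}) := by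
        rw [Set.disjoint_left]
        rintro ω ⟨h3, -⟩ ⟨h4, -⟩
        have h3' : Rl (zo Φ ω) κ (str (wn ℓ t m)) = false := h3
        have h4' : Rl (zo Φ ω) κ (str (wn ℓ t m)) = true := h4
        rw [h3'] at h4'
        exact Bool.false_ne_true h4'
      rw [hset, lintegral_union ((hRlm m hmK _).inter (hDm m hmK.le _)) hdisj, p1, p2]
      have hsum : (∫⁻ ω in {ω | DD Φ κ ℓ t m ω = b}, ({ω | O ω = m}).indicator H ω ∂(coin Φ)) +
          ∫⁻ ω in {ω | DD Φ κ ℓ t m ω = !b}, ({ω | O ω = m}).indicator H ω ∂(coin Φ) =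
          ∫⁻ ω, ({ω | O ω = m}).indicator H ω ∂(coin Φ) := by
        have e : {ω | DD Φ κ ℓ t m ω = !b} = {ω | DD Φ κ ℓ t m ω = b}ᶜ := by
          ext ω
          simp only [Set.mem_ofPred_eq, Set.mem_compl_iff]
          cases DD Φ κ ℓ t m ω <;> cases b <;> simp
        rw [e]
        exact lintegral_add_compl _ (hDm m hmK.le b)
      have hr1 : ∀ ω, ENNReal.ofReal (r ω) + ENNReal.ofReal (1 - r ω) = 1 := by
        intro ω
        obtain ⟨h3, h4⟩ := hr01 m ω
        show ENNReal.ofReal (Real.exp (-(Φ.lam (O ω) * Φ.mul κ m))) +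
          ENNReal.ofReal (1 - Real.exp (-(Φ.lam (O ω) * Φ.mul κ m))) = 1
        rw [← ENNReal.ofReal_add h3.le (by linarith), add_sub_cancel, ENNReal.ofReal_one]
      have hsum2 : (∫⁻ ω, ({ω | O ω < m}).indicator (fun ω => ENNReal.ofReal (r ω) * H ω) ω
          ∂(coin Φ)) + ∫⁻ ω, ({ω | O ω < m}).indicator
            (fun ω => ENNReal.ofReal (1 - r ω) * H ω) ω ∂(coin Φ) =
          ∫⁻ ω, ({ω | O ω < m}).indicator H ω ∂(coin Φ) := by
        have hm1 : Measurable fun ω => ENNReal.ofReal (r ω) * H ω := hrm.ennreal_ofReal.mul hH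
        rw [← lintegral_add_left (hm1.indicator (hOlt m))]
        refine lintegral_congr fun ω => ?_
        by_cases h : O ω < m
        · have h' : ω ∈ {ω | O ω < m} := h
          rw [Set.indicator_of_mem h', Set.indicator_of_mem h', Set.indicator_of_mem h',
            ← add_mul, hr1, one_mul]
        · have h' : ω ∉ {ω | O ω < m} := h
          rw [Set.indicator_of_notMem h', Set.indicator_of_notMem h',
            Set.indicator_of_notMem h', add_zero]
      have hG2 : ∫⁻ ω, G ω ∂(coin Φ) = (∫⁻ ω, ({ω | O ω < m}).indicator H ω ∂(coin Φ)) +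
          ∫⁻ ω, ({ω | O ω = m}).indicator H ω ∂(coin Φ) := by
        rw [← lintegral_add_left (hH.indicator (hOlt m))]
        refine lintegral_congr fun ω => ?_
        rw [hG]
        rcases lt_trichotomy (O ω) m with h3 | h3 | h3
        · rw [Set.indicator_of_mem (show ω ∈ {ω | O ω < m + 1} from by
            show O ω < m + 1; omega), Set.indicator_of_mem (show ω ∈ {ω | O ω < m} from h3),
            Set.indicator_of_notMem (show ω ∉ {ω | O ω = m} from fun h4 => by
              have : O ω = m := h4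
              omega), add_zero]
        · rw [Set.indicator_of_mem (show ω ∈ {ω | O ω < m + 1} from by
            show O ω < m + 1; omega), Set.indicator_of_notMem (show ω ∉ {ω | O ω < m} from
            fun h4 => by
              have : O ω < m := h4
              omega), Set.indicator_of_mem (show ω ∈ {ω | O ω = m} from h3), zero_add]
        · rw [Set.indicator_of_notMem (show ω ∉ {ω | O ω < m + 1} from fun h4 => by
              have : O ω < m + 1 := h4
              omega), Set.indicator_of_notMem (show ω ∉ {ω | O ω < m} from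
            fun h4 => by
              have : O ω < m := h4
              omega), Set.indicator_of_notMem (show ω ∉ {ω | O ω = m} from fun h4 => by
              have : O ω = m := h4
              omega), add_zero]
      rw [hG2, ← hsum, ← hsum2]
      ring
  have hfin := claim Φ.K le_rfl b H hH hdH
  have e : ({ω | O ω < Φ.K}).indicator H = H := by
    funext ω
    exact Set.indicator_of_mem (show ω ∈ {ω | O ω < Φ.K} from hOK ω) _
  rw [e] at hfin
  exact hfin

end Pool.Agent.RelB
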