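import Pool.Agent.RelB.Targets2
import Pool.Agent.RelM.READ
import Pool.Agent.RelM.NPR
import Pool.Agent.RelT.NPR

/-!
# NPA: the verifier for words with an appended word
-/

set_option autoImplicit false

namespace Pool.Agent.RelB

open Pool.Agent.RelM (Lang Instr Cfg step run Halts NP pair wq)
open Pool.Agent.RelO (lev levpow)
open Pool.Agent.RelS (Z Rl orc owq)

namespace NPA_

open Pool.Agent.RelM.READ_ (mk upd0 upd1 upd2 start_eq st_push0 st_push1 st_push2 st_jmp st_yes
  st_no)

/-- every bit is preceded by a `1` -/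
def cd (x : List Bool) : List Bool := x.flatMap fun b => [true, b]

theorem cd_append (x y : List Bool) : cd (x ++ y) = cd x ++ cd y := List.flatMap_append

theorem pair_eq (x y : List Bool) : pair x y = cd x ++ false :: y := rfl

/-- moving the code of `x` from stack `0` to stack `2` -/
def pA : List Instr :=
  [.pop 0 6 1 6, .pop 0 2 4 2, .push 2 false, .pop 9 0 0 0, .push 2 true, .pop 9 0 0 0]

/-- the bits of `0` and of the code of `c`, in the order of the instructions -/
def lB (c : List Bool) : List Bool := false :: c.reverse.flatMap fun b => [b, true]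

/-- moving stack `2` back -/
def pC (p : ℕ) : List Instr :=
  [.pop 2 (p + 1) (p + 4) (p + 7), .push 0 false, .push 0 true, .pop 9 p p p, .push 0 true,
    .push 0 true, .pop 9 p p p]

/-- the bits before the pair in a query -/
def lD (κ : ℕ) : List Bool := false :: (List.replicate κ true ++ [false, false])

/-- the last two instructions -/
def pE (e : ℕ) : List Instr := [.ask 0 (e + 2) (e + 1), .push 1 true]

/-- the program -/
def prog (κ : ℕ) (c : List Bool) : List Instr :=
  pA ++ ((lB c).map (Instr.push 0) ++ (pC (2 * c.length + 7) ++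
    ((lD κ).map (Instr.push 0) ++ pE (2 * c.length + κ + 17))))

theorem flat_length (c : List Bool) : (c.flatMap fun b => [b, true]).length = 2 * c.length := by
  induction c with
  | nil => rfl
  | cons b c ih =>
    rw [List.flatMap_cons, List.length_append, ih, List.length_cons]
    simp only [List.length_cons, List.length_nil]
    omega

theorem lB_length (c : List Bool) : (lB c).length = 2 * c.length + 1 := by
  unfold lB
  rw [List.length_cons, flat_length, List.length_reverse]

theorem lD_length (κ : ℕ) : (lD κ).length = κ + 3 := by simp [lD]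

theorem flat_reverse (c : List Bool) : (c.flatMap fun b => [b, true]).reverse = cd c.reverse := by
  induction c with
  | nil => rfl
  | cons b c ih =>
    rw [List.flatMap_cons, List.reverse_append, ih, List.reverse_cons (a := b) (as := c),
      cd_append]
    rfl

theorem lB_reverse (c : List Bool) : (lB c).reverse = cd c ++ [false] := by
  unfold lB
  rw [List.reverse_cons, flat_reverse, List.reverse_reverse]

theorem lD_reverse (κ : ℕ) (u : List Bool) :
    (lD κ).reverse ++ u = false :: false :: (List.replicate κ true ++ false :: u) := by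
  simp [lD]

theorem prog_length (κ : ℕ) (c : List Bool) : (prog κ c).length = 2 * c.length + κ + 19 := by
  unfold prog
  simp only [List.length_append, List.length_map, lB_length, lD_length, pA, pC, pE,
    List.length_cons, List.length_nil]
  omega

theorem get_mid (A B C : List Instr) (j : ℕ) (h : j < B.length) :
    (A ++ (B ++ C))[A.length + j]? = B[j]? := by
  rw [List.getElem?_append_right (by omega), Nat.add_sub_cancel_left,
    List.getElem?_append_left h]

theorem get_A (κ : ℕ) (c : List Bool) (j : ℕ) (h : j < 6) : (prog κ c)[j]? = pA[j]? := by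
  unfold prog
  rw [List.getElem?_append_left h]

theorem get_B (κ : ℕ) (c : List Bool) (j : ℕ) (h : j < (lB c).length) :
    (prog κ c)[6 + j]? = some (Instr.push 0 (lB c)[j]) := by
  have h1 := get_mid pA ((lB c).map (Instr.push 0)) (pC (2 * c.length + 7) ++
    ((lD κ).map (Instr.push 0) ++ pE (2 * c.length + κ + 17))) j (by simpa using h)
  have h2 : pA.length = 6 := rfl
  rw [h2] at h1
  unfold prog
  rw [h1, List.getElem?_map, List.getElem?_eq_getElem h]
  rfl

theorem get_C (κ : ℕ) (c : List Bool) (j : ℕ) (h : j < 7) :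
    (prog κ c)[2 * c.length + 7 + j]? = (pC (2 * c.length + 7))[j]? := by
  have h1 := get_mid (pA ++ (lB c).map (Instr.push 0)) (pC (2 * c.length + 7))
    ((lD κ).map (Instr.push 0) ++ pE (2 * c.length + κ + 17)) j h
  have h2 : (pA ++ (lB c).map (Instr.push 0)).length = 2 * c.length + 7 := by
    rw [List.length_append, List.length_map, lB_length]
    simp only [pA, List.length_cons, List.length_nil]
    omega
  rw [h2, List.append_assoc] at h1
  exact h1

theorem get_D (κ : ℕ) (c : List Bool) (j : ℕ) (h : j < (lD κ).length) :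
    (prog κ c)[2 * c.length + 14 + j]? = some (Instr.push 0 (lD κ)[j]) := by
  have h1 := get_mid (pA ++ ((lB c).map (Instr.push 0) ++ pC (2 * c.length + 7)))
    ((lD κ).map (Instr.push 0)) (pE (2 * c.length + κ + 17)) j (by simpa using h)
  have h2 : (pA ++ ((lB c).map (Instr.push 0) ++ pC (2 * c.length + 7))).length =
      2 * c.length + 14 := by
    rw [List.length_append, List.length_append, List.length_map, lB_length]
    simp only [pA, pC, List.length_cons, List.length_nil]
    omega
  rw [h2, List.append_assoc, List.append_assoc] at h1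
  unfold prog
  rw [h1, List.getElem?_map, List.getElem?_eq_getElem h]
  rfl

theorem get_E (κ : ℕ) (c : List Bool) (j : ℕ) (h : j < 2) :
    (prog κ c)[2 * c.length + κ + 17 + j]? = (pE (2 * c.length + κ + 17))[j]? := by
  have h1 := get_mid (pA ++ ((lB c).map (Instr.push 0) ++ (pC (2 * c.length + 7) ++
    (lD κ).map (Instr.push 0)))) (pE (2 * c.length + κ + 17)) [] j h
  have h2 : (pA ++ ((lB c).map (Instr.push 0) ++ (pC (2 * c.length + 7) ++
      (lD κ).map (Instr.push 0)))).length = 2 * c.length + κ + 17 := by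
    rw [List.length_append, List.length_append, List.length_append, List.length_map,
      List.length_map, lB_length, lD_length]
    simp only [pA, pC, List.length_cons, List.length_nil]
    omega
  rw [h2, List.append_nil, List.append_assoc, List.append_assoc, List.append_assoc] at h1
  exact h1

/-- `c'` is reached from `c` in exactly `n` steps -/
structure Rc (O : Lang) (P : List Instr) (n : ℕ) (c c' : Cfg) : Prop where
  eq : (step O P)^[n] c = c'

theorem Rc.one {O : Lang} {P : List Instr} {c c' : Cfg} (h : step O P c = c') : Rc O P 1 c c' :=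
  ⟨h⟩

theorem Rc.trans {O : Lang} {P : List Instr} {n m : ℕ} {c c' c'' : Cfg} (h : Rc O P n c c')
    (h' : Rc O P m c' c'') : Rc O P (n + m) c c'' := by
  refine ⟨?_⟩
  rw [Nat.add_comm, Function.iterate_add_apply, h.eq, h'.eq]

section Steps

variable {O : Lang} {P : List Instr} {pc l₀ l₁ l₂ : ℕ} {a b c : List Bool}

theorem pop0_false (h : P[pc]? = some (Instr.pop 0 l₀ l₁ l₂)) :
    step O P ⟨pc, mk (false :: a) b c⟩ = ⟨l₀, mk a b c⟩ := by
  have hm : mk (false :: a) b c 0 = false :: a := rfl
  simp only [step, h, hm, upd0]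

theorem pop0_true (h : P[pc]? = some (Instr.pop 0 l₀ l₁ l₂)) :
    step O P ⟨pc, mk (true :: a) b c⟩ = ⟨l₁, mk a b c⟩ := by
  have hm : mk (true :: a) b c 0 = true :: a := rfl
  simp only [step, h, hm, upd0]

theorem pop2_false (h : P[pc]? = some (Instr.pop 2 l₀ l₁ l₂)) :
    step O P ⟨pc, mk a b (false :: c)⟩ = ⟨l₀, mk a b c⟩ := by
  have hm : mk a b (false :: c) 2 = false :: c := rfl
  simp only [step, h, hm, upd2]

theorem pop2_true (h : P[pc]? = some (Instr.pop 2 l₀ l₁ l₂)) :
    step O P ⟨pc, mk a b (true :: c)⟩ = ⟨l₁, mk a b c⟩ := by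
  have hm : mk a b (true :: c) 2 = true :: c := rfl
  simp only [step, h, hm, upd2]

theorem pop2_nil (h : P[pc]? = some (Instr.pop 2 l₀ l₁ l₂)) :
    step O P ⟨pc, mk a b []⟩ = ⟨l₂, mk a b []⟩ := by
  have hm : mk a b [] 2 = [] := rfl
  simp only [step, h, hm]

end Steps

theorem segA (O : Lang) (κ : ℕ) (c y : List Bool) (x s : List Bool) :
    Rc O (prog κ c) (4 * x.length + 1) ⟨0, mk (pair x y) [] s⟩ ⟨6, mk y [] (x.reverse ++ s)⟩ := by
  induction x generalizing s with
  | nil =>
    have h0 : (prog κ c)[0]? = some (Instr.pop 0 6 1 6) := get_A κ c 0 (by norm_num)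
    exact Rc.one (pop0_false h0)
  | cons b x ih =>
    have h0 : (prog κ c)[0]? = some (Instr.pop 0 6 1 6) := get_A κ c 0 (by norm_num)
    have h1 : (prog κ c)[1]? = some (Instr.pop 0 2 4 2) := get_A κ c 1 (by norm_num)
    have h2 : (prog κ c)[2]? = some (Instr.push 2 false) := get_A κ c 2 (by norm_num)
    have h3 : (prog κ c)[3]? = some (Instr.pop 9 0 0 0) := get_A κ c 3 (by norm_num)
    have h4 : (prog κ c)[4]? = some (Instr.push 2 true) := get_A κ c 4 (by norm_num)
    have h5 : (prog κ c)[5]? = some (Instr.pop 9 0 0 0) := get_A κ c 5 (by norm_num)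
    have hp : pair (b :: x) y = true :: b :: pair x y := rfl
    have key : Rc O (prog κ c) 4 ⟨0, mk (pair (b :: x) y) [] s⟩
        ⟨0, mk (pair x y) [] (b :: s)⟩ := by
      rw [hp]
      have e1 : Rc O (prog κ c) 1 ⟨0, mk (true :: b :: pair x y) [] s⟩
          ⟨1, mk (b :: pair x y) [] s⟩ := Rc.one (pop0_true h0)
      cases b
      · have e2 : Rc O (prog κ c) 1 ⟨1, mk (false :: pair x y) [] s⟩
            ⟨2, mk (pair x y) [] s⟩ := Rc.one (pop0_false h1)
        have e3 : Rc O (prog κ c) 1 ⟨2, mk (pair x y) [] s⟩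
            ⟨3, mk (pair x y) [] (false :: s)⟩ := Rc.one (st_push2 h2)
        have e4 : Rc O (prog κ c) 1 ⟨3, mk (pair x y) [] (false :: s)⟩
            ⟨0, mk (pair x y) [] (false :: s)⟩ := Rc.one (st_jmp h3)
        exact ((e1.trans e2).trans e3).trans e4
      · have e2 : Rc O (prog κ c) 1 ⟨1, mk (true :: pair x y) [] s⟩
            ⟨4, mk (pair x y) [] s⟩ := Rc.one (pop0_true h1)
        have e3 : Rc O (prog κ c) 1 ⟨4, mk (pair x y) [] s⟩
            ⟨5, mk (pair x y) [] (true :: s)⟩ := Rc.one (st_push2 h4)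
        have e4 : Rc O (prog κ c) 1 ⟨5, mk (pair x y) [] (true :: s)⟩
            ⟨0, mk (pair x y) [] (true :: s)⟩ := Rc.one (st_jmp h5)
        exact ((e1.trans e2).trans e3).trans e4
    have h6 := key.trans (ih (b :: s))
    rw [show 4 + (4 * x.length + 1) = 4 * (b :: x).length + 1 by rw [List.length_cons]; ring] at h6
    rw [List.reverse_cons, List.append_assoc]
    exact h6

theorem segC (O : Lang) (κ : ℕ) (c : List Bool) (s a : List Bool) :
    Rc O (prog κ c) (4 * s.length + 1) ⟨2 * c.length + 7, mk a [] s⟩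
      ⟨2 * c.length + 14, mk (cd s.reverse ++ a) [] []⟩ := by
  set p : ℕ := 2 * c.length + 7 with hp
  have h0 : (prog κ c)[p]? = some (Instr.pop 2 (p + 1) (p + 4) (p + 7)) :=
    get_C κ c 0 (by norm_num)
  have h1 : (prog κ c)[p + 1]? = some (Instr.push 0 false) := get_C κ c 1 (by norm_num)
  have h2 : (prog κ c)[p + 2]? = some (Instr.push 0 true) := get_C κ c 2 (by norm_num)
  have h3 : (prog κ c)[p + 3]? = some (Instr.pop 9 p p p) := get_C κ c 3 (by norm_num)
  have h4 : (prog κ c)[p + 4]? = some (Instr.push 0 true) := get_C κ c 4 (by norm_num)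
  have h5 : (prog κ c)[p + 5]? = some (Instr.push 0 true) := get_C κ c 5 (by norm_num)
  have h6 : (prog κ c)[p + 6]? = some (Instr.pop 9 p p p) := get_C κ c 6 (by norm_num)
  induction s generalizing a with
  | nil => exact Rc.one (pop2_nil h0)
  | cons b s ih =>
    have key : Rc O (prog κ c) 4 ⟨p, mk a [] (b :: s)⟩ ⟨p, mk (true :: b :: a) [] s⟩ := by
      cases b
      · have e1 : Rc O (prog κ c) 1 ⟨p, mk a [] (false :: s)⟩ ⟨p + 1, mk a [] s⟩ :=
          Rc.one (pop2_false h0)
        have e2 : Rc O (prog κ c) 1 ⟨p + 1, mk a [] s⟩ ⟨p + 2, mk (false :: a) [] s⟩ :=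
          Rc.one (st_push0 h1)
        have e3 : Rc O (prog κ c) 1 ⟨p + 2, mk (false :: a) [] s⟩
            ⟨p + 3, mk (true :: false :: a) [] s⟩ := Rc.one (st_push0 h2)
        have e4 : Rc O (prog κ c) 1 ⟨p + 3, mk (true :: false :: a) [] s⟩
            ⟨p, mk (true :: false :: a) [] s⟩ := Rc.one (st_jmp h3)
        exact ((e1.trans e2).trans e3).trans e4
      · have e1 : Rc O (prog κ c) 1 ⟨p, mk a [] (true :: s)⟩ ⟨p + 4, mk a [] s⟩ :=
          Rc.one (pop2_true h0)
        have e2 : Rc O (prog κ c) 1 ⟨p + 4, mk a [] s⟩ ⟨p + 5, mk (true :: a) [] s⟩ :=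
          Rc.one (st_push0 h4)
        have e3 : Rc O (prog κ c) 1 ⟨p + 5, mk (true :: a) [] s⟩
            ⟨p + 6, mk (true :: true :: a) [] s⟩ := Rc.one (st_push0 h5)
        have e4 : Rc O (prog κ c) 1 ⟨p + 6, mk (true :: true :: a) [] s⟩
            ⟨p, mk (true :: true :: a) [] s⟩ := Rc.one (st_jmp h6)
        exact ((e1.trans e2).trans e3).trans e4
    have h7 := key.trans (ih (true :: b :: a))
    rw [show 4 + (4 * s.length + 1) = 4 * (b :: s).length + 1 by rw [List.length_cons]; ring] at h7
    rw [List.reverse_cons, cd_append, List.append_assoc]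
    exact h7

theorem segB (O : Lang) (κ : ℕ) (c y s : List Bool) :
    Rc O (prog κ c) (2 * c.length + 1) ⟨6, mk y [] s⟩
      ⟨2 * c.length + 7, mk (cd c ++ false :: y) [] s⟩ := by
  have h := Pool.Agent.RelM.push_seg O (prog κ c) 0 (lB c) ⟨6, mk y [] s⟩
    (fun j hj => get_B κ c j hj)
  rw [lB_length] at h
  refine ⟨h.trans ?_⟩
  have e : (mk y [] s) 0 = y := rfl
  simp only [e, upd0, lB_reverse, List.append_assoc, List.singleton_append]
  congr 1
  omega

theorem segD (O : Lang) (κ : ℕ) (c u : List Bool) :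
    Rc O (prog κ c) (κ + 3) ⟨2 * c.length + 14, mk u [] []⟩
      ⟨2 * c.length + κ + 17,
        mk (false :: false :: (List.replicate κ true ++ false :: u)) [] []⟩ := by
  have h := Pool.Agent.RelM.push_seg O (prog κ c) 0 (lD κ) ⟨2 * c.length + 14, mk u [] []⟩
    (fun j hj => get_D κ c j hj)
  rw [lD_length] at h
  refine ⟨h.trans ?_⟩
  have e : (mk u [] []) 0 = u := rfl
  simp only [e, upd0, lD_reverse]
  congr 1
  omega

/-- the time of the verifier -/
def tm (κ : ℕ) (c x : List Bool) : ℕ := 8 * x.length + (2 * c.length + κ + 8)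

theorem upto (O : Lang) (κ : ℕ) (c x y : List Bool) :
    Rc O (prog κ c) (8 * x.length + (2 * c.length + κ + 6)) ⟨0, mk (pair x y) [] []⟩
      ⟨2 * c.length + κ + 17, mk (wq κ (x ++ c) y) [] []⟩ := by
  have h1 := segA O κ c y x []
  have h2 := segB O κ c y (x.reverse ++ [])
  have h3 := segC O κ c (x.reverse ++ []) (cd c ++ false :: y)
  have h4 := segD O κ c (cd (x.reverse ++ []).reverse ++ (cd c ++ false :: y))
  have h5 := ((h1.trans h2).trans h3).trans h4
  rw [List.append_nil, List.reverse_reverse, List.length_reverse] at h5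
  have e1 : 4 * x.length + 1 + (2 * c.length + 1) + (4 * x.length + 1) + (κ + 3) =
      8 * x.length + (2 * c.length + κ + 6) := by ring
  rw [e1] at h5
  have e2 : wq κ (x ++ c) y =
      false :: false :: (List.replicate κ true ++ false :: (cd x ++ (cd c ++ false :: y))) := by
    unfold wq
    rw [pair_eq, cd_append, List.append_assoc]
  rw [e2]
  exact h5

theorem yes (O : Lang) (κ : ℕ) (c x y : List Bool) (h : O (wq κ (x ++ c) y) = true) :
    run O (prog κ c) (pair x y) (tm κ c x) =
      ⟨2 * c.length + κ + 19, mk (wq κ (x ++ c) y) [true] []⟩ := by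
  have hE0 : (prog κ c)[2 * c.length + κ + 17]? = some (Instr.ask 0 (2 * c.length + κ + 17 + 2)
    (2 * c.length + κ + 17 + 1)) := get_E κ c 0 (by norm_num)
  have hE1 : (prog κ c)[2 * c.length + κ + 17 + 1]? = some (Instr.push 1 true) :=
    get_E κ c 1 (by norm_num)
  have h1 := ((upto O κ c x y).trans (Rc.one (st_yes hE0 h))).trans (Rc.one (st_push1 hE1))
  unfold run
  rw [start_eq]
  have e : tm κ c x = 8 * x.length + (2 * c.length + κ + 6) + 1 + 1 := by
    unfold tm
    ring
  rw [e]
  exact h1.eq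

theorem no (O : Lang) (κ : ℕ) (c x y : List Bool) (h : O (wq κ (x ++ c) y) ≠ true) :
    run O (prog κ c) (pair x y) (tm κ c x) =
      ⟨2 * c.length + κ + 19, mk (wq κ (x ++ c) y) [] []⟩ := by
  have hE0 : (prog κ c)[2 * c.length + κ + 17]? = some (Instr.ask 0 (2 * c.length + κ + 17 + 2)
    (2 * c.length + κ + 17 + 1)) := get_E κ c 0 (by norm_num)
  have hend : step O (prog κ c) ⟨2 * c.length + κ + 17 + 2, mk (wq κ (x ++ c) y) [] []⟩ =
      ⟨2 * c.length + κ + 17 + 2, mk (wq κ (x ++ c) y) [] []⟩ := by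
    have h2 : (prog κ c)[2 * c.length + κ + 17 + 2]? = none := by
      rw [List.getElem?_eq_none_iff, prog_length]
    simp only [step, h2]
  have h1 := ((upto O κ c x y).trans (Rc.one (st_no hE0 h))).trans (Rc.one hend)
  unfold run
  rw [start_eq]
  have e : tm κ c x = 8 * x.length + (2 * c.length + κ + 6) + 1 + 1 := by
    unfold tm
    ring
  rw [e]
  exact h1.eq

theorem time_le (n a : ℕ) : 8 * n + a ≤ (n + 2) ^ (a + 4) := by
  have h1 : a < 2 ^ a := Nat.lt_two_pow_self
  have h2 : 2 ^ a ≤ (n + 2) ^ a := Nat.pow_le_pow_left (by omega) _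
  have h3 : (n + 2) ^ (a + 4) = (n + 2) ^ a * (n + 2) ^ 4 := pow_add _ _ _
  have h4 : 8 * (n + 2) ≤ (n + 2) ^ 4 := by
    have : 2 ^ 3 ≤ (n + 2) ^ 3 := Nat.pow_le_pow_left (by omega) _
    calc 8 * (n + 2) ≤ (n + 2) ^ 3 * (n + 2) := Nat.mul_le_mul_right _ (by omega)
      _ = (n + 2) ^ 4 := by ring
  have h5 : (a + 1) * (8 * (n + 2)) ≤ (n + 2) ^ a * (n + 2) ^ 4 :=
    Nat.mul_le_mul (by omega) h4
  rw [h3]
  nlinarith

theorem len_le (n m κ : ℕ) : (n + m + 2) ^ (κ + 2) ≤ (n + 2) ^ ((m + 1) * (κ + 2)) := by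
  rw [pow_mul]
  refine Nat.pow_le_pow_left ?_ _
  have h1 : m < 2 ^ m := Nat.lt_two_pow_self
  have h2 : 2 ^ m ≤ (n + 2) ^ m := Nat.pow_le_pow_left (by omega) _
  rw [pow_succ]
  have h4 : (m + 1) * (n + 2) ≤ (n + 2) ^ m * (n + 2) := Nat.mul_le_mul_right _ (by omega)
  have h5 : n + m + 2 ≤ (m + 1) * (n + 2) := by nlinarith
  omega

end NPA_

open NPA_ in
/-- **NPA** -/
theorem p_NPA : T_NPA := by
  intro G z κ c
  refine ⟨prog κ c, (c.length + 1) * (κ + 2), 2 * c.length + κ + 8 + 4, ?_⟩
  intro x
  have htime : tm κ c x ≤ (x.length + 2) ^ (2 * c.length + κ + 8 + 4) := time_le _ _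
  have hhalt : ∀ y, Halts (orc G z) (prog κ c) (pair x y) (tm κ c x) := by
    intro y
    unfold Halts
    rw [prog_length]
    by_cases h : orc G z (wq κ (x ++ c) y) = true
    · rw [yes _ κ c x y h]
    · rw [no _ κ c x y h]
  have hrun : ∀ y, run (orc G z) (prog κ c) (pair x y)
      ((x.length + 2) ^ (2 * c.length + κ + 8 + 4)) =
      run (orc G z) (prog κ c) (pair x y) (tm κ c x) :=
    fun y => Pool.Agent.RelM.stay _ _ _ _ _ (hhalt y) htime
  have hyes : ∀ y, (run (orc G z) (prog κ c) (pair x y) (tm κ c x)).st 1 = [true] ↔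
      orc G z (wq κ (x ++ c) y) = true := by
    intro y
    constructor
    · intro h
      by_contra hno
      rw [no _ κ c x y hno] at h
      have h' : ([] : List Bool) = [true] := h
      simp at h'
    · intro h
      rw [yes _ κ c x y h]
      rfl
  constructor
  · intro y _
    have := hhalt y
    unfold Halts at this ⊢
    rw [hrun y]
    exact this
  · have hR : Rl z κ (x ++ c) = true ↔
        ∃ y : List Bool, y.length = lev κ (x ++ c) ∧ z κ (x ++ c) y = true := by
      simp [Rl]
    rw [hR]
    constructor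
    · rintro ⟨y, hy1, hy2⟩
      refine ⟨y, ?_, ?_⟩
      · rw [hy1]
        refine (levpow κ (x ++ c)).trans ?_
        rw [List.length_append]
        exact len_le _ _ _
      · rw [hrun, hyes]
        exact (owq _ G z κ (x ++ c) _).2 ⟨trivial, hy1, hy2⟩
    · rintro ⟨y, -, hy⟩
      rw [hrun, hyes] at hy
      exact ⟨y, ((owq _ G z κ (x ++ c) y).1 hy).2⟩

end Pool.Agent.RelB
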