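import Pool.Agent.RelB.Targets2

/-!
# RelB: the parameters with special words
-/

set_option autoImplicit false

namespace Pool.Agent.RelB

open Pool.Agent.RelS
open Pool.Agent.RelT (Par Fast)

namespace PARF_

open GAME_

/-- The game with `K` options, `1 / K < a`. -/
theorem game' {K : ℕ} (hK : 1 ≤ K) {a : ℝ} (h0 : 1 / (K : ℝ) < a) (h1 : a ≤ 1) : ∃ τ : ℝ, 0 ≤ τ ∧
    (∃ pv : Fin K → ℝ, (∀ i, 0 ≤ pv i) ∧ ∑ i, pv i = 1 ∧
      ∀ u, 0 ≤ u → ∑ i, pv i * gf (Real.exp (i * τ) * u) ≤ a * Real.log 2) ∧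
    ∀ ε : ℝ, 0 < ε → ∃ (D : ℕ) (m : ℕ → ℝ), 1 ≤ D ∧ (∀ c, 0 ≤ m c ∧ m c ≤ Real.log 2) ∧
      ∀ i : Fin K, (a * Real.log 2 - ε) * D ≤
        ∑ c ∈ Finset.range D, gf (Real.exp (i * τ) * m c) := by
  have hl : 0 < Real.log 2 := Real.log_pos (by norm_num)
  obtain ⟨T, hT, hV⟩ := V_small hK h0
  have hiv := intermediate_value_Icc' hT (V_cont hK T)
  have hm : a * Real.log 2 ∈ Set.Icc (Vx K T) (Vx K 0) := by
    refine ⟨hV, ?_⟩
    rw [V_zero hK]
    nlinarith
  obtain ⟨τ, hτ, hV⟩ := hiv hm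
  refine ⟨τ, hτ.1, ?_, fun ε hε => ?_⟩
  · obtain ⟨pv, hpv0, hpv1, hpv⟩ := dual hK τ
    refine ⟨pv, hpv0, hpv1, fun u hu => ?_⟩
    rw [← hV]
    rcases le_total u (Real.log 2) with h | h
    · exact hpv u ⟨hu, h⟩
    · refine le_trans (Finset.sum_le_sum fun i _ => ?_) (hpv (Real.log 2) ⟨hl.le, le_rfl⟩)
      refine mul_le_mul_of_nonneg_left ?_ (hpv0 i)
      unfold Pt
      refine gf_anti ?_ (mul_le_mul_of_nonneg_left h (Real.exp_pos _).le)
      have : 1 ≤ Real.exp ((i : ℕ) * τ) := Real.one_le_exp (mul_nonneg (by positivity) hτ.1)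
      nlinarith
  · have h2 : a * Real.log 2 - ε / 2 < Vx K τ := by linarith
    obtain ⟨r, hr, hr2⟩ := exists_lt_of_lt_csSup ⟨0, R_zero K τ⟩ h2
    obtain ⟨D, m, hD, hm, h⟩ := rat hr (show 0 < ε / 2 by positivity)
    refine ⟨D, m, hD, hm, fun i => le_trans ?_ (h i)⟩
    have : (0 : ℝ) ≤ D := by positivity
    nlinarith

/-- The multipliers of a block. -/
noncomputable def mu (K D n : ℕ) (τ : ℝ) (m : ℕ → ℝ) (c : ℕ) : ℝ :=
  if c < K then Real.exp (-((c : ℝ) * τ)) * Real.log 2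
  else if c < K + n * D then m ((c - K) % D) else 0

theorem mu_nonneg {K D n : ℕ} {τ : ℝ} {m : ℕ → ℝ} (hm : ∀ c, 0 ≤ m c ∧ m c ≤ Real.log 2) (c : ℕ) :
    0 ≤ mu K D n τ m c := by
  have hl : 0 < Real.log 2 := Real.log_pos (by norm_num)
  unfold mu
  split_ifs
  · positivity
  · exact (hm _).1
  · exact le_rfl

theorem mu_le {K D n : ℕ} {τ : ℝ} (hτ : 0 ≤ τ) {m : ℕ → ℝ}
    (hm : ∀ c, 0 ≤ m c ∧ m c ≤ Real.log 2) (c : ℕ) : mu K D n τ m c ≤ Real.log 2 := by
  have hl : 0 < Real.log 2 := Real.log_pos (by norm_num)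
  unfold mu
  split_ifs
  · have : Real.exp (-((c : ℝ) * τ)) ≤ 1 :=
      Real.exp_le_one_iff.2 (neg_nonpos.2 (mul_nonneg (by positivity) hτ))
    nlinarith
  · exact (hm _).2
  · exact hl.le

theorem sum_mod (G : ℕ → ℝ) (D n : ℕ) :
    ∑ c ∈ Finset.range (n * D), G (c % D) = n * ∑ c ∈ Finset.range D, G c := by
  induction n with
  | zero => simp
  | succ n ih =>
    rw [Nat.succ_mul, Finset.sum_range_add, ih]
    push_cast
    rw [add_mul, one_mul]
    congr 1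
    refine Finset.sum_congr rfl fun c hc => ?_
    rw [Nat.mul_comm, Nat.mul_add_mod, Nat.mod_eq_of_lt (Finset.mem_range.1 hc)]

/-- The entropies of a block. -/
theorem block {K D L : ℕ} {a ε τ : ℝ} {m : ℕ → ℝ} (ha : a ≤ 1) (hε : 0 < ε)
    (hD : 1 ≤ D) (hm : ∀ c, 0 ≤ m c ∧ m c ≤ Real.log 2) (i : ℕ) (hKL : K < L)
    (hL : ((D : ℝ) + K) * Real.log 2 ≤ ε * L)
    (h : (a * Real.log 2 - ε) * D ≤ ∑ c ∈ Finset.range D, gf (Real.exp (i * τ) * m c)) :
    (a * Real.log 2 - 2 * ε) * L ≤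
      ∑ c ∈ Finset.range L, gf (Real.exp (i * τ) * mu K D ((L - K) / D) τ m c) := by
  have hl : 0 < Real.log 2 := Real.log_pos (by norm_num)
  have hg : ∀ c, 0 ≤ gf (Real.exp (i * τ) * mu K D ((L - K) / D) τ m c) := fun c =>
    gf_nonneg (mul_nonneg (Real.exp_pos _).le (mu_nonneg hm c))
  rcases le_or_gt ε (a * Real.log 2) with hc | hc
  · have h1 : K + (L - K) / D * D ≤ L := by
      have := Nat.div_mul_le_self (L - K) D
      omega
    have h2 : ∑ c ∈ Finset.range (K + (L - K) / D * D),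
        gf (Real.exp (i * τ) * mu K D ((L - K) / D) τ m c) ≤
        ∑ c ∈ Finset.range L, gf (Real.exp (i * τ) * mu K D ((L - K) / D) τ m c) :=
      Finset.sum_le_sum_of_subset_of_nonneg (Finset.range_subset_range.2 h1)
        fun c _ _ => hg c
    refine le_trans ?_ h2
    rw [Finset.sum_range_add]
    have h3 : 0 ≤ ∑ c ∈ Finset.range K,
        gf (Real.exp (i * τ) * mu K D ((L - K) / D) τ m c) := Finset.sum_nonneg fun c _ => hg c
    have h4 : ∑ c ∈ Finset.range ((L - K) / D * D),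
        gf (Real.exp (i * τ) * mu K D ((L - K) / D) τ m (K + c)) =
        (((L - K) / D : ℕ) : ℝ) * ∑ c ∈ Finset.range D, gf (Real.exp (i * τ) * m c) := by
      rw [← sum_mod (fun c => gf (Real.exp (i * τ) * m c))]
      refine Finset.sum_congr rfl fun c hc => ?_
      have hc' := Finset.mem_range.1 hc
      unfold mu
      rw [if_neg (by omega), if_pos (by omega), Nat.add_sub_cancel_left]
    rw [h4]
    set n : ℕ := (L - K) / D with hn
    have h5 : (L : ℝ) - K - D ≤ n * D := by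
      have h6 : L - K < D * ((L - K) / D + 1) := Nat.lt_mul_div_succ (L - K) (by omega)
      rw [← hn] at h6
      have h7 : L < K + D * (n + 1) := by omega
      have h8 : (L : ℝ) < K + D * (n + 1) := by exact_mod_cast h7
      linarith
    have h6 : (n : ℝ) * ((a * Real.log 2 - ε) * D) ≤
        n * ∑ c ∈ Finset.range D, gf (Real.exp (i * τ) * m c) :=
      mul_le_mul_of_nonneg_left h (by positivity)
    have h7 : ((L : ℝ) - K - D) * (a * Real.log 2 - ε) ≤ n * D * (a * Real.log 2 - ε) :=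
      mul_le_mul_of_nonneg_right h5 (by linarith)
    have h8 : ((K : ℝ) + D) * (a * Real.log 2 - ε) ≤ (K + D) * Real.log 2 := by
      refine mul_le_mul_of_nonneg_left ?_ (by positivity)
      nlinarith
    nlinarith
  · refine le_trans ?_ (Finset.sum_nonneg fun c _ => hg c)
    have : (0 : ℝ) ≤ L := by positivity
    nlinarith

theorem exists_len (K D : ℕ) {ε : ℝ} (hε : 0 < ε) : ∃ ℓ : ℕ, K < 2 ^ ℓ ∧
    ((D : ℝ) + K) * Real.log 2 ≤ ε * ((2 ^ ℓ : ℕ) : ℝ) := by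
  obtain ⟨N, hN⟩ := exists_nat_ge (((D : ℝ) + K) * Real.log 2 / ε)
  refine ⟨max K N, ?_, ?_⟩
  · exact lt_of_le_of_lt (le_max_left _ _) Nat.lt_two_pow_self
  · have h1 : N ≤ 2 ^ max K N := (le_max_right K N).trans Nat.lt_two_pow_self.le
    have h2 : (N : ℝ) ≤ ((2 ^ max K N : ℕ) : ℝ) := by exact_mod_cast h1
    rw [div_le_iff₀ hε] at hN
    nlinarith

end PARF_

open PARF_ in
/-- PARF. -/
theorem p_PARF : T_PARF := by
  intro K a hK ha h1
  have hK' : (0 : ℝ) < K := by exact_mod_cast hK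
  have hl : 0 < Real.log 2 := Real.log_pos (by norm_num)
  have h0 : 0 < a := lt_trans (by positivity) ha
  obtain ⟨τ, hτ, ⟨pv, pv0, pv1, hpv⟩, hrat⟩ := game' hK ha h1
  choose D m hD hm hsum using fun κ : ℕ => hrat (1 / (2 * ((κ : ℝ) + 1))) (by positivity)
  choose ℓ hℓ1 hℓ2 using fun κ : ℕ => exists_len K (D κ)
    (ε := 1 / (2 * ((κ : ℝ) + 1))) (by positivity)
  refine ⟨{
    a := a
    K := K
    lam := fun i => Real.exp (i * τ)
    dm := fun κ => 2 ^ ℓ κ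
    mul := fun κ => mu K (D κ) ((2 ^ ℓ κ - K) / D κ) τ (m κ)
    B := ⌈Real.exp (K * τ) * Real.log 2⌉₊
    pv := fun i => if h : i < K then pv ⟨i, h⟩ else 0
    a0 := h0.le
    a1 := h1
    K1 := hK
    lam0 := fun i => (Real.exp_pos _).le
    dm1 := fun κ => Nat.one_le_two_pow
    mul0 := fun κ c => mu_nonneg (hm κ) c
    bd := ?_
    pv0 := ?_
    pv1 := ?_
    cov := ?_
    hid := ?_ }, rfl, rfl, fun κ => ⟨ℓ κ, rfl, hℓ1 κ, fun i hi => ?_⟩⟩
  · intro i κ c hi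
    refine le_trans ?_ (Nat.le_ceil _)
    refine mul_le_mul (Real.exp_le_exp.2 (mul_le_mul_of_nonneg_right ?_ hτ)) (mu_le hτ (hm κ) c)
      (mu_nonneg (hm κ) c) (Real.exp_pos _).le
    exact_mod_cast hi.le
  · intro i
    split_ifs
    · exact pv0 _
    · exact le_rfl
  · rw [Finset.sum_range, ← pv1]
    refine Finset.sum_congr rfl fun i _ => ?_
    rw [dif_pos i.2]
  · intro D' _ e A he hA
    rw [Finset.sum_range]
    refine le_trans (le_of_eq (Finset.sum_congr rfl fun i _ => ?_))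
      (low_bound hK hτ pv0 hpv he hA)
    rw [dif_pos i.2]
  · intro κ i hi
    have h3 := block (L := 2 ^ ℓ κ) (τ := τ) h1 (by positivity) (hD κ) (hm κ) i (hℓ1 κ) (hℓ2 κ)
      (hsum κ ⟨i, hi⟩)
    refine le_trans (le_of_eq ?_) h3
    congr 2
    field_simp
  · change Real.exp (i * τ) * mu K (D κ) ((2 ^ ℓ κ - K) / D κ) τ (m κ) i = Real.log 2
    unfold mu
    rw [if_pos hi, ← mul_assoc, ← Real.exp_add]
    simp

end Pool.Agent.RelB
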