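import Pool.Agent.RelB.Targets2

/-!
# The numbers of the special words (STR)
-/

set_option autoImplicit false

namespace Pool.Agent.RelB

open Pool.Agent.RelM (str)

namespace STR_

theorem bits_block : ∀ (ℓ m : ℕ), m < 2 ^ ℓ → ∃ c : List Bool, c.length = ℓ ∧
    ∀ n, 0 < n → Nat.bits (n * 2 ^ ℓ + m) = c ++ Nat.bits n
  | 0, m, hm => by
    have h0 : m = 0 := by simpa using hm
    subst h0
    exact ⟨[], rfl, fun n _ => by simp⟩
  | ℓ + 1, m, hm => by
    have h1 : m.div2 < 2 ^ ℓ := by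
      rw [Nat.div2_val]
      rw [pow_succ] at hm
      omega
    obtain ⟨c, hc, h⟩ := bits_block ℓ m.div2 h1
    refine ⟨m.bodd :: c, by simp [hc], fun n hn => ?_⟩
    have h2 : n * 2 ^ (ℓ + 1) + m = Nat.bit m.bodd (n * 2 ^ ℓ + m.div2) := by
      have h3 := Nat.bit_bodd_div2 m
      rw [Nat.bit_val] at h3 ⊢
      rw [pow_succ]
      calc n * (2 ^ ℓ * 2) + m = 2 * (n * 2 ^ ℓ) + (2 * m.div2 + m.bodd.toNat) := by
            rw [h3]
            ring
        _ = _ := by ring
    have h4 : 0 < n * 2 ^ ℓ := by positivity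
    rw [h2, Nat.bits_append_bit _ _ (fun h5 => by omega), h n hn]
    rfl

end STR_

/-- The numbers of the special words. -/
theorem p_STR : T_STR := by
  intro ℓ i hi
  obtain ⟨c, hc, h⟩ := STR_.bits_block ℓ (i + 1) hi
  refine ⟨c.reverse, by simp [hc], fun t => ?_⟩
  have h1 : Nat.bits (wn ℓ t i + 1) = c ++ Nat.bits (t + 1) := by
    rw [← h (t + 1) (Nat.succ_pos t)]
    rfl
  have h2 : Nat.bits (t + 1) ≠ [] := by
    intro h3
    have h4 := congrArg List.length h3
    rw [Nat.size_eq_bits_len, List.length_nil, Nat.size_eq_zero] at h4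
    omega
  unfold str
  rw [h1, List.dropLast_append_of_ne_nil h2, List.reverse_append]

end Pool.Agent.RelB
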