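import Pool.Agent.RelB.Targets2
import Pool.Agent.RelB.P_APP

/-!
# RelB, target XOR: `E` and `E_2` are closed under symmetric differences
-/

set_option autoImplicit false

namespace Pool.Agent.RelB

open MeasureTheory Set
open scoped ENNReal
open Pool.Agent.RelM (Lang Instr Cfg step run Halts Decides E1 E2 NP pair triple binVal outVal
  Approx IsDensity str pre IsNullCover Null1 Null2 wq sq0 sq1 Asks hq code qb run_zero run_succ
  stay halts_mono)

namespace XOR_

open APP_ (loop loop_run)

/-- the stack of an instruction -/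
def stk : Instr → ℕ
  | Instr.push s _ => s
  | Instr.pop s _ _ _ => s
  | Instr.ask s _ _ => s

theorem stk_bound (P : List Instr) : ∃ B, ∀ ins ∈ P, stk ins < B := by
  induction P with
  | nil => exact ⟨0, fun _ h => absurd h (List.not_mem_nil)⟩
  | cons a P ih =>
    obtain ⟨B, hB⟩ := ih
    refine ⟨max B (stk a + 1), fun ins h => ?_⟩
    rcases List.mem_cons.1 h with rfl | h
    · exact lt_of_lt_of_le (Nat.lt_succ_self _) (le_max_right _ _)
    · exact lt_of_lt_of_le (hB ins h) (le_max_left _ _)

/-- stacks shifted by `σ`, jumps capped at `L` and shifted by `l` -/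
def emb (σ L l : ℕ) : Instr → Instr
  | Instr.push s b => Instr.push (s + σ) b
  | Instr.pop s a b c => Instr.pop (s + σ) (min a L + l) (min b L + l) (min c L + l)
  | Instr.ask s a b => Instr.ask (s + σ) (min a L + l) (min b L + l)

/-- the stacks `σ, ..., σ + B - 1` from `f`, the others from `F` -/
def mg (σ B : ℕ) (f F : ℕ → List Bool) : ℕ → List Bool :=
  fun i => if σ ≤ i ∧ i < σ + B then f (i - σ) else F i

theorem mg_at {σ B : ℕ} (f F : ℕ → List Bool) {s : ℕ} (h : s < B) : mg σ B f F (s + σ) = f s := by
  unfold mg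
  rw [if_pos ⟨by omega, by omega⟩, Nat.add_sub_cancel]

theorem mg_upd {σ B : ℕ} (f F : ℕ → List Bool) {s : ℕ} (h : s < B) (v : List Bool) :
    Function.update (mg σ B f F) (s + σ) v = mg σ B (Function.update f s v) F := by
  funext i
  by_cases hi : i = s + σ
  · subst hi
    rw [Function.update_self, mg_at _ _ h, Function.update_self]
  · rw [Function.update_of_ne hi]
    unfold mg
    by_cases h2 : σ ≤ i ∧ i < σ + B
    · rw [if_pos h2, if_pos h2, Function.update_of_ne (by omega)]
    · rw [if_neg h2, if_neg h2]

/-- the configuration of the large program -/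
def rel (σ B L l : ℕ) (F : ℕ → List Bool) (c : Cfg) : Cfg := ⟨min c.pc L + l, mg σ B c.st F⟩

theorem step_rel (O : Lang) {P R : List Instr} {σ B l : ℕ} (F : ℕ → List Bool)
    (hB : ∀ ins ∈ P, stk ins < B)
    (hR : ∀ (i : ℕ) (ins : Instr), P[i]? = some ins → R[i + l]? = some (emb σ P.length l ins))
    (c : Cfg) (hc : c.pc < P.length) :
    step O R (rel σ B P.length l F c) = rel σ B P.length l F (step O P c) := by
  obtain ⟨ins, hP⟩ : ∃ ins, P[c.pc]? = some ins := ⟨_, List.getElem?_eq_getElem hc⟩
  have hb := hB ins (List.mem_of_getElem? hP)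
  have hRR := hR _ _ hP
  have hm : min c.pc P.length = c.pc := min_eq_left hc.le
  unfold step rel
  simp only [hm, hRR, hP]
  cases ins with
  | push s b =>
    have hb' : s < B := hb
    simp only [emb]
    rw [mg_at _ _ hb', mg_upd _ _ hb']
    congr 1
    rw [min_eq_left (by omega)]
    omega
  | pop s l₀ l₁ l₂ =>
    have hb' : s < B := hb
    simp only [emb]
    rw [mg_at _ _ hb']
    rcases hs : c.st s with _ | ⟨b, u⟩
    · rfl
    · cases b
      · simp only [mg_upd _ _ hb']
      · simp only [mg_upd _ _ hb']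
  | ask s l₀ l₁ =>
    have hb' : s < B := hb
    simp only [emb, mg_at _ _ hb']
    cases O (c.st s) <;> rfl

theorem run_rel (O : Lang) {P R : List Instr} {σ B l : ℕ} (F : ℕ → List Bool)
    (hB : ∀ ins ∈ P, stk ins < B)
    (hR : ∀ (i : ℕ) (ins : Instr), P[i]? = some ins → R[i + l]? = some (emb σ P.length l ins))
    (c : Cfg) (t : ℕ) : ∃ t' ≤ t,
    (step O R)^[t'] (rel σ B P.length l F c) = rel σ B P.length l F ((step O P)^[t] c) := by
  induction t with
  | zero => exact ⟨0, le_rfl, rfl⟩
  | succ t ih =>
    obtain ⟨t', h1, h2⟩ := ih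
    rcases lt_or_ge ((step O P)^[t] c).pc P.length with h | h
    · refine ⟨t' + 1, by omega, ?_⟩
      rw [Function.iterate_succ_apply', Function.iterate_succ_apply', h2,
        step_rel O F hB hR _ h]
    · refine ⟨t', by omega, ?_⟩
      rw [Function.iterate_succ_apply', h2, Pool.Agent.RelM.step_of_halt O P _ h]

/-- the second loop: the bits of stack `1` are moved to the stacks `0` and `M` -/
def loop2 (M p : ℕ) : List Instr :=
  [Instr.pop 1 (p + 1) (p + 4) (p + 7), Instr.push 0 false, Instr.push M false,
    Instr.pop 9 p p p, Instr.push 0 true, Instr.push M true, Instr.pop 9 p p p]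

theorem loop2_run (O : Lang) (R : List Instr) (p M : ℕ) (hM : 10 ≤ M)
    (h : ∀ i < 7, R[p + i]? = (loop2 M p)[i]?) :
    ∀ (u : List Bool) (f : ℕ → List Bool), f 1 = u → f 9 = [] →
      (step O R)^[4 * u.length + 1] ⟨p, f⟩ = ⟨p + 7, Function.update (Function.update
        (Function.update f 1 []) 0 (u.reverse ++ f 0)) M (u.reverse ++ f M)⟩ := by
  have h0 : R[p]? = some (Instr.pop 1 (p + 1) (p + 4) (p + 7)) := h 0 (by norm_num)
  have h1 : R[p + 1]? = some (Instr.push 0 false) := h 1 (by norm_num)
  have h2 : R[p + 2]? = some (Instr.push M false) := h 2 (by norm_num)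
  have h3 : R[p + 3]? = some (Instr.pop 9 p p p) := h 3 (by norm_num)
  have h4 : R[p + 4]? = some (Instr.push 0 true) := h 4 (by norm_num)
  have h5 : R[p + 5]? = some (Instr.push M true) := h 5 (by norm_num)
  have h6 : R[p + 6]? = some (Instr.pop 9 p p p) := h 6 (by norm_num)
  have hM0 : M ≠ 0 := by omega
  have hM1 : M ≠ 1 := by omega
  have hM9 : M ≠ 9 := by omega
  intro u
  induction u with
  | nil =>
    intro f hf _
    have e : step O R ⟨p, f⟩ = ⟨p + 7, f⟩ := by
      unfold step
      simp only [h0, hf]
    simp only [List.length_nil, mul_zero, zero_add, Function.iterate_one, List.reverse_nil,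
      List.nil_append]
    rw [e]
    congr 1
    funext i
    by_cases hi : i = M
    · subst hi
      simp
    · rw [Function.update_of_ne hi]
      by_cases hi0 : i = 0
      · subst hi0
        simp
      · rw [Function.update_of_ne hi0]
        by_cases hi1 : i = 1
        · subst hi1
          simp [hf]
        · rw [Function.update_of_ne hi1]
  | cons b u ih =>
    intro f hf h9
    set g1 : ℕ → List Bool := Function.update f 1 u with hg1
    set g2 : ℕ → List Bool := Function.update g1 0 (b :: f 0) with hg2
    set g3 : ℕ → List Bool := Function.update g2 M (b :: f M) with hg3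
    have e1 : step O R ⟨p, f⟩ = ⟨if b then p + 4 else p + 1, g1⟩ := by
      unfold step
      simp only [h0, hf]
      cases b <;> rfl
    have v0 : g1 0 = f 0 := by rw [hg1, Function.update_of_ne (by norm_num)]
    have vM : g2 M = f M := by
      rw [hg2, Function.update_of_ne hM0, hg1, Function.update_of_ne hM1]
    have v9 : g3 9 = [] := by
      rw [hg3, Function.update_of_ne (Ne.symm hM9), hg2, Function.update_of_ne (by norm_num), hg1,
        Function.update_of_ne (by norm_num), h9]
    have v1 : g3 1 = u := by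
      rw [hg3, Function.update_of_ne (Ne.symm hM1), hg2, Function.update_of_ne (by norm_num), hg1,
        Function.update_self]
    have w0 : g3 0 = b :: f 0 := by
      rw [hg3, Function.update_of_ne (Ne.symm hM0), hg2, Function.update_self]
    have wM : g3 M = b :: f M := by rw [hg3, Function.update_self]
    have e2 : step O R ⟨if b then p + 4 else p + 1, g1⟩ = ⟨if b then p + 5 else p + 2, g2⟩ := by
      cases b
      · unfold step
        simp only [Bool.false_eq_true, if_false, h1]
        rw [v0]
      · unfold step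
        simp only [if_true, h4]
        rw [v0]
    have e3 : step O R ⟨if b then p + 5 else p + 2, g2⟩ = ⟨if b then p + 6 else p + 3, g3⟩ := by
      cases b
      · unfold step
        simp only [Bool.false_eq_true, if_false, h2]
        rw [vM]
      · unfold step
        simp only [if_true, h5]
        rw [vM]
    have e4 : step O R ⟨if b then p + 6 else p + 3, g3⟩ = ⟨p, g3⟩ := by
      cases b
      · unfold step
        simp only [Bool.false_eq_true, if_false, h3, v9]
      · unfold step
        simp only [if_true, h6, v9]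
    have e5 : (step O R)^[4] ⟨p, f⟩ = ⟨p, g3⟩ := by
      change step O R (step O R (step O R (step O R ⟨p, f⟩))) = _
      rw [e1, e2, e3, e4]
    have e6 : 4 * (b :: u).length + 1 = (4 * u.length + 1) + 4 := by
      simp only [List.length_cons]
      ring
    rw [e6, Function.iterate_add_apply, e5, ih g3 v1 v9, w0, wM]
    congr 1
    funext i
    by_cases hi : i = M
    · subst hi
      simp
    · rw [Function.update_of_ne hi, Function.update_of_ne hi]
      by_cases hi0 : i = 0
      · subst hi0
        simp
      · rw [Function.update_of_ne hi0, Function.update_of_ne hi0]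
        by_cases hi1 : i = 1
        · subst hi1
          simp
        · rw [Function.update_of_ne hi1, Function.update_of_ne hi1, hg3,
            Function.update_of_ne hi, hg2, Function.update_of_ne hi0, hg1,
            Function.update_of_ne hi1]

/-- the output bits on the stacks `1` and `M + 1` are combined -/
def comb (M p : ℕ) : List Instr :=
  [Instr.pop (M + 1) (p + 5) (p + 1) (p + 5), Instr.pop 1 (p + 2) (p + 4) (p + 5),
    Instr.push 1 true, Instr.pop (M + 1) (p + 5) (p + 5) (p + 5), Instr.push 1 false]

theorem comb_run (O : Lang) (R : List Instr) (p M : ℕ) (hM : 10 ≤ M)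
    (h : ∀ i < 5, R[p + i]? = (comb M p)[i]?) (f : ℕ → List Bool) (a b : Bool)
    (ha : f 1 = [a]) (hb : f (M + 1) = [b]) :
    ∃ t ≤ 4, ∃ g : ℕ → List Bool, (step O R)^[t] ⟨p, f⟩ = ⟨p + 5, g⟩ ∧ g 1 = [xor a b] := by
  have h0 : R[p]? = some (Instr.pop (M + 1) (p + 5) (p + 1) (p + 5)) := h 0 (by norm_num)
  have h1 : R[p + 1]? = some (Instr.pop 1 (p + 2) (p + 4) (p + 5)) := h 1 (by norm_num)
  have h2 : R[p + 2]? = some (Instr.push 1 true) := h 2 (by norm_num)
  have h3 : R[p + 3]? = some (Instr.pop (M + 1) (p + 5) (p + 5) (p + 5)) := h 3 (by norm_num)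
  have h4 : R[p + 4]? = some (Instr.push 1 false) := h 4 (by norm_num)
  have hM1 : (1 : ℕ) ≠ M + 1 := by omega
  have hM1' : M + 1 ≠ 1 := by omega
  cases b with
  | false =>
    refine ⟨1, by norm_num, Function.update f (M + 1) [], ?_, ?_⟩
    · change step O R ⟨p, f⟩ = _
      unfold step
      simp only [h0, hb]
    · rw [Function.update_of_ne hM1, ha, Bool.xor_false]
  | true =>
    set g1 : ℕ → List Bool := Function.update f (M + 1) [] with hg1
    have v1 : g1 1 = [a] := by rw [hg1, Function.update_of_ne hM1, ha]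
    have e1 : step O R ⟨p, f⟩ = ⟨p + 1, g1⟩ := by
      unfold step
      simp only [h0, hb]
      rfl
    set g2 : ℕ → List Bool := Function.update g1 1 [] with hg2
    have v2 : g2 1 = [] := by rw [hg2, Function.update_self]
    cases a with
    | false =>
      set g3 : ℕ → List Bool := Function.update g2 1 (true :: g2 1) with hg3
      have e2 : step O R ⟨p + 1, g1⟩ = ⟨p + 2, g2⟩ := by
        unfold step
        simp only [h1, v1]
        rfl
      have e3 : step O R ⟨p + 2, g2⟩ = ⟨p + 3, g3⟩ := by
        unfold step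
        simp only [h2]
        rfl
      have v3 : g3 (M + 1) = [] := by
        rw [hg3, Function.update_of_ne hM1', hg2, Function.update_of_ne hM1', hg1,
          Function.update_self]
      have e4 : step O R ⟨p + 3, g3⟩ = ⟨p + 5, g3⟩ := by
        unfold step
        simp only [h3, v3]
      refine ⟨4, le_rfl, g3, ?_, ?_⟩
      · change step O R (step O R (step O R (step O R ⟨p, f⟩))) = _
        rw [e1, e2, e3, e4]
      · rw [hg3, Function.update_self, v2]
        rfl
    | true =>
      have e2 : step O R ⟨p + 1, g1⟩ = ⟨p + 4, g2⟩ := by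
        unfold step
        simp only [h1, v1]
        rfl
      refine ⟨3, by norm_num, Function.update g2 1 (false :: g2 1), ?_, ?_⟩
      · change step O R (step O R (step O R ⟨p, f⟩)) = _
        rw [e1, e2]
        unfold step
        simp only [h4]
      · rw [Function.update_self, v2]
        rfl

/-- the program -/
def prog (M : ℕ) (P Q : List Instr) : List Instr :=
  loop 0 1 0 ++ (loop2 M 5 ++ (P.map (emb 0 P.length 12) ++
    (Q.map (emb M Q.length (12 + P.length)) ++ comb M (12 + P.length + Q.length))))

theorem prog_length (M : ℕ) (P Q : List Instr) :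
    (prog M P Q).length = 12 + P.length + Q.length + 5 := by
  simp only [prog, loop, loop2, comb, List.length_append, List.length_map, List.length_cons,
    List.length_nil]
  omega

theorem prog1 (M : ℕ) (P Q : List Instr) (i : ℕ) (h : i < 5) :
    (prog M P Q)[0 + i]? = (loop 0 1 0)[i]? := by
  unfold prog
  rw [List.getElem?_append_left (by simpa [loop] using h)]
  simp

theorem prog2 (M : ℕ) (P Q : List Instr) (i : ℕ) (h : i < 7) :
    (prog M P Q)[5 + i]? = (loop2 M 5)[i]? := by
  unfold prog
  rw [List.getElem?_append_right (by simp [loop]),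
    List.getElem?_append_left (by simpa [loop, loop2] using h)]
  congr 1
  simp [loop]

theorem prog3 (M : ℕ) (P Q : List Instr) (i : ℕ) (ins : Instr) (h : P[i]? = some ins) :
    (prog M P Q)[i + 12]? = some (emb 0 P.length 12 ins) := by
  have hi : i < P.length := (List.getElem?_eq_some_iff.1 h).1
  unfold prog
  rw [List.getElem?_append_right (by simp [loop]),
    List.getElem?_append_right (by simp [loop, loop2]),
    List.getElem?_append_left (by simp [loop, loop2]; omega), List.getElem?_map]
  have e : i + 12 - (loop 0 1 0).length - (loop2 M 5).length = i := by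
    simp only [loop, loop2, List.length_cons, List.length_nil]
    omega
  rw [e, h]
  rfl

theorem prog4 (M : ℕ) (P Q : List Instr) (i : ℕ) (ins : Instr) (h : Q[i]? = some ins) :
    (prog M P Q)[i + (12 + P.length)]? = some (emb M Q.length (12 + P.length) ins) := by
  have hi : i < Q.length := (List.getElem?_eq_some_iff.1 h).1
  unfold prog
  rw [List.getElem?_append_right (by simp [loop]; omega),
    List.getElem?_append_right (by simp [loop, loop2]; omega),
    List.getElem?_append_right (by simp [loop, loop2]; omega),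
    List.getElem?_append_left (by simp [loop, loop2]; omega), List.getElem?_map]
  have e : i + (12 + P.length) - (loop 0 1 0).length - (loop2 M 5).length -
      (P.map (emb 0 P.length 12)).length = i := by
    simp only [loop, loop2, List.length_cons, List.length_nil, List.length_map]
    omega
  rw [e, h]
  rfl

theorem prog5 (M : ℕ) (P Q : List Instr) (i : ℕ) (h : i < 5) :
    (prog M P Q)[12 + P.length + Q.length + i]? = (comb M (12 + P.length + Q.length))[i]? := by
  unfold prog
  rw [List.getElem?_append_right (by simp [loop]; omega),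
    List.getElem?_append_right (by simp [loop, loop2]; omega),
    List.getElem?_append_right (by simp [loop, loop2]; omega),
    List.getElem?_append_right (by simp [loop, loop2]; omega)]
  congr 1
  simp only [loop, loop2, List.length_cons, List.length_nil, List.length_map]
  omega

/-- the first part: the input is copied -/
theorem copy (O : Lang) (M : ℕ) (hM : 10 ≤ M) (P Q : List Instr) (x : List Bool) :
    (step O (prog M P Q))^[7 * x.length + 2] ⟨0, Function.update (fun _ => []) 0 x⟩ =
      ⟨12, Function.update (Function.update (fun _ => []) 0 x) M x⟩ := by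
  have a := loop_run O (prog M P Q) 0 0 1 (by norm_num) (by norm_num) (by norm_num)
    (prog1 M P Q 0 (by norm_num)) (prog1 M P Q 1 (by norm_num)) (prog1 M P Q 2 (by norm_num))
    (prog1 M P Q 3 (by norm_num)) (prog1 M P Q 4 (by norm_num)) x
    (Function.update (fun _ => []) 0 x) (by simp) (by simp)
  have e1 : Function.update (Function.update (Function.update (fun _ => []) 0 x) 0 []) 1
      (x.reverse ++ Function.update (fun _ => ([] : List Bool)) 0 x 1) =
      Function.update (fun _ => []) 1 x.reverse := by
    funext i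
    by_cases h0 : i = 0
    · subst h0
      simp
    · by_cases h2 : i = 1
      · subst h2
        simp
      · simp [Function.update_of_ne h0, Function.update_of_ne h2]
  rw [e1] at a
  have b := loop2_run O (prog M P Q) 5 M hM (fun i hi => prog2 M P Q i hi) x.reverse
    (Function.update (fun _ => []) 1 x.reverse) (by simp) (by simp)
  rw [List.length_reverse, List.reverse_reverse] at b
  have hM0 : M ≠ 0 := by omega
  have hM1 : M ≠ 1 := by omega
  have e2 : Function.update (Function.update (Function.update (Function.update (fun _ => []) 1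
      x.reverse) 1 []) 0 (x ++ Function.update (fun _ => ([] : List Bool)) 1 x.reverse 0)) M
      (x ++ Function.update (fun _ => ([] : List Bool)) 1 x.reverse M) =
      Function.update (Function.update (fun _ => []) 0 x) M x := by
    funext i
    by_cases hi : i = M
    · subst hi
      simp [Function.update_of_ne hM1]
    · rw [Function.update_of_ne hi, Function.update_of_ne hi]
      by_cases hi0 : i = 0
      · subst hi0
        simp
      · rw [Function.update_of_ne hi0, Function.update_of_ne hi0]
        by_cases hi1 : i = 1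
        · subst hi1
          simp
        · rw [Function.update_of_ne hi1, Function.update_of_ne hi1]
  rw [e2] at b
  rw [show 7 * x.length + 2 = (4 * x.length + 1) + (3 * x.length + 1) by ring,
    Function.iterate_add_apply, a]
  exact b

theorem main (O : Lang) {A B : Lang} {P Q : List Instr} {T₁ T₂ T : ℕ → ℕ} (hP : Decides O P A T₁)
    (hQ : Decides O Q B T₂) (hT : ∀ n, 7 * n + 2 + T₁ n + T₂ n + 4 ≤ T n) :
    ∃ R : List Instr, Decides O R (fun x => xor (A x) (B x)) T := by
  obtain ⟨B1, hB1⟩ := stk_bound P
  obtain ⟨B2, hB2⟩ := stk_bound Q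
  set M : ℕ := B1 + 10 with hM
  set B' : ℕ := B2 + 2 with hB'
  have hM10 : 10 ≤ M := by omega
  have hP1 : ∀ ins ∈ P, stk ins < M := fun ins h => by have := hB1 ins h; omega
  have hQ1 : ∀ ins ∈ Q, stk ins < B' := fun ins h => by have := hB2 ins h; omega
  refine ⟨prog M P Q, fun x => ?_⟩
  obtain ⟨p1, p2⟩ := hP x
  obtain ⟨q1, q2⟩ := hQ x
  set c0 : Cfg := ⟨0, Function.update (fun _ => []) 0 x⟩ with hc0
  set F1 : ℕ → List Bool := Function.update (Function.update (fun _ => []) 0 x) M x with hF1
  have hst : c0.st = Function.update (fun _ => []) 0 x := rfl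
  have hpc : c0.pc = 0 := rfl
  have s1 := copy O M hM10 P Q x
  have k1 : (⟨12, F1⟩ : Cfg) = rel 0 M P.length 12 F1 c0 := by
    have e : F1 = mg 0 M c0.st F1 := by
      funext i
      unfold mg
      by_cases h : 0 ≤ i ∧ i < 0 + M
      · rw [if_pos h, hst, hF1, Function.update_of_ne (by omega), Nat.sub_zero]
      · rw [if_neg h]
    unfold rel
    rw [← e, hpc, Nat.zero_min, Nat.zero_add]
  obtain ⟨t1, ht1, s2⟩ := run_rel O F1 hP1 (prog3 M P Q) c0 (T₁ x.length)
  set cP : Cfg := (step O P)^[T₁ x.length] c0 with hcP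
  have hP3 : P.length ≤ cP.pc := p1
  have hP4 : cP.st 1 = [A x] := p2
  set F2 : ℕ → List Bool := mg 0 M cP.st F1 with hF2
  have k2 : rel 0 M P.length 12 F1 cP = rel M B' Q.length (12 + P.length) F2 c0 := by
    have e : F2 = mg M B' c0.st F2 := by
      funext i
      unfold mg
      by_cases h : M ≤ i ∧ i < M + B'
      · rw [if_pos h, hF2, hst]
        unfold mg
        rw [if_neg (by omega), hF1]
        by_cases hi : i = M
        · rw [hi, Function.update_self, Nat.sub_self, Function.update_self]
        · rw [Function.update_of_ne hi, Function.update_of_ne (by omega),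
            Function.update_of_ne (by omega)]
      · rw [if_neg h]
    unfold rel
    rw [min_eq_right hP3, ← hF2, ← e, hpc, Nat.zero_min, Nat.zero_add, add_comm]
  obtain ⟨t2, ht2, s3⟩ := run_rel O F2 hQ1 (prog4 M P Q) c0 (T₂ x.length)
  set cQ : Cfg := (step O Q)^[T₂ x.length] c0 with hcQ
  have hQ3 : Q.length ≤ cQ.pc := q1
  have hQ4 : cQ.st 1 = [B x] := q2
  have k3 : rel M B' Q.length (12 + P.length) F2 cQ =
      ⟨12 + P.length + Q.length, mg M B' cQ.st F2⟩ := by
    unfold rel
    congr 1
    rw [min_eq_right hQ3]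
    omega
  have v1 : mg M B' cQ.st F2 1 = [A x] := by
    unfold mg
    rw [if_neg (by omega), hF2]
    unfold mg
    rw [if_pos (by omega), Nat.sub_zero, hP4]
  have v2 : mg M B' cQ.st F2 (M + 1) = [B x] := by
    rw [add_comm M 1, mg_at _ _ (by omega), hQ4]
  obtain ⟨t3, ht3, g, s4, v3⟩ := comb_run O (prog M P Q) (12 + P.length + Q.length) M hM10
    (prog5 M P Q) (mg M B' cQ.st F2) (A x) (B x) v1 v2
  have hrun : run O (prog M P Q) x (t3 + (t2 + (t1 + (7 * x.length + 2)))) =
      ⟨12 + P.length + Q.length + 5, g⟩ := by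
    unfold run
    rw [Function.iterate_add_apply, Function.iterate_add_apply, Function.iterate_add_apply, s1,
      k1, s2, k2, s3, k3, s4]
  have hh : Halts O (prog M P Q) x (t3 + (t2 + (t1 + (7 * x.length + 2)))) := by
    unfold Halts
    rw [hrun, prog_length]
  have hle : t3 + (t2 + (t1 + (7 * x.length + 2))) ≤ T x.length := by
    have := hT x.length
    omega
  refine ⟨halts_mono _ _ _ _ _ hh hle, ?_⟩
  rw [stay _ _ _ _ _ hh hle, hrun]
  exact v3

theorem time1 (c d n : ℕ) : 7 * n + 2 + 2 ^ (c * (n + 1)) + 2 ^ (d * (n + 1)) + 4 ≤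
    2 ^ ((c + d + 5) * (n + 1)) := by
  have h0 : n + 1 ≤ 2 ^ n := Nat.lt_two_pow_self
  have h1 : 7 * n + 6 ≤ 2 ^ (3 + n) := by
    rw [pow_add]
    omega
  have h2 : 2 ^ (3 + n) ≤ 2 ^ ((c + d + 3) * (n + 1)) :=
    Nat.pow_le_pow_right (by norm_num) (by nlinarith)
  have h3 : 2 ^ (c * (n + 1)) ≤ 2 ^ ((c + d + 3) * (n + 1)) :=
    Nat.pow_le_pow_right (by norm_num) (Nat.mul_le_mul_right _ (by omega))
  have h4 : 2 ^ (d * (n + 1)) ≤ 2 ^ ((c + d + 3) * (n + 1)) :=
    Nat.pow_le_pow_right (by norm_num) (Nat.mul_le_mul_right _ (by omega))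
  have h5 : 2 ^ ((c + d + 3) * (n + 1) + 2) ≤ 2 ^ ((c + d + 5) * (n + 1)) :=
    Nat.pow_le_pow_right (by norm_num) (by nlinarith)
  rw [pow_add] at h5
  omega

theorem time2 (c d n : ℕ) : 7 * n + 2 + 2 ^ ((n + 2) ^ c) + 2 ^ ((n + 2) ^ d) + 4 ≤
    2 ^ ((n + 2) ^ (c + d + 5)) := by
  have h0 : n + 1 ≤ 2 ^ n := Nat.lt_two_pow_self
  have h1 : 7 * n + 6 ≤ 2 ^ (3 + n) := by
    rw [pow_add]
    omega
  have g0 : n + 3 ≤ (n + 2) ^ 2 := by nlinarith
  have g1 : (n + 2) ^ 2 ≤ (n + 2) ^ (c + d + 3) := Nat.pow_le_pow_right (by omega) (by omega)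
  have h2 : 2 ^ (3 + n) ≤ 2 ^ ((n + 2) ^ (c + d + 3)) :=
    Nat.pow_le_pow_right (by norm_num) (by omega)
  have h3 : 2 ^ ((n + 2) ^ c) ≤ 2 ^ ((n + 2) ^ (c + d + 3)) :=
    Nat.pow_le_pow_right (by norm_num) (Nat.pow_le_pow_right (by omega) (by omega))
  have h4 : 2 ^ ((n + 2) ^ d) ≤ 2 ^ ((n + 2) ^ (c + d + 3)) :=
    Nat.pow_le_pow_right (by norm_num) (Nat.pow_le_pow_right (by omega) (by omega))
  have g2 : (n + 2) ^ (c + d + 3) + 2 ≤ (n + 2) ^ (c + d + 5) := by
    have g3 : (n + 2) ^ (c + d + 5) = (n + 2) ^ (c + d + 3) * (n + 2) ^ 2 := pow_add _ _ 2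
    rw [g3]
    have g4 : 1 ≤ (n + 2) ^ (c + d + 3) := Nat.one_le_pow _ _ (by omega)
    have g5 : 4 ≤ (n + 2) ^ 2 := by nlinarith
    calc (n + 2) ^ (c + d + 3) + 2 ≤ (n + 2) ^ (c + d + 3) * 4 := by omega
      _ ≤ _ := Nat.mul_le_mul_left _ g5
  have h5 : 2 ^ ((n + 2) ^ (c + d + 3) + 2) ≤ 2 ^ ((n + 2) ^ (c + d + 5)) :=
    Nat.pow_le_pow_right (by norm_num) g2
  rw [pow_add] at h5
  omega

end XOR_

open XOR_ in
theorem p_XOR : T_XOR := by
  intro O A B
  refine ⟨?_, ?_⟩
  · rintro ⟨P, c, hP⟩ ⟨Q, d, hQ⟩
    obtain ⟨R, hR⟩ := main O hP hQ (T := fun n => 2 ^ ((c + d + 5) * (n + 1)))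
      fun n => time1 c d n
    exact ⟨R, c + d + 5, hR⟩
  · rintro ⟨P, c, hP⟩ ⟨Q, d, hQ⟩
    obtain ⟨R, hR⟩ := main O hP hQ (T := fun n => 2 ^ ((n + 2) ^ (c + d + 5)))
      fun n => time2 c d n
    exact ⟨R, c + d + 5, hR⟩

end Pool.Agent.RelB
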