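import Pool.Agent.RelB.Targets

/-!
# RelB: the Boolean hierarchy over `NP` and measure: the new targets

THEOREM. For every real `a` with `0 < a < 1` there is an oracle `O` such that, relative to `O`: `NP`
has dimension exactly `a` in `E` and in `E_2`; for all `m` with `m * a < 1` the level `m` of the
Boolean hierarchy over `NP` (the symmetric differences of `m` languages in `NP`) has dimension at
most `m * a`, in particular `p`- and `p_2`-measure `0`; and for all `m` with `1 < m * a` it is NOT
null in `E` and NOT null in `E_2`.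

The oracle is the one of `Pool.Agent.RelT` (`K = k` options with the factors `exp (i τ)`, `i < k`),
where every stage treats a list of machines (`Core.lean`). NEW: among the words of every block of
`2 ^ ℓ` consecutive words there are `k` special words, the `i`-th of them is fair if the option `i` is
chosen (`lam i * mul κ i = log 2`). So the symmetric difference of the bits of the `k` special words is
fair for every option: the language `Dk z κ ℓ k` is unpredictable.

Every target `T_X` is to be proved as `theorem p_X : T_X` (targets named in brackets may be taken as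
hypotheses) in a NEW file `Pool/Agent/RelB/P_X.lean`, namespace `Pool.Agent.RelB`, helper lemmas in
`X_`. Landed files of `Pool/Agent/RelM`, `RelO`, `RelS`, `RelT`, `RelV` may be imported and used;
they are the templates (the definitions of `RelB/Core.lean` and `RelB/Targets.lean` are literally
those of `RelT/Core.lean`, `RelT/Targets.lean`, except for the lists of machines).
-/

set_option autoImplicit false

namespace Pool.Agent.RelB

open MeasureTheory Set
open scoped ENNReal
open Pool.Agent.RelM (Lang Instr Cfg step run Halts Decides E1 E2 NP pair triple binVal outVal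
  Approx IsDensity str pre IsNullCover Null1 Null2 wq sq0 sq1 Asks hq code qb)
open Pool.Agent.RelO (lev IsGale IsGaleCover GaleNull1 GaleNull2 st)
open Pool.Agent.RelS (Z Rl orcV orc acc Idx Om bern bern_prob Dep mixP gf PF Low)
open Pool.Agent.RelT (Par Fast)

/-! ### the languages -/

/-- The number of the `i`-th special word of the block number `t`. -/
def wn (ℓ t i : ℕ) : ℕ := (t + 1) * 2 ^ ℓ + i

/-- The symmetric difference of the bits of the first `m` special words of the block of `x`. -/
noncomputable def Dk (z : Z) (κ ℓ : ℕ) : ℕ → Lang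
  | 0 => fun _ => false
  | m + 1 => fun x => xor (Rl z κ (str (wn ℓ (ix x) m))) (Dk z κ ℓ m x)

/-- The special words of the family `κ` in blocks of `2 ^ ℓ` words. -/
def Fam (Φ : Par) (κ ℓ : ℕ) : Prop :=
  Φ.dm κ = 2 ^ ℓ ∧ Φ.K < 2 ^ ℓ ∧ ∀ i < Φ.K, Φ.lam i * Φ.mul κ i = Real.log 2

/-- **PARF** (60 min; template `RelT/PAR.lean`, `RelS/GAME.lean`). As `RelT.par`, case `0 < a`, with
`K = k`: `V_small` (`1 / k < a`), `V_cont`, `V_zero` and the intermediate value theorem give `τ` with
`Vx k τ = a * log 2` (as in `exists_tau`), `dual` gives `pv`. For `κ` let `ε = 1 / (2 (κ + 1))`; the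
proof of `game` (`rat`) gives `D`, `m` with `(a log 2 - ε) * D ≤ ∑_{c<D} gf (exp (i τ) * m c)`. Choose `ℓ`
with `k < 2^ℓ`, `(D + k) * log 2 ≤ ε * 2^ℓ`, `n = (2^ℓ - k) / D`, `dm κ = 2^ℓ`, `mul κ c = exp (-(c τ)) * log 2`
for `c < k`, `= m ((c - k) % D)` for `k ≤ c < k + n D`, and `0` otherwise: the sum is at least
`n D (a log 2 - ε) ≥ (2^ℓ - k - D) (a log 2 - ε)`, at least `(a log 2 - 2 ε) 2^ℓ` (if `a log 2 < ε` the claim is
trivial, `gf ≥ 0`). All `mul κ c ≤ log 2`, so `B` is as before. -/
def T_PARF : Prop := ∀ (k : ℕ) (a : ℝ), 1 ≤ k → 1 / (k : ℝ) < a → a ≤ 1 →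
  ∃ Φ : Par, Φ.a = a ∧ Φ.K = k ∧ ∀ κ, ∃ ℓ, Fam Φ κ ℓ

/-- **STR** (20 min). `str (wn ℓ t i) = str t ++ c` with `c` not depending on `t`: induction on `ℓ` from
`str (2 n + 1 + b) = str n ++ [b]` (`Nat.bits (2 (n + 1) + b) = b :: Nat.bits (n + 1)`; `RelM.wval_str`).
Second part: `(str (wn ℓ t i)).length = (str t).length + ℓ`. -/
def T_STR : Prop := ∀ ℓ i : ℕ, i + 1 < 2 ^ ℓ → ∃ c : List Bool, c.length = ℓ ∧
  ∀ t, str (wn ℓ t i) = str t ++ c

/-- **FAIRD** (75 min; from the landed `RelT/FAIR.lean` copied to `RelB/FAIR.lean`: `fair_b`, and from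
T_STR). Given the coins visible before the first special word of the block, the symmetric difference
is a fair coin. Let `O ω < Φ.K` be the option of the stage of the block: all special words have
the same length, hence the same `lev`, `bl`, and `rt Φ κ (wn ℓ t i) ω = exp (-(lam (O ω) * mul κ i))`
(`wn ℓ t i % 2^ℓ = i`). Claim, by induction on `m ≤ Φ.K`, for all `H` depending on `Vis Φ κ (wn ℓ t 0)`:
`∫ 1[Dk m = b] 1[O < m] H = 1/2 ∫ 1[O < m] H`. Step: `fair_b` for the word `wn ℓ t m` and
`1[Dk m = b'] 1[O < m + 1] H` (it depends on `Vis Φ κ (wn ℓ t m)`, which contains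
`Vis Φ κ (wn ℓ t 0)`: same `bl`), so the integral over `{Dk (m+1) = b}` is
`∫ r 1[Dk m = b] 1[O < m+1] H + ∫ (1 - r) 1[Dk m = !b] 1[O < m+1] H`, `r = rt Φ κ (wn ℓ t m)`; on `O = m` we have
`r = 1/2`, on `O < m` use the induction hypothesis with `r H` and `(1 - r) H` (`rt_dep`, `bit_dep`, `opt_dep`
of `RelT/NONNULL.lean`, copied to `RelB/NONNULL.lean`). -/
def T_FAIRD : Prop := ∀ (Φ : Par) (κ ℓ t : ℕ) (H : Om → ℝ≥0∞) (b : Bool), Fam Φ κ ℓ →
  nn Φ 0 ≤ lev κ (str (wn ℓ t 0)) → Measurable H → Dep (Vis Φ κ (wn ℓ t 0)) H →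
  ∫⁻ ω in {ω | Dk (zo Φ ω) κ ℓ Φ.K (str t) = b}, H ω ∂(coin Φ) = 2⁻¹ * ∫⁻ ω, H ω ∂(coin Φ)

/-- **NONB** (75 min; from T_FAIRD, T_HIT, T_STR; template `RelV/NONNULLD.lean`, `RelV/VAL.lean` (or
`RelT/NONNULL.lean`)). The symmetric difference has no null cover computable by `Pr` in time `T`. As
`RelV.nonnulld_of`, with the language `RR = Dk (zo Φ ω) κ ℓ Φ.K`, visible coins `Vis Φ κ (wn ℓ t 0)` instead
of `Vis Φ κ t`, and `ov Φ κ (wn ℓ t 0)` instead of `ov Φ κ t`. The bits of `RR` on `str s`, `s < t`, depend on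
`Vis Φ κ (wn ℓ t 0)` since `wn ℓ s i < wn ℓ t 0` for `i < Φ.K < 2^ℓ`. `Fast κ T` at `t` suffices: `lev κ (str t) ≤ lev κ (str (wn ℓ t 0))`. The conditional probability is `1/2` by T_FAIRD (`RelT.cross` with
`p = 1/2`). -/
def T_NONB : Prop := ∀ (Φ : Par) (κ ℓ : ℕ) (Pr : List Instr) (T : ℕ → ℕ), Fam Φ κ ℓ → Fast κ T →
  ∀ᵐ ω ∂(coin Φ), ¬ ∃ d : ℕ → List Bool → ℝ,
    IsNullCover d {Dk (zo Φ ω) κ ℓ Φ.K} ∧ Approx (oo Φ ω) Pr T d

/-! ### machines -/

/-- **NPA** (60 min; template `RelM/NPR.lean`, `RelT/NPR.lean`). The program: move the code of `x` from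
stack `0` to stack `2` (loop: `pop 0`; if `1` then `pop 0` and push the bit on stack `2`; if `0` leave the
loop), push `0`, then the code of `c` (constants) on stack `0`, move stack `2` back (each bit followed by
`true`), so that stack `0` holds `pair (x ++ c) y`; then `vprog κ` (with shifted jumps). Jumps: `pop 9 l l l`
with the empty stack `9`. The oracle accepts only keys of length `lev κ (x ++ c)`, polynomial in the
length of `x` (`levpow`). Time `8 |x| + const`. -/
def T_NPA : Prop := ∀ (G : Lang) (z : Z) (κ : ℕ) (c : List Bool),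
  (fun x => Rl z κ (x ++ c)) ∈ NP (orc G z)

/-- **APP** (60 min). `E` and `E_2` are closed under `x ↦ x ++ c`. Program: move stack `0` to stack `2`
(reversed), push `c` on the empty stack `0` (constants), move stack `2` back, then the program for `A`
with shifted jumps (template `RelS/SHIFT.lean`: `sh`, `cs`, `step_cs`). -/
def T_APP : Prop := ∀ (O A : Lang) (c : List Bool),
  (A ∈ E1 O → (fun x => A (x ++ c)) ∈ E1 O) ∧ (A ∈ E2 O → (fun x => A (x ++ c)) ∈ E2 O)

/-- **XOR** (90 min). `E` and `E_2` are closed under symmetric differences. Program: with stack `1`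
as scratch copy the input from stack `0` to the stacks `0` and `M` (`M ≥ 3` larger than all stacks used
by `P`); `P` with shifted jumps (all jumps beyond its end go to the next segment); `Q` with shifted
jumps and all stacks shifted by `M`; then combine the output bits on the stacks `1` and `M + 1` on stack
`1`. Jumps: `pop N l l l` with a stack `N` not used otherwise. General lemma: if a program contains at
the place `l` a copy of `P` with shifted jumps (capped at the end of the segment) and shifted stacks,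
and `P` halts within `T` steps, then after some `t ≤ T` steps the large program is at `l + P.length` with
the same stacks (the other stacks unchanged); induction on `T`. Times: `2 ^ (c (n + 1))`, `2 ^ ((n + 2) ^ c)` with
larger `c`. -/
def T_XOR : Prop := ∀ (O A B : Lang),
  (A ∈ E1 O → B ∈ E1 O → (fun x => xor (A x) (B x)) ∈ E1 O) ∧
  (A ∈ E2 O → B ∈ E2 O → (fun x => xor (A x) (B x)) ∈ E2 O)

/-- **AFF** (60 min; template `RelS/SHIFT.lean`). If a sequence is computable in polynomial time, so is
`k ↦ d (α k + β)`: for every `1` at the beginning of the input `1^k 0 1^r 0 w` push `α` ones on stack `4`;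
then push `0` and `β` ones on stack `0` and move stack `4` back; then the program with shifted jumps. -/
def T_AFF : Prop := ∀ (O : Lang) (P : List Instr) (c α β : ℕ) (d : ℕ → List Bool → ℝ),
  Approx O P (fun n => (n + 2) ^ c) d →
  ∃ (P' : List Instr) (c' : ℕ), Approx O P' (fun n => (n + 2) ^ c') fun k => d (α * k + β)

/-! ### entropy -/

/-- **ENT** (40 min). `p`, `q`, `r` = the probabilities of two events and of their symmetric difference.
By the symmetries `p ↦ 1 - p`, `r ↦ 1 - r` (`Real.binEntropy_one_sub`) assume `p, q ≤ 1/2`. The entropy `h` is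
concave with `h 0 = 0`, so `h (x + y) ≤ h x + h y` for `x, y ≥ 0`, `x + y ≤ 1`, and it is increasing on
`[0, 1/2]`. If `p + q ≤ 1/2` then `r ≤ p + q ≤ 1/2`, so `h r ≤ h (p + q) ≤ h p + h q`. Otherwise
`h r ≤ h (1/2) ≤ h p + h (1/2 - p) ≤ h p + h q`. -/
def T_ENT : Prop := ∀ p q r : ℝ, 0 ≤ p → 0 ≤ q → 0 ≤ r → p ≤ 1 → q ≤ 1 → r ≤ 1 →
  r ≤ p + q → p ≤ q + r → q ≤ p + r → p + q + r ≤ 2 →
  Real.binEntropy r ≤ Real.binEntropy p + Real.binEntropy q

end Pool.Agent.RelB
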