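import Pool.Agent.RelB.Targets2
import Pool.Agent.RelB.IO
import Pool.Agent.RelS.SHIFT
import Pool.Agent.RelO.FAM
import Pool.Agent.RelO.MAIN
import Pool.Agent.RelM.READ

/-!
# The dimension is at most `a`
-/

set_option autoImplicit false

namespace Pool.Agent.RelB

open MeasureTheory Set
open scoped ENNReal
open Pool.Agent.RelT (Par Fast)
open Pool.Agent.RelM (Lang Instr Cfg run Halts NP E1 E2 Approx IsDensity IsNullCover Null1 Null2
  pair triple str pre hq wq sq0 sq1 Asks code qb code_surj)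
open Pool.Agent.RelO (lev st IsGale IsGaleCover GaleNull1 GaleNull2)
open Pool.Agent.RelS (Z Rl orcV orc acc Idx Om Dep mixP gf PF Low)

theorem oo_tt (Φ : Par) (ω : Om) (u : List Bool) :
    oo Φ ω (true :: true :: u) = bitsOf Φ (hf Φ ω).2 u := Pool.Agent.RelS.ott _ _ _ _

/-- The supergales can be computed in polynomial time. -/
theorem appr : ∃ (P : List Instr) (c : ℕ), ∀ (Φ : Par) (ω : Om),
    Approx (oo Φ ω) P (fun l => (l + 2) ^ c) (dd Φ (hf Φ ω).2) := by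
  obtain ⟨P, c, h⟩ := Pool.Agent.RelM.read Pool.Agent.RelM.stay
  refine ⟨P, c, fun Φ ω k r w => ?_⟩
  have h1 := h (oo Φ ω) (num Φ (hf Φ ω).2)
    (fun j k r w => by rw [oo_tt]; exact (bits Φ (hf Φ ω).2 j k r w).1)
    (fun j k r w => by rw [oo_tt]; exact (bits Φ (hf Φ ω).2 j k r w).2.1)
    (fun j k r w => by rw [oo_tt]; exact (bits Φ (hf Φ ω).2 j k r w).2.2)
    (fun k r w => (numok Φ (hf Φ ω).2 k r w).1) k r w
  refine ⟨h1.1, ?_⟩
  rw [h1.2]
  exact (numok Φ (hf Φ ω).2 k r w).2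

/-- The margin of the supergale number `k`. -/
noncomputable def mg (k : ℕ) : ℝ := Real.log 2 / (2 * ((k : ℝ) + 1))

theorem mg_pos (k : ℕ) : 0 < mg k := by
  have : 0 < Real.log 2 := Real.log_pos (by norm_num)
  unfold mg
  positivity

/-- A language of the level `m` is given by a list of `m` machines. -/
theorem bh_list {O : Lang} : ∀ {m : ℕ} {A : Lang}, A ∈ BH O m →
    ∃ vs : ML, vs.length = m ∧ ∀ x, A x = true ↔ xacc O vs x := by
  intro m
  induction m with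
  | zero =>
    intro A hA
    refine ⟨[], rfl, fun x => ?_⟩
    rw [show A = fun _ => false from hA]
    exact ⟨fun h => absurd h (by simp), fun h => h.elim⟩
  | succ m ih =>
    rintro A ⟨A1, ⟨P, b, c, hP⟩, B, hB, rfl⟩
    obtain ⟨vs, h1, h2⟩ := ih hB
    refine ⟨(P, b, c) :: vs, by rw [List.length_cons, h1], fun x => ?_⟩
    have h3 : A1 x = true ↔ acc O (P, b, c) x := (hP x).2
    show xor (A1 x) (B x) = true ↔ Xor (acc O (P, b, c) x) (xacc O vs x)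
    unfold Xor
    rw [← h3, ← h2 x]
    cases A1 x <;> cases B x <;> simp

/-- The supergale number `k` is large on a language of the level `m`. -/
theorem cov {Φ : Par} {ω : Om} (hω : ∀ e n m : ℕ, ∃ j, m ≤ j ∧ st j = e ∧
      Real.exp (-((((mcs j).length : ℝ) * Φ.a * Real.log 2 + mg n) * 2 ^ (nn Φ j + j) +
        2 ^ nn Φ j)) ≤ Pw Φ (hf Φ ω).2 j (pre (Lj Φ j ω) (2 ^ (nn Φ j + j))))
    {m : ℕ} (hm : (m : ℝ) * Φ.a ≤ 1) (n : ℕ) {A : Lang} (hA : A ∈ BH (oo Φ ω) m) (k : ℕ)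
    (hk : ee k = (m, n)) : ∃ N, 1 ≤ dd Φ (hf Φ ω).2 k (pre A N) := by
  classical
  obtain ⟨vs, hvl, hvs⟩ := bh_list hA
  obtain ⟨e, he⟩ := lcode_surj vs
  obtain ⟨n0, hn⟩ := Pool.Agent.RelS.NN_.exp_bound 1 (4 * (n + 1) * (k + 1)) 0
  obtain ⟨j, hjn, hst, hlow⟩ := hω e n n0
  have hmc : mcs j = vs := by
    unfold mcs
    rw [hst, he]
  have hAt : Lj Φ j ω = A := by
    funext x
    unfold Lj
    rw [Bool.eq_iff_iff, hvs x, decide_eq_true_eq, hmc]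
  rw [hAt, hmc, hvl] at hlow
  have hj2 : 4 * (n + 1) * (k + j + 2) ≤ 2 ^ j := by
    have h1 := hn j hjn
    rw [pow_one] at h1
    have h2 : k + j + 2 ≤ (k + 1) * (j + 2) := by nlinarith
    calc 4 * (n + 1) * (k + j + 2) ≤ 4 * (n + 1) * ((k + 1) * (j + 2)) := by gcongr
      _ = 4 * (n + 1) * (k + 1) * (j + 0 + 2) := by ring
      _ ≤ 2 ^ j := by omega
  refine ⟨2 ^ (nn Φ j + j), ?_⟩
  have hjN : j < (pre A (2 ^ (nn Φ j + j))).length := by
    rw [pre_length]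
    have h1 : nn Φ j + j < 2 ^ (nn Φ j + j) := Nat.lt_two_pow_self
    omega
  refine le_trans ?_ (dlow Φ (hf Φ ω).2 k j _ hjN)
  rw [pre_length]
  obtain ⟨L, hL⟩ : ∃ L, L = Real.log 2 := ⟨_, rfl⟩
  have hL1 : 1 / 2 ≤ L := by rw [hL]; linarith [Real.log_two_gt_d9]
  have hL2 : L ≤ 1 := by rw [hL]; linarith [Real.log_two_lt_d9]
  obtain ⟨M, hM⟩ : ∃ M : ℝ, M = 2 ^ nn Φ j := ⟨_, rfl⟩
  have hM1 : 1 ≤ M := by rw [hM]; exact one_le_pow₀ (by norm_num)
  have hN : (2 : ℝ) ^ (nn Φ j + j) = M * 2 ^ j := by rw [hM, pow_add]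
  have hhalf : ∀ m : ℕ, (1 / 2 : ℝ) ^ m = Real.exp (-(m * L)) := by
    intro m
    rw [hL, ← mul_neg, Real.exp_nat_mul, Real.exp_neg, Real.exp_log (by norm_num), one_div]
  have hpow : (2 : ℝ) ^ (sK Φ k * ((2 ^ (nn Φ j + j) : ℕ) : ℝ)) =
      Real.exp (L * (sK Φ k * (M * 2 ^ j))) := by
    rw [Real.rpow_def_of_pos (by norm_num), ← hL]
    push_cast
    rw [hN]
  rw [hN, ← hM, ← hL] at hlow
  have hkey : 0 ≤ -(k * L) + L * (sK Φ k * (M * 2 ^ j)) +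
      (-(((j + 1 : ℕ) : ℝ) * L) + -((m * Φ.a * L + mg n) * (M * 2 ^ j) + M)) := by
    have h1 : sK Φ k = m * Φ.a + 1 / ((n : ℝ) + 1) := by
      unfold sK
      rw [hk]
      apply min_eq_right
      have : (1 : ℝ) / ((n : ℝ) + 1) ≤ 1 := by
        rw [div_le_one (by positivity)]
        linarith [Nat.cast_nonneg (α := ℝ) n]
      show (m : ℝ) * Φ.a + 1 / ((n : ℝ) + 1) ≤ 2
      linarith
    have h2 : mg n = L / (2 * ((n : ℝ) + 1)) := by unfold mg; rw [hL]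
    have hj3 : 4 * ((n : ℝ) + 1) * (k + j + 2) ≤ 2 ^ j := by exact_mod_cast hj2
    rw [h1, h2]
    have hk : (0 : ℝ) < (n : ℝ) + 1 := by positivity
    have h3 : L * ((m * Φ.a + 1 / ((n : ℝ) + 1)) * (M * 2 ^ j)) -
        (m * Φ.a * L + L / (2 * ((n : ℝ) + 1))) * (M * 2 ^ j) =
        L * M * 2 ^ j / (2 * ((n : ℝ) + 1)) := by
      field_simp
      ring
    have h4 : M * ((k : ℝ) + j + 2) ≤ L * M * 2 ^ j / (2 * ((n : ℝ) + 1)) := by
      rw [le_div_iff₀ (by positivity)]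
      calc M * ((k : ℝ) + j + 2) * (2 * (n + 1)) = 1 / 2 * M * (4 * (n + 1) * (k + j + 2)) := by
            ring
        _ ≤ L * M * 2 ^ j := by gcongr
    have h5 : ((k : ℝ) + (j + 1)) * L + M ≤ M * ((k : ℝ) + j + 2) := by
      have h6 : ((k : ℝ) + (j + 1)) * L ≤ ((k : ℝ) + (j + 1)) * M :=
        mul_le_mul_of_nonneg_left (hL2.trans hM1) (by positivity)
      linarith
    push_cast
    linarith
  calc (1 : ℝ) ≤ Real.exp (-(k * L) + L * (sK Φ k * (M * 2 ^ j)) +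
        (-(((j + 1 : ℕ) : ℝ) * L) + -((m * Φ.a * L + mg n) * (M * 2 ^ j) + M))) :=
        Real.one_le_exp hkey
    _ = (1 / 2 : ℝ) ^ k * (2 : ℝ) ^ (sK Φ k * ((2 ^ (nn Φ j + j) : ℕ) : ℝ)) *
        ((1 / 2 : ℝ) ^ (j + 1) * Real.exp (-((m * Φ.a * L + mg n) * (M * 2 ^ j) + M))) := by
        rw [hhalf, hpow, hhalf, ← Real.exp_add, ← Real.exp_add, ← Real.exp_add]
    _ ≤ _ := by gcongr

/-- The numbers of the supergales with a given code of the parameter. -/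
theorem ee_kk (e k : ℕ) : ee (2 ^ (e + 1) * k + (2 ^ e - 1)) = Nat.unpair e := by
  unfold ee
  congr 1
  have h0 : 1 ≤ 2 ^ e := Nat.one_le_two_pow
  have h1 : 2 ^ (e + 1) * k + (2 ^ e - 1) + 1 = 2 ^ e * (2 * k + 1) := by
    have : 2 ^ (e + 1) * k + (2 ^ e - 1) + 1 = 2 ^ (e + 1) * k + 2 ^ e := by omega
    rw [this, pow_succ]
    ring
  rw [h1, padicValNat.mul (by positivity) (by omega), padicValNat.prime_pow,
    padicValNat.eq_zero_of_not_dvd (by omega), add_zero]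

/-- The dimension of the level `m` is at most `m * a`. -/
theorem upp (hENT : T_ENT) (hAFF : T_AFF) : T_UPP := by
  intro Φ
  have h : ∀ᵐ ω ∂(coin Φ), ∀ e n m : ℕ, ∃ j, m ≤ j ∧ st j = e ∧
      Real.exp (-((((mcs j).length : ℝ) * Φ.a * Real.log 2 + mg n) * 2 ^ (nn Φ j + j) +
        2 ^ nn Φ j)) ≤ Pw Φ (hf Φ ω).2 j (pre (Lj Φ j ω) (2 ^ (nn Φ j + j))) :=
    ae_all_iff.2 fun e => ae_all_iff.2 fun n => io hENT Φ e (mg n) (mg_pos n)
  filter_upwards [h] with ω hω m s hm hs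
  obtain ⟨n, hl⟩ := exists_nat_one_div_lt (show (0 : ℝ) < s - m * Φ.a by linarith)
  obtain ⟨e, he⟩ : ∃ e, e = Nat.pair m n := ⟨_, rfl⟩
  have hee : ∀ k, ee (2 ^ (e + 1) * k + (2 ^ e - 1)) = (m, n) := by
    intro k
    rw [ee_kk, he, Nat.unpair_pair]
  have hcov : IsGaleCover s (fun k => dd Φ (hf Φ ω).2 (2 ^ (e + 1) * k + (2 ^ e - 1)))
      (BH (oo Φ ω) m) := by
    intro k
    refine ⟨Pool.Agent.RelO.MAIN_.gale_mono ?_ (dgale Φ (hf Φ ω).2 _), ?_, ?_⟩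
    · unfold sK
      rw [hee]
      refine (min_le_right _ _).trans ?_
      show (m : ℝ) * Φ.a + 1 / ((n : ℝ) + 1) ≤ s
      linarith
    · refine (dnil Φ (hf Φ ω).2 _).trans ?_
      refine pow_le_pow_of_le_one (by norm_num) (by norm_num) ?_
      have h1 : 1 ≤ 2 ^ (e + 1) := Nat.one_le_two_pow
      have h2 : 1 * k ≤ 2 ^ (e + 1) * k := Nat.mul_le_mul_right k h1
      omega
    · intro A hA
      exact cov hω hm n hA _ (hee k)
  obtain ⟨P, c, hap⟩ := appr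
  obtain ⟨P', c', hap'⟩ := hAFF (oo Φ ω) P c (2 ^ (e + 1)) (2 ^ e - 1) _ (hap Φ ω)
  refine ⟨⟨_, hcov, P', c', hap'⟩, ?_⟩
  obtain ⟨c'', hc''⟩ := Pool.Agent.RelO.t12 c'
  exact ⟨_, hcov, P', c'', Pool.Agent.RelO.time _ _ _ _ _ hc'' hap'⟩

end Pool.Agent.RelB
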